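import Mathlib

/-! The alternating form. -/

set_option autoImplicit false
set_option linter.unusedSectionVars false

namespace Pool.Agent.H822.PI

open Matrix

/-- the alternating form in the variables `x` -/
def cap {A : Type*} [Ring A] {N : ℕ} (x y : Fin N → A) : A :=
  ∑ σ : Equiv.Perm (Fin N), Equiv.Perm.sign σ • (List.ofFn fun i => x (σ i) * y i).prod

theorem map_cap {A B : Type*} [Ring A] [Ring B] (φ : A →+* B) {N : ℕ} (x y : Fin N → A) :
    φ (cap x y) = cap (fun i => φ (x i)) (fun i => φ (y i)) := by
  unfold cap
  rw [map_sum]
  refine Finset.sum_congr rfl fun σ _ => ?_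
  rw [Units.smul_def, Units.smul_def, map_zsmul, map_list_prod, List.map_ofFn]
  congr 3
  funext i
  simp

section

variable (K : Type*) [CommRing K] {A : Type*} [Ring A] [Algebra K A] {N : ℕ}

/-- the form as an alternating map -/
def capX (y : Fin N → A) : A [⋀^Fin N]→ₗ[K] A :=
  MultilinearMap.alternatization ((MultilinearMap.mkPiAlgebraFin K N A).compLinearMap
    (fun i => LinearMap.mulRight K (y i)))

theorem capX_apply (x y : Fin N → A) : capX K y x = cap x y := by
  unfold capX cap
  rw [MultilinearMap.alternatization_apply]
  refine Finset.sum_congr rfl fun σ _ => ?_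
  rw [MultilinearMap.domDomCongr_apply, MultilinearMap.compLinearMap_apply,
    MultilinearMap.mkPiAlgebraFin_apply]
  rfl

/-- the form as a multilinear map in `y` -/
def capY (x : Fin N → A) : MultilinearMap K (fun _ : Fin N => A) A :=
  ∑ σ : Equiv.Perm (Fin N), Equiv.Perm.sign σ • (MultilinearMap.mkPiAlgebraFin K N A).compLinearMap
    (fun i => LinearMap.mulLeft K (x (σ i)))

theorem capY_apply (x y : Fin N → A) : capY K x y = cap x y := by
  unfold capY cap
  rw [_root_.sum_apply]
  refine Finset.sum_congr rfl fun σ _ => ?_
  rw [_root_.smul_apply, MultilinearMap.compLinearMap_apply,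
    MultilinearMap.mkPiAlgebraFin_apply]
  rfl

end

/-- extension of a membership from a set to its span -/
theorem ext_span {K M M₂ ι : Type*} [CommRing K] [AddCommGroup M] [Module K M] [AddCommGroup M₂]
    [Module K M₂] [Fintype ι] [DecidableEq ι] (F : MultilinearMap K (fun _ : ι => M) M₂)
    (s : Set M) (P : Submodule K M₂) (h : ∀ x : ι → M, (∀ i, x i ∈ s) → F x ∈ P) (x : ι → M)
    (hx : ∀ i, x i ∈ Submodule.span K s) : F x ∈ P := by
  have key : ∀ B : Finset ι, ∀ x : ι → M, (∀ i ∈ B, x i ∈ Submodule.span K s) →
      (∀ i, i ∉ B → x i ∈ s) → F x ∈ P := by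
    intro B
    induction B using Finset.induction_on with
    | empty => intro x _ h2; exact h x (fun i => h2 i (Finset.notMem_empty i))
    | insert a B ha ih =>
      intro x h1 h2
      have h3 : ∀ z ∈ Submodule.span K s, F (Function.update x a z) ∈ P := by
        intro z hz
        induction hz using Submodule.span_induction with
        | mem z hz =>
          refine ih _ ?_ ?_
          · intro i hi
            have hia : i ≠ a := fun hh => ha (hh ▸ hi)
            rw [Function.update_of_ne hia]
            exact h1 i (Finset.mem_insert_of_mem hi)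
          · intro i hi
            by_cases hia : i = a
            · subst hia; rw [Function.update_self]; exact hz
            · rw [Function.update_of_ne hia]
              exact h2 i (by
                rw [Finset.mem_insert]; exact fun hh => hh.elim hia hi)
        | zero => rw [F.map_update_zero]; exact P.zero_mem
        | add z w _ _ hz hw => rw [F.map_update_add]; exact P.add_mem hz hw
        | smul c z _ hz => rw [F.map_update_smul]; exact P.smul_mem c hz
      have h4 := h3 (x a) (h1 a (Finset.mem_insert_self a B))
      rwa [Function.update_eq_self] at h4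
  exact key Finset.univ x (fun i _ => hx i) (fun i hi => absurd (Finset.mem_univ i) hi)

/-- the determinant formula -/
theorem cap_det {K : Type*} [CommRing K] {A : Type*} [Ring A] [Algebra K A] {N : ℕ}
    (e : Module.Basis (Fin N) K A) (x y : Fin N → A) : cap x y = e.det x • cap e y := by
  have h : capX K y = (LinearMap.toSpanSingleton K A (cap e y)).compAlternatingMap e.det := by
    refine Module.Basis.ext_alternating e ?_
    intro v hv
    let σ : Equiv.Perm (Fin N) := Equiv.ofBijective v (Finite.injective_iff_bijective.1 hv)
    have h1 : (fun i => e (v i)) = (fun i => e (σ i)) := rfl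
    rw [h1]
    have h2 : capX K y (fun i => e (σ i)) = Equiv.Perm.sign σ • capX K y e :=
      (capX K y).map_perm e σ
    have h3 : e.det (fun i => e (σ i)) = Equiv.Perm.sign σ • e.det e := e.det.map_perm e σ
    rw [h2, capX_apply, LinearMap.compAlternatingMap_apply, h3, e.det_self,
      LinearMap.toSpanSingleton_apply, Units.smul_def, Units.smul_def, smul_assoc, one_smul]
  rw [← capX_apply K, h, LinearMap.compAlternatingMap_apply, LinearMap.toSpanSingleton_apply]

theorem cap_vanish {K : Type*} [Field K] {d m : ℕ} (hm : m < d)
    (x y : Fin (d * d) → Matrix (Fin m) (Fin m) K) : cap x y = 0 := by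
  rw [← capX_apply K]
  refine AlternatingMap.map_linearDependent _ _ ?_
  intro h
  have := h.fintype_card_le_finrank
  rw [Fintype.card_fin, Module.finrank_matrix, Fintype.card_fin, Module.finrank_self, mul_one] at this
  have h2 : m * m < d * d := Nat.mul_self_lt_mul_self hm
  omega

theorem single_row {K : Type*} [CommRing K] {d : ℕ} (p q r : Fin d) :
    (Pi.single p 1 : Fin d → K) ᵥ* (single q r (1 : K) : Matrix (Fin d) (Fin d) K) =
      if p = q then Pi.single r 1 else 0 := by
  rw [single_one_vecMul]
  ext j
  by_cases hp : p = q
  · subst hp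
    rw [if_pos rfl]
    by_cases hj : j = r
    · subst hj; simp [Matrix.row]
    · rw [Pi.single_eq_of_ne hj]
      exact single_apply_of_col_ne _ _ (Ne.symm hj) _
  · rw [if_neg hp]
    exact single_apply_of_row_ne (Ne.symm hp) _ _ _

theorem cap_units {K : Type*} [CommRing K] {d : ℕ} (hd : 0 < d) :
    ∃ x y : Fin (d * d) → Matrix (Fin d) (Fin d) K, ∃ ρ : Fin d → K, ρ ᵥ* cap x y = ρ ∧
      ∃ i, ρ i = 1 := by
  have hN : 0 < d * d := Nat.mul_pos hd hd
  let e : Fin (d * d) → Fin d × Fin d := finProdFinEquiv.symm
  have he : Function.Injective e := finProdFinEquiv.symm.injective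
  let a : ℕ → Fin d := fun j => if h : j < d * d then (e ⟨j, h⟩).1 else (e ⟨0, hN⟩).1
  have ha : ∀ i : Fin (d * d), a i = (e i).1 := fun i => by simp [a, i.2]
  have haN : a (d * d) = a 0 := by simp [a, hN]
  let x : Fin (d * d) → Matrix (Fin d) (Fin d) K := fun i => single (e i).1 (e i).2 1
  let y : Fin (d * d) → Matrix (Fin d) (Fin d) K := fun i => single (e i).2 (a (i + 1)) 1
  refine ⟨x, y, Pi.single (a 0) 1, ?_, a 0, Pi.single_eq_same _ _⟩
  have key : ∀ σ : Equiv.Perm (Fin (d * d)), ∀ j : Fin (d * d + 1),
      (Pi.single (a 0) 1 : Fin d → K) ᵥ* Fin.partialProd (fun i => x (σ i) * y i) j =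
        if (∀ i : Fin (d * d), (i : ℕ) < j → σ i = i) then Pi.single (a j) 1 else 0 := by
    intro σ j
    induction j using Fin.induction with
    | zero => simp
    | succ j ih =>
      rw [Fin.partialProd_succ, ← vecMul_vecMul, ih, ← vecMul_vecMul]
      by_cases h1 : ∀ i : Fin (d * d), (i : ℕ) < (Fin.castSucc j : Fin (d * d + 1)) → σ i = i
      · rw [if_pos h1]
        change ((Pi.single (a ((Fin.castSucc j : Fin (d * d + 1)) : ℕ)) 1 : Fin d → K) ᵥ*
          single (e (σ j)).1 (e (σ j)).2 1) ᵥ* single (e j).2 (a (j + 1)) 1 = _
        rw [Fin.val_castSucc, ha, single_row]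
        by_cases h2 : (e j).1 = (e (σ j)).1
        · rw [if_pos h2, single_row]
          by_cases h3 : (e (σ j)).2 = (e j).2
          · have h4 : σ j = j := he (Prod.ext h2.symm h3)
            rw [if_pos h3, if_pos]
            · rfl
            · intro i hi
              rw [Fin.val_succ] at hi
              by_cases hij : i = j
              · rw [hij, h4]
              · refine h1 i ?_
                rw [Fin.val_castSucc]
                have : (i : ℕ) ≠ j := fun hh => hij (Fin.ext hh)
                omega
          · rw [if_neg h3, if_neg]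
            intro h5
            have := h5 j (by rw [Fin.val_succ]; omega)
            rw [this] at h3
            exact h3 rfl
        · rw [if_neg h2, zero_vecMul, if_neg]
          intro h5
          have := h5 j (by rw [Fin.val_succ]; omega)
          rw [this] at h2
          exact h2 rfl
      · rw [if_neg h1, zero_vecMul, zero_vecMul, if_neg]
        intro h5
        refine h1 fun i hi => h5 i ?_
        rw [Fin.val_castSucc] at hi
        rw [Fin.val_succ]
        omega
  have hlast : ∀ f : Fin (d * d) → Matrix (Fin d) (Fin d) K,
      Fin.partialProd f (Fin.last _) = (List.ofFn f).prod := by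
    intro f
    unfold Fin.partialProd
    rw [Fin.val_last, List.take_of_length_le (by rw [List.length_ofFn])]
  unfold cap
  rw [vecMul_sum, Finset.sum_eq_single 1]
  · rw [Equiv.Perm.sign_one, one_smul, ← hlast, key, if_pos, Fin.val_last, haN]
    intro i _
    rfl
  · intro σ _ hσ
    rw [Units.smul_def, vecMul_smul, ← hlast, key, if_neg, smul_zero]
    intro h
    exact hσ (Equiv.ext fun i => h i (by rw [Fin.val_last]; exact i.2))
  · intro h
    exact absurd (Finset.mem_univ _) h

end Pool.Agent.H822.PI
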