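import Mathlib
import Pool.Agent.H822.PI.Cap

/-! Coefficients and differences of determinants. -/

set_option autoImplicit false
set_option linter.unusedSectionVars false

namespace Pool.Agent.H822.PI

open Matrix Polynomial

section

variable {K : Type*} [CommRing K] {n : Type*} [Fintype n] [DecidableEq n]

/-- the determinant of the pencil -/
noncomputable def pdet (A B : Matrix n n K) : K[X] :=
  (A.map (C : K →+* K[X]) + (X : K[X]) • B.map (C : K →+* K[X])).det

theorem pdet_eval (A B : Matrix n n K) (μ : K) : (pdet A B).eval μ = (A + μ • B).det := by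
  unfold pdet
  rw [← coe_evalRingHom, RingHom.map_det]
  congr 1
  ext i j
  simp only [RingHom.mapMatrix_apply, map_apply, Matrix.add_apply, Matrix.smul_apply, smul_eq_mul,
    coe_evalRingHom, eval_add, eval_mul, eval_C, eval_X]

theorem pdet_charpoly (A : Matrix n n K) : pdet (-A) 1 = A.charpoly := by
  unfold pdet Matrix.charpoly
  congr 1
  ext i j : 2
  by_cases h : i = j
  · subst h
    simp [charmatrix_apply_eq]
    ring
  · simp [charmatrix_apply_ne _ _ _ h, one_apply_ne h]

/-- mix the rows of two matrices -/
def mixr (S : Finset n) (P Q : Matrix n n K) : Matrix n n K :=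
  of fun i j => if i ∈ S then Q i j else P i j

theorem det_pencil (P Q : Matrix n n K) :
    (P.map (C : K →+* K[X]) + (X : K[X]) • Q.map (C : K →+* K[X])).det =
      ∑ S : Finset n, X ^ S.card * C (mixr S P Q).det := by
  let p : n → n → K[X] := fun i j => C (P i j)
  let q : n → n → K[X] := fun i j => C (Q i j)
  have h5 := (detRowAlternating : (n → K[X]) [⋀^n]→ₗ[K[X]] K[X]).toMultilinearMap.map_add_univ
      (fun i => (X : K[X]) • q i) p
  rw [AlternatingMap.coe_multilinearMap] at h5
  have h4 : (P.map (C : K →+* K[X]) + (X : K[X]) • Q.map (C : K →+* K[X])).det =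
      (detRowAlternating : (n → K[X]) [⋀^n]→ₗ[K[X]] K[X]) ((fun i => (X : K[X]) • q i) + p) := by
    rw [detRowAlternating]
    change _ = Matrix.det (of ((fun i => (X : K[X]) • q i) + p))
    congr 1
    ext i j : 2
    simp [p, q, add_comm]
  rw [h4, h5]
  refine Finset.sum_congr rfl fun S _ => ?_
  have h6 := (detRowAlternating : (n → K[X]) [⋀^n]→ₗ[K[X]] K[X]).toMultilinearMap.map_piecewise_smul
      (fun _ => (X : K[X])) (S.piecewise q p) S
  rw [AlternatingMap.coe_multilinearMap, Finset.prod_const, smul_eq_mul] at h6
  have h7 : S.piecewise (fun i => (X : K[X]) • (S.piecewise q p) i) (S.piecewise q p) =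
      S.piecewise (fun i => (X : K[X]) • q i) p := by
    funext i
    by_cases hi : i ∈ S
    · simp [hi]
    · simp [hi]
  rw [h7] at h6
  rw [h6]
  congr 1
  rw [RingHom.map_det]
  change (of (S.piecewise q p)).det = _
  congr 1
  ext i j : 2
  by_cases hi : i ∈ S
  · simp [hi, mixr, q]
  · simp [hi, mixr, p]

theorem pdet_coeff (A B Y : Matrix n n K) (k : ℕ) :
    (pdet A B).coeff k * Y.det = ∑ S : Finset n, if S.card = k then
      (mixr S (A * Y)ᵀ (B * Y)ᵀ).det else 0 := by
  have h1 : pdet A B * C Y.det = ∑ S : Finset n, X ^ S.card * C (mixr S (A * Y)ᵀ (B * Y)ᵀ).det := by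
    have h2 : (C Y.det : K[X]) = (Y.map (C : K →+* K[X])).det := by
      rw [RingHom.map_det]; rfl
    unfold pdet
    rw [h2, ← det_mul, ← det_transpose, ← det_pencil]
    congr 1
    rw [add_mul, ← Matrix.map_mul, smul_mul, ← Matrix.map_mul, transpose_add, transpose_smul,
      transpose_map, transpose_map]
  have h8 := congrArg (fun p => coeff p k) h1
  simp only [coeff_mul_C, finsetSum_coeff] at h8
  rw [h8]
  refine Finset.sum_congr rfl fun S _ => ?_
  rw [coeff_X_pow, ite_mul, one_mul, zero_mul]
  by_cases h : S.card = k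
  · rw [if_pos h, if_pos h.symm]
  · rw [if_neg h, if_neg (fun h' => h h'.symm)]

/-- high differences of the determinant vanish -/
theorem det_diff {k : ℕ} (hk : Fintype.card n < k) (A₀ : Matrix n n K)
    (A : Fin k → Matrix n n K) :
    ∑ S : Finset (Fin k), (-1) ^ S.card * (A₀ + ∑ i ∈ S, A i).det = 0 := by
  classical
  let B : Option (Fin k) → Matrix n n K := fun o => o.elim A₀ A
  have h1 : ∀ S : Finset (Fin k), (A₀ + ∑ i ∈ S, A i).det =
      ∑ r : n → Option (Fin k), if (∀ i, r i ∈ Finset.insertNone S) then
        (detRowAlternating : (n → K) [⋀^n]→ₗ[K] K) (fun i => B (r i) i) else 0 := by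
    intro S
    have h2 := (detRowAlternating : (n → K) [⋀^n]→ₗ[K] K).toMultilinearMap.map_sum_finset
      (fun i o => B o i) (fun _ => Finset.insertNone S)
    rw [AlternatingMap.coe_multilinearMap] at h2
    have h3 : (fun i => ∑ j ∈ Finset.insertNone S, B j i) = A₀ + ∑ i ∈ S, A i := by
      funext i
      rw [Finset.sum_insertNone]
      change A₀ i + ∑ j ∈ S, A j i = (A₀ + ∑ i ∈ S, A i) i
      ext j
      simp [Matrix.sum_apply]
    rw [h3] at h2
    rw [← Finset.sum_filter]
    refine h2.trans (Finset.sum_congr ?_ fun _ _ => rfl)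
    ext r
    simp only [Fintype.mem_piFinset, Finset.mem_filter, Finset.mem_univ, true_and]
  simp only [h1, Finset.mul_sum]
  rw [Finset.sum_comm]
  refine Finset.sum_eq_zero fun r _ => ?_
  -- an index not in the range
  obtain ⟨j, hj⟩ : ∃ j : Fin k, ∀ i, r i ≠ some j := by
    by_contra hcon
    push Not at hcon
    choose g hg using hcon
    have hinj : Function.Injective g := by
      intro a b hab
      have := (hg a).symm.trans ((congrArg r hab).trans (hg b))
      exact Option.some.inj this
    have := Fintype.card_le_of_injective g hinj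
    rw [Fintype.card_fin] at this
    omega
  have hu : (Finset.univ : Finset (Finset (Fin k))) =
      (insert j (Finset.univ.erase j)).powerset := by
    rw [Finset.insert_erase (Finset.mem_univ j), Finset.powerset_univ]
  rw [hu, Finset.sum_powerset_insert (Finset.notMem_erase j _), ← Finset.sum_add_distrib]
  refine Finset.sum_eq_zero fun t ht => ?_
  have hjt : j ∉ t := fun h => Finset.notMem_erase j _ (Finset.mem_powerset.1 ht h)
  have hiff : (∀ i, r i ∈ Finset.insertNone (insert j t)) ↔ (∀ i, r i ∈ Finset.insertNone t) := by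
    refine forall_congr' fun i => ?_
    rcases hri : r i with _ | a
    · simp
    · have : a ≠ j := fun h => hj i (by rw [hri, h])
      simp [this]
  rw [Finset.card_insert_of_notMem hjt, pow_succ]
  simp only [hiff]
  ring

end

end Pool.Agent.H822.PI
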