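import Mathlib

/-! Stable range one for algebraic algebras with boundedly many orthogonal idempotents. -/

set_option autoImplicit false

namespace Pool.Agent.H822.PI

variable {A : Type*} [Ring A]

/-- every element has a Fitting decomposition -/
def Fit (A : Type*) [Ring A] : Prop :=
  ∀ a : A, ∃ c : A, ∃ m : ℕ, a * c = c * a ∧ (a * c) * (a * c) = a * c ∧ a ^ m * (1 - a * c) = 0

/-- at most `k` orthogonal nonzero idempotents below `f` -/
def Wd (f : A) (k : ℕ) : Prop :=
  ∀ (m : ℕ) (g : Fin m → A), (∀ i, g i ≠ 0) → (∀ i, g i * g i = g i) →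
    (∀ i j, i ≠ j → g i * g j = 0) → (∀ i, f * g i = g i) → (∀ i, g i * f = g i) → m ≤ k

theorem Wd.zero {f : A} (hf : f * f = f) (h : Wd f 0) : f = 0 := by
  by_contra hne
  have := h 1 (fun _ => f) (fun _ => hne) (fun _ => hf)
    (fun i j hij => absurd (Subsingleton.elim i j) hij) (fun _ => hf) (fun _ => hf)
  omega

theorem Wd.step {f e : A} {k : ℕ} (he : e * e = e) (hne : e ≠ 0) (hfe : f * e = e)
    (hef : e * f = e) (h : Wd f (k + 1)) : Wd (f - e) k := by
  intro m g h0 h1 h2 h3 h4
  have heg : ∀ i, e * g i = 0 := by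
    intro i
    rw [← h3 i, ← mul_assoc, mul_sub, hef, he, sub_self, zero_mul]
  have hge : ∀ i, g i * e = 0 := by
    intro i
    rw [← h4 i, mul_assoc, sub_mul, hfe, he, sub_self, mul_zero]
  have hfg : ∀ i, f * g i = g i := by
    intro i
    have := h3 i
    rw [sub_mul, heg, sub_zero] at this
    exact this
  have hgf : ∀ i, g i * f = g i := by
    intro i
    have := h4 i
    rw [mul_sub, hge, sub_zero] at this
    exact this
  have := h (m + 1) (Fin.cons e g) ?_ ?_ ?_ ?_ ?_
  · omega
  · intro i
    refine Fin.cases ?_ ?_ i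
    · simpa using hne
    · intro j; simpa using h0 j
  · intro i
    refine Fin.cases ?_ ?_ i
    · simpa using he
    · intro j; simpa using h1 j
  · intro i j
    refine Fin.cases ?_ ?_ i
    · refine Fin.cases ?_ ?_ j
      · intro h; exact absurd rfl h
      · intro j _; simpa using heg j
    · intro i
      refine Fin.cases ?_ ?_ j
      · intro _; simpa using hge i
      · intro j hij
        simpa using h2 i j (fun h => hij (by rw [h]))
  · intro i
    refine Fin.cases ?_ ?_ i
    · simpa using hfe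
    · intro j; simpa using hfg j
  · intro i
    refine Fin.cases ?_ ?_ i
    · simpa using hef
    · intro j; simpa using hgf j

/-- conclusion for the corner ring of `f` -/
def Good (f : A) : Prop :=
  ∀ a x c : A, f * a = a → a * f = a → f * x = x → x * f = x → f * c = c → c * f = c →
    x * a + c = f → ∃ t s : A, f * t = t ∧ t * f = t ∧ f * s = s ∧ s * f = s ∧
      s * (a + t * c) = f ∧ (a + t * c) * s = f

theorem good_zero : Good (0 : A) := by
  intro a x c ha _ hx _ hc _ _
  refine ⟨0, 0, ?_⟩
  simp at ha hc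
  simp

theorem good_step {f : A} (hf : f * f = f) {a x c c₀ : A} (hfa : f * a = a) (haf : a * f = a)
    (hcf : c * f = c)
    (h : x * a + c = f) (hc1 : a * c₀ = c₀ * a) (hc2 : (a * c₀) * (a * c₀) = a * c₀)
    (IH : Good (f - a * c₀)) :
    ∃ t s : A, f * t = t ∧ t * f = t ∧ f * s = s ∧ s * f = s ∧
      s * (a + t * c) = f ∧ (a + t * c) * s = f := by
  obtain ⟨e, he⟩ : ∃ e, e = a * c₀ := ⟨_, rfl⟩
  rw [← he] at IH hc2
  have he' : e = c₀ * a := he.trans hc1
  have hea : e * a = a * e := by
    calc e * a = (a * c₀) * a := by rw [he]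
      _ = a * (c₀ * a) := by rw [mul_assoc]
      _ = a * e := by rw [← he']
  have hfe : f * e = e := by rw [he, ← mul_assoc, hfa]
  have hef : e * f = e := by rw [he', mul_assoc, haf]
  have hec : e * c₀ = c₀ * e := by
    calc e * c₀ = (c₀ * a) * c₀ := by rw [he']
      _ = c₀ * (a * c₀) := by rw [mul_assoc]
      _ = c₀ * e := by rw [← he]
  obtain ⟨b, hb⟩ : ∃ b, b = c₀ * e := ⟨_, rfl⟩
  have hab : a * b = e := by rw [hb, ← mul_assoc, ← he, hc2]
  have hba : b * a = e := by rw [hb, mul_assoc, hea, ← mul_assoc, ← he', hc2]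
  have heb : e * b = b := by rw [hb, ← mul_assoc, hec, mul_assoc, hc2]
  have hbe : b * e = b := by rw [hb, mul_assoc, hc2]
  obtain ⟨f', hf'⟩ : ∃ f', f' = f - e := ⟨_, rfl⟩
  rw [← hf'] at IH
  have hff' : f' * f' = f' := by
    rw [hf', sub_mul, mul_sub, mul_sub, hf, hfe, hef, hc2]; simp
  have hef' : e * f' = 0 := by rw [hf', mul_sub, hef, hc2, sub_self]
  have hf'e : f' * e = 0 := by rw [hf', sub_mul, hfe, hc2, sub_self]
  have hf'f : f' * f = f' := by rw [hf', sub_mul, hf, hef]
  have hff'' : f * f' = f' := by rw [hf', mul_sub, hf, hfe]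
  have hsum : f = e + f' := by rw [hf']; abel
  have hf'a : f' * a = a * f' := by rw [hf', sub_mul, mul_sub, hfa, haf, hea]
  have ha'1 : f' * (a * f') = a * f' := by rw [← mul_assoc, hf'a, mul_assoc, hff']
  have key : (f' * x * f') * (a * f') + f' * c * f' = f' := by
    calc (f' * x * f') * (a * f') + f' * c * f'
        = f' * x * (f' * (a * f')) + f' * c * f' := by noncomm_ring
      _ = f' * x * (a * f') + f' * c * f' := by rw [ha'1]
      _ = f' * (x * a + c) * f' := by noncomm_ring
      _ = f' := by rw [h, hf'f, hff']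
  obtain ⟨t', s', ht1, ht2, hs1, hs2, hs3, hs4⟩ := IH (a * f') (f' * x * f') (f' * c * f') ha'1
    (by rw [mul_assoc, hff']) (by rw [← mul_assoc, ← mul_assoc, hff'])
    (by rw [mul_assoc, hff']) (by rw [← mul_assoc, ← mul_assoc, hff'])
    (by rw [mul_assoc, hff']) key
  obtain ⟨z, hz⟩ : ∃ z, z = t' * c * e := ⟨_, rfl⟩
  obtain ⟨u, hu⟩ : ∃ u, u = a * f' + t' * (f' * c * f') := ⟨_, rfl⟩
  rw [← hu] at hs3 hs4
  have hf'z : f' * z = z := by rw [hz, ← mul_assoc, ← mul_assoc, ht1]
  have hze : z * e = z := by rw [hz, mul_assoc, hc2]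
  have huf' : u * f' = u := by
    rw [hu, add_mul, mul_assoc, hff', mul_assoc, mul_assoc, hff']
  have hf'u : f' * u = u := by
    rw [hu, mul_add, ha'1, ← mul_assoc, ht1]
  have hes' : e * s' = 0 := by rw [← hs1, ← mul_assoc, hef', zero_mul]
  have hs'e : s' * e = 0 := by rw [← hs2, mul_assoc, hf'e, mul_zero]
  have hzs' : z * s' = 0 := by rw [← hze, mul_assoc, hes', mul_zero]
  have hub : u * b = 0 := by
    rw [← huf', ← heb, mul_assoc, ← mul_assoc f', hf'e, zero_mul, mul_zero]
  have hbz : b * z = 0 := by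
    rw [← hbe, ← hf'z, mul_assoc, ← mul_assoc e, hef', zero_mul, mul_zero]
  have hbu : b * u = 0 := by
    rw [← hbe, ← hf'u, mul_assoc, ← mul_assoc e, hef', zero_mul, mul_zero]
  have hU : a + t' * c = a * e + z + u := by
    have h1 : a = a * e + a * f' := by rw [← mul_add, ← hsum, haf]
    have h2 : t' * c = z + t' * (f' * c * f') := by
      calc t' * c = t' * (c * f) := by rw [hcf]
        _ = t' * c * e + t' * c * f' := by rw [hsum]; noncomm_ring
        _ = z + t' * f' * c * f' := by rw [← hz, ht2]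
        _ = z + t' * (f' * c * f') := by noncomm_ring
    rw [h2, hu]
    nth_rewrite 1 [h1]
    abel
  refine ⟨t', b - s' * z * b + s', ?_, ?_, ?_, ?_, ?_, ?_⟩
  · rw [← ht1, ← mul_assoc, hff'']
  · rw [← ht2, mul_assoc, hf'f]
  · have h1 : f * b = b := by rw [← heb, ← mul_assoc, hfe]
    have h2 : f * s' = s' := by rw [← hs1, ← mul_assoc, hff'']
    rw [mul_add, mul_sub, h1, ← mul_assoc, ← mul_assoc, h2]
  · have h1 : b * f = b := by rw [← hbe, mul_assoc, hef]
    have h2 : s' * f = s' := by rw [← hs2, mul_assoc, hf'f]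
    rw [add_mul, sub_mul, mul_assoc _ b f, h1, h2]
  · rw [hU]
    calc (b - s' * z * b + s') * (a * e + z + u)
        = (b * a) * e + b * z + b * u - s' * z * ((b * a) * e) - s' * z * (b * z)
          - s' * z * (b * u) + s' * (a * e) + s' * z + s' * u := by noncomm_ring
      _ = f := by
        have h3 : s' * (a * e) = 0 := by
          rw [← hea, ← mul_assoc, hs'e, zero_mul]
        rw [hba, hbz, hbu, h3, hs3, hc2, hsum, mul_assoc s' z e, hze]
        simp
  · rw [hU]
    calc (a * e + z + u) * (b - s' * z * b + s')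
        = a * (e * b) - a * (e * s') * z * b + a * (e * s') + z * b - (z * s') * z * b + z * s'
          + u * b - (u * s') * z * b + u * s' := by noncomm_ring
      _ = f := by
        rw [heb, hab, hes', hzs', hub, hs4, hf'z, hsum]
        simp

theorem good_of_wd (hF : Fit A) : ∀ (k : ℕ) (f : A), f * f = f → Wd f k → Good f := by
  intro k
  induction k with
  | zero =>
    intro f hf h
    rw [Wd.zero hf h]
    exact good_zero
  | succ k IH =>
    intro f hf hW
    by_cases hf0 : f = 0
    · rw [hf0]; exact good_zero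
    have main : ∀ a x c c₀ : A, f * a = a → a * f = a → f * x = x → x * f = x → f * c = c →
        c * f = c → x * a + c = f → a * c₀ = c₀ * a → (a * c₀) * (a * c₀) = a * c₀ →
        a * c₀ ≠ 0 → ∃ t s : A, f * t = t ∧ t * f = t ∧ f * s = s ∧ s * f = s ∧
          s * (a + t * c) = f ∧ (a + t * c) * s = f := by
      intro a x c c₀ h1 h2 _ _ _ h6 h7 h8 h9 h10
      have hfe : f * (a * c₀) = a * c₀ := by rw [← mul_assoc, h1]
      have hef : (a * c₀) * f = a * c₀ := by rw [h8, mul_assoc, h2]
      refine good_step hf h1 h2 h6 h7 h8 h9 (IH _ ?_ (Wd.step h9 h10 hfe hef hW))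
      rw [sub_mul, mul_sub, mul_sub, hf, hfe, hef, h9]; simp
    intro a x c h1 h2 h3 h4 h5 h6 h7
    obtain ⟨c₀, m, h8, h9, h10⟩ := hF a
    by_cases hne : a * c₀ = 0
    · -- `a` is nilpotent
      rw [hne, sub_zero, mul_one] at h10
      obtain ⟨c₁, m₁, k8, k9, k10⟩ := hF (a + c)
      -- a nonzero `w` with `a w = 0`
      have hw : ∃ w : A, w ≠ 0 ∧ a * w = 0 ∧ f * w = w := by
        classical
        have hex : ∃ j, a ^ j * f = 0 := ⟨m, by rw [h10, zero_mul]⟩
        have hspec := Nat.find_spec hex
        have hmin := fun {j : ℕ} (hj : j < Nat.find hex) => Nat.find_min hex hj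
        rcases Nat.eq_zero_or_pos (Nat.find hex) with h0 | hpos
        · rw [h0, pow_zero, one_mul] at hspec
          exact absurd hspec hf0
        · refine ⟨a ^ (Nat.find hex - 1) * f, hmin (by omega), ?_, ?_⟩
          · rw [← mul_assoc, ← pow_succ', Nat.sub_add_cancel hpos]
            exact hspec
          · rcases Nat.eq_zero_or_pos (Nat.find hex - 1) with h0 | hpos'
            · rw [h0, pow_zero, one_mul, hf]
            · obtain ⟨j, hj⟩ : ∃ j, Nat.find hex - 1 = j + 1 := ⟨Nat.find hex - 2, by omega⟩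
              rw [hj, pow_succ', ← mul_assoc, ← mul_assoc, h1]
      obtain ⟨w, hw0, haw, hfw⟩ := hw
      have hcw : c * w = w := by
        have := congrArg (· * w) h7
        simp only [add_mul, mul_assoc, haw, mul_zero, zero_add, hfw] at this
        exact this
      have hpw : ∀ j, (a + c) ^ j * w = w := by
        intro j
        induction j with
        | zero => simp
        | succ j ih => rw [pow_succ, mul_assoc, add_mul, haw, zero_add, hcw, ih]
      have hne1 : (a + c) * c₁ ≠ 0 := by
        intro h0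
        rw [h0, sub_zero, mul_one] at k10
        have := hpw m₁
        rw [k10, zero_mul] at this
        exact hw0 this.symm
      obtain ⟨t, s, e1, e2, e3, e4, e5, e6⟩ := main (a + c) x ((f - x) * c) c₁
        (by rw [mul_add, h1, h5]) (by rw [add_mul, h2, h6]) h3 h4
        (by rw [← mul_assoc, mul_sub, hf, h3]) (by rw [mul_assoc, h6])
        (by
          calc x * (a + c) + (f - x) * c = x * a + f * c := by noncomm_ring
            _ = f := by rw [h5, h7]) k8 k9 hne1
      have hE : a + (f + t * (f - x)) * c = a + c + t * ((f - x) * c) := by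
        calc a + (f + t * (f - x)) * c = a + f * c + t * ((f - x) * c) := by noncomm_ring
          _ = a + c + t * ((f - x) * c) := by rw [h5]
      refine ⟨f + t * (f - x), s, ?_, ?_, e3, e4, ?_, ?_⟩
      · rw [mul_add, hf, ← mul_assoc, e1]
      · rw [add_mul, hf, mul_assoc, sub_mul, hf, h4]
      · rw [hE]; exact e5
      · rw [hE]; exact e6
    · exact main a x c c₀ h1 h2 h3 h4 h5 h6 h7 h8 h9 hne

/-- stable range one -/
theorem sr_one (hF : Fit A) {k : ℕ} (hW : Wd (1 : A) k) (a x c : A) (h : x * a + c = 1) :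
    ∃ t s : A, s * (a + t * c) = 1 ∧ (a + t * c) * s = 1 := by
  obtain ⟨t, s, -, -, -, -, h5, h6⟩ := good_of_wd hF k 1 (one_mul 1) hW a x c (one_mul _)
    (mul_one _) (one_mul _) (mul_one _) (one_mul _) (mul_one _) h
  exact ⟨t, s, h5, h6⟩

end Pool.Agent.H822.PI
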