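import Mathlib
import Pool.Agent.H822.PI.SR

/-! The local property from a norm. -/

set_option autoImplicit false

namespace Pool.Agent.H822.PI

open Polynomial

theorem fit_of_monic {κ A : Type*} [Field κ] [Ring A] [Algebra κ A] (a : A) (p : κ[X])
    (hp : p.Monic) (ha : aeval a p = 0) :
    ∃ c : A, ∃ m : ℕ, a * c = c * a ∧ (a * c) * (a * c) = a * c ∧ a ^ m * (1 - a * c) = 0 := by
  have hp0 : X * p ≠ 0 := mul_ne_zero X_ne_zero hp.ne_zero
  obtain ⟨q, hq, hnd⟩ := exists_eq_pow_rootMultiplicity_mul_and_not_dvd (X * p) hp0 0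
  have hroot : (X * p).IsRoot 0 := by simp [IsRoot]
  have hpos : 0 < rootMultiplicity 0 (X * p) := (rootMultiplicity_pos hp0).2 hroot
  obtain ⟨m, hm⟩ : ∃ m, rootMultiplicity 0 (X * p) = m + 1 := ⟨_, (Nat.sub_add_cancel hpos).symm⟩
  rw [hm, C_0, sub_zero] at hq
  rw [C_0, sub_zero] at hnd
  have hcop : IsCoprime (X : κ[X]) q := (irreducible_X.coprime_iff_not_dvd).2 hnd
  obtain ⟨u, v, huv⟩ := hcop.pow_left (m := m + 1)
  have hz : aeval a (X ^ (m + 1) * q) = 0 := by rw [← hq, map_mul, ha, mul_zero]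
  have e1 : a * aeval a (u * X ^ m) = aeval a (u * X ^ (m + 1)) := by
    have h1 : u * X ^ (m + 1) = X * (u * X ^ m) := by ring
    rw [h1, map_mul (aeval a) X, aeval_X]
  refine ⟨aeval a (u * X ^ m), m + 1, ?_, ?_, ?_⟩
  · have : aeval a (X * (u * X ^ m)) = aeval a ((u * X ^ m) * X) := by rw [mul_comm]
    simpa only [map_mul, aeval_X] using this
  · rw [e1, ← map_mul]
    have : u * X ^ (m + 1) * (u * X ^ (m + 1)) = u * X ^ (m + 1) - u * v * (X ^ (m + 1) * q) := by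
      have : u * X ^ (m + 1) = 1 - v * q := by rw [← huv]; ring
      linear_combination (u * X ^ (m + 1)) * this
    rw [this, map_sub, map_mul _ (u * v), hz, mul_zero, sub_zero]
  · rw [e1]
    have e2 : a ^ (m + 1) * (1 - aeval a (u * X ^ (m + 1))) = aeval a (v * (X ^ (m + 1) * q)) := by
      have : v * (X ^ (m + 1) * q) = X ^ (m + 1) * (1 - u * X ^ (m + 1)) := by
        rw [← huv]; ring
      rw [this, map_mul (aeval a) (X ^ (m + 1)), map_pow, aeval_X, map_sub, map_one]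
    rw [e2, map_mul, hz, mul_zero]

variable {Λ T : Type*} [CommRing Λ] [Ring T] [Algebra Λ T]

/-- norm data -/
structure NormData (D : ℕ) (N : T → Λ) : Prop where
  mul : ∀ a b, N (a * b) = N a * N b
  one : N 1 = 1
  adj : ∀ t, ∃ t', t * t' = algebraMap Λ T (N t) ∧ t' * t = algebraMap Λ T (N t)
  alg : ∀ t : T, ∃ p : Λ[X], p.Monic ∧ aeval t p = 0
  cong : ∀ (𝔪 : Ideal Λ) (t t' : T), ∀ μ ∈ 𝔪, N (t + μ • t') - N t ∈ 𝔪
  diff : ∀ k, D < k → ∀ (t₀ : T) (t : Fin k → T),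
    ∑ S : Finset (Fin k), (-1) ^ S.card * N (t₀ + ∑ i ∈ S, t i) = 0

/-- the extension of an ideal of the base -/
def ext (T : Type*) [Ring T] [Algebra Λ T] (𝔪 : Ideal Λ) : Ideal T := Ideal.map (algebraMap Λ T) 𝔪

theorem ext_induction {𝔪 : Ideal Λ} {P : T → Prop} (h0 : P 0) (hadd : ∀ a b, P a → P b → P (a + b))
    (hsm : ∀ μ ∈ 𝔪, ∀ t : T, P (μ • t)) {x : T} (hx : x ∈ ext T 𝔪) : P x := by
  unfold ext Ideal.map at hx
  have : ∀ y ∈ Ideal.span ((algebraMap Λ T) '' 𝔪), P y := by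
    intro y hy
    induction hy using Submodule.span_induction with
    | mem z hz =>
      obtain ⟨μ, hμ, rfl⟩ := hz
      have := hsm μ hμ 1
      rwa [Algebra.smul_def, mul_one] at this
    | zero => exact h0
    | add a b _ _ ha hb => exact hadd a b ha hb
    | smul a y hy ih =>
      clear ih
      induction hy using Submodule.span_induction generalizing a with
      | mem z hz =>
        obtain ⟨μ, hμ, rfl⟩ := hz
        have := hsm μ hμ a
        rwa [Algebra.smul_def, Algebra.commutes] at this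
      | zero => rw [smul_zero]; exact h0
      | add x y _ _ hx hy => rw [smul_add]; exact hadd _ _ (hx a) (hy a)
      | smul b y _ ih => rw [smul_smul]; exact ih (a * b)
  exact this x hx

theorem smul_mem_ext {𝔪 : Ideal Λ} {μ : Λ} (hμ : μ ∈ 𝔪) (t : T) : μ • t ∈ ext T 𝔪 := by
  rw [Algebra.smul_def, Algebra.commutes]
  exact (ext T 𝔪).mul_mem_left t (Ideal.mem_map_of_mem _ hμ)

instance ext_twoSided (𝔪 : Ideal Λ) : (ext T 𝔪).IsTwoSided where
  mul_mem_of_left := by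
    intro a b ha
    refine ext_induction (P := fun a => a * b ∈ ext T 𝔪) ?_ ?_ ?_ ha
    · simp
    · intro x y hx hy; rw [add_mul]; exact add_mem hx hy
    · intro μ hμ t
      rw [smul_mul_assoc]
      exact smul_mem_ext hμ _

theorem NormData.congr {D : ℕ} {N : T → Λ} (h : NormData D N) {𝔪 : Ideal Λ} {x : T}
    (hx : x ∈ ext T 𝔪) : ∀ t, N (t + x) - N t ∈ 𝔪 := by
  refine ext_induction (P := fun x => ∀ t, N (t + x) - N t ∈ 𝔪) ?_ ?_ ?_ hx
  · simp
  · intro a b ha hb t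
    have := add_mem (hb (t + a)) (ha t)
    rwa [sub_add_sub_cancel, add_assoc] at this
  · intro μ hμ t' t
    exact h.cong 𝔪 t t' μ hμ

theorem NormData.congr' {D : ℕ} {N : T → Λ} (h : NormData D N) {𝔪 : Ideal Λ} {x y : T}
    (hx : x - y ∈ ext T 𝔪) : N x - N y ∈ 𝔪 := by
  have := h.congr hx y
  rwa [add_sub_cancel] at this

theorem NormData.unit {D : ℕ} {N : T → Λ} (h : NormData D N) {𝔪 : Ideal Λ} (h𝔪 : 𝔪.IsMaximal)
    {x y : T} (hxy : x * y - 1 ∈ ext T 𝔪) : N x ∉ 𝔪 := by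
  intro hx
  have h1 := h.congr' hxy
  rw [h.mul, h.one] at h1
  have h2 : (1 : Λ) ∈ 𝔪 := by
    have := sub_mem (𝔪.mul_mem_right (N y) hx) h1
    rwa [sub_sub_cancel] at this
  exact h𝔪.ne_top ((Ideal.eq_top_iff_one _).2 h2)

/-- the local property -/
def LP (Λ T : Type*) [CommRing Λ] [Ring T] [Algebra Λ T] : Prop :=
  ∀ 𝔪 : Ideal Λ, 𝔪.IsMaximal → ∀ x a c : T, x * a + c = 1 →
    ∃ t u' : T, ∃ s : Λ, s ∉ 𝔪 ∧ u' * (a + t * c) = algebraMap Λ T s ∧
      (a + t * c) * u' = algebraMap Λ T s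

theorem NormData.lp {D : ℕ} {N : T → Λ} (h : NormData D N) : LP Λ T := by
  intro 𝔪 h𝔪 x a c hxac
  let A := T ⧸ ext T 𝔪
  let π : T →+* A := Ideal.Quotient.mk (ext T 𝔪)
  have hπ : Function.Surjective π := Ideal.Quotient.mk_surjective
  have hker : ∀ t, π t = 0 ↔ t ∈ ext T 𝔪 := fun t => Ideal.Quotient.eq_zero_iff_mem
  -- the residue field acts
  let _ : Field (Λ ⧸ 𝔪) := Ideal.Quotient.field 𝔪
  let f : (Λ ⧸ 𝔪) →+* A := Ideal.Quotient.lift 𝔪 (π.comp (algebraMap Λ T)) (by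
    intro μ hμ
    rw [RingHom.comp_apply, hker]
    exact Ideal.mem_map_of_mem _ hμ)
  have hf : ∀ μ : Λ, f (Ideal.Quotient.mk 𝔪 μ) = π (algebraMap Λ T μ) := fun μ => rfl
  let _ : Algebra (Λ ⧸ 𝔪) A := RingHom.toAlgebra' f (by
    intro k y
    obtain ⟨μ, rfl⟩ := Ideal.Quotient.mk_surjective k
    obtain ⟨t, rfl⟩ := hπ y
    rw [hf, ← map_mul, ← map_mul, Algebra.commutes])
  have hfit : Fit A := by
    intro y
    obtain ⟨t, rfl⟩ := hπ y
    obtain ⟨p, hp, hpt⟩ := h.alg t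
    refine fit_of_monic (κ := Λ ⧸ 𝔪) (π t) (p.map (Ideal.Quotient.mk 𝔪)) (hp.map _) ?_
    have h1 : (algebraMap (Λ ⧸ 𝔪) A).comp (Ideal.Quotient.mk 𝔪) = π.comp (algebraMap Λ T) := rfl
    rw [aeval_def, eval₂_map, h1, ← hom_eval₂, ← aeval_def, hpt, map_zero]
  have hunit : ∀ t t' : T, π t * π t' = 1 → N t ∉ 𝔪 := by
    intro t t' htt
    refine h.unit h𝔪 (y := t') ?_
    rw [← hker, map_sub, map_mul, htt, map_one, sub_self]
  have hinv : ∀ t : T, N t ∉ 𝔪 → ∃ b : A, π t * b = 1 := by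
    intro t ht
    obtain ⟨t', h1, -⟩ := h.adj t
    have hne : Ideal.Quotient.mk 𝔪 (N t) ≠ 0 := by
      rwa [Ne, Ideal.Quotient.eq_zero_iff_mem]
    obtain ⟨r, hr⟩ := Ideal.Quotient.mk_surjective ((Ideal.Quotient.mk 𝔪 (N t))⁻¹)
    refine ⟨π t' * π (algebraMap Λ T r), ?_⟩
    rw [← mul_assoc, ← map_mul, h1, ← map_mul, ← map_mul, ← hf, map_mul, hr,
      mul_inv_cancel₀ hne, map_one]
  have hWd : Wd (1 : A) D := by
    intro k g h0 h1 h2 _ _
    by_contra hk
    push Not at hk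
    choose t ht using fun i => hπ (g i)
    obtain ⟨t₀, ht₀⟩ := hπ (1 - ∑ i, g i)
    have hd := h.diff k hk t₀ t
    have hS : ∀ S : Finset (Fin k), π (t₀ + ∑ i ∈ S, t i) = 1 - ∑ i ∈ Sᶜ, g i := by
      intro S
      rw [map_add, ht₀, map_sum, Finset.sum_congr rfl (fun i _ => ht i),
        ← Finset.sum_add_sum_compl S]
      abel
    have hz : ∀ S : Finset (Fin k), S ≠ Finset.univ → N (t₀ + ∑ i ∈ S, t i) ∈ 𝔪 := by
      intro S hSne
      by_contra hN
      obtain ⟨b, hb⟩ := hinv _ hN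
      rw [hS] at hb
      obtain ⟨j, hj⟩ : ∃ j, j ∉ S := by
        by_contra hall
        push Not at hall
        exact hSne (Finset.eq_univ_iff_forall.2 hall)
      have hj' : g j * (1 - ∑ i ∈ Sᶜ, g i) = 0 := by
        rw [mul_sub, mul_one, Finset.mul_sum, Finset.sum_eq_single j]
        · rw [h1, sub_self]
        · intro i _ hij
          exact h2 j i (Ne.symm hij)
        · intro hj2
          exact absurd (Finset.mem_compl.2 hj) hj2
      have : g j = 0 := by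
        calc g j = g j * ((1 - ∑ i ∈ Sᶜ, g i) * b) := by rw [hb, mul_one]
          _ = 0 := by rw [← mul_assoc, hj', zero_mul]
      exact h0 j this
    have hu : N (t₀ + ∑ i ∈ Finset.univ, t i) - 1 ∈ 𝔪 := by
      have := h.congr' (𝔪 := 𝔪) (x := t₀ + ∑ i ∈ Finset.univ, t i) (y := 1) (by
        rw [← hker, map_sub, hS, map_one]
        simp)
      rwa [h.one] at this
    rw [← Finset.sum_erase_add _ _ (Finset.mem_univ Finset.univ)] at hd
    have h3 : ∑ S ∈ Finset.univ.erase (Finset.univ : Finset (Fin k)),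
        (-1 : Λ) ^ S.card * N (t₀ + ∑ i ∈ S, t i) ∈ 𝔪 := by
      refine sum_mem fun S hSm => ?_
      exact 𝔪.mul_mem_left _ (hz S (Finset.ne_of_mem_erase hSm))
    have h4 : (-1 : Λ) ^ (Finset.univ : Finset (Fin k)).card *
        N (t₀ + ∑ i ∈ Finset.univ, t i) ∈ 𝔪 := by
      have := (eq_neg_of_add_eq_zero_right hd)
      rw [this]
      exact neg_mem h3
    have h5 : (-1 : Λ) ^ (Finset.univ : Finset (Fin k)).card ∈ 𝔪 := by
      have := sub_mem h4 (𝔪.mul_mem_left ((-1 : Λ) ^ (Finset.univ : Finset (Fin k)).card) hu)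
      rwa [← mul_sub, sub_sub_cancel, mul_one] at this
    have h6 : (1 : Λ) ∈ 𝔪 := by
      have := 𝔪.mul_mem_left ((-1 : Λ) ^ (Finset.univ : Finset (Fin k)).card) h5
      rwa [← mul_pow, neg_one_mul, neg_neg, one_pow] at this
    exact h𝔪.ne_top ((Ideal.eq_top_iff_one _).2 h6)
  obtain ⟨y, z, -, hyz⟩ := sr_one hfit hWd (π a) (π x) (π c) (by rw [← map_mul, ← map_add, hxac, map_one])
  obtain ⟨t, rfl⟩ := hπ y
  obtain ⟨z, rfl⟩ := hπ z
  have hN : N (a + t * c) ∉ 𝔪 := hunit _ z (by rw [map_add, map_mul]; exact hyz)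
  obtain ⟨u', h1, h2⟩ := h.adj (a + t * c)
  exact ⟨t, u', N (a + t * c), hN, h2, h1⟩

end Pool.Agent.H822.PI
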