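import Mathlib
import Pool.Agent.H822.PI.LocalH

/-! Transvections over a noncommutative ring. -/

set_option autoImplicit false

namespace Pool.Agent.H822.PI

open Matrix

variable {ι : Type*} [Fintype ι] [DecidableEq ι] {T : Type*} [Ring T]

/-- `1 + X Y` -/
def tm (X Y : ι → T) : Matrix ι ι T := 1 + vecMulVec X Y

theorem tm_mul_tm (X Y X' Y' : ι → T) :
    tm X Y * tm X' Y' = 1 + vecMulVec X Y + vecMulVec X' Y' + vecMulVec X ((Y ⬝ᵥ X') • Y') := by
  unfold tm
  rw [mul_add, add_mul, add_mul, vecMulVec_mul_vecMulVec]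
  simp only [mul_one, one_mul]
  abel

theorem tm_add_right {X Y : ι → T} (h : Y ⬝ᵥ X = 0) (Y' : ι → T) :
    tm X Y * tm X Y' = tm X (Y + Y') := by
  rw [tm_mul_tm, h, zero_smul, vecMulVec_zero, add_zero]
  unfold tm
  rw [vecMulVec_add, add_assoc]

theorem tm_add_left {X' Y : ι → T} (h : Y ⬝ᵥ X' = 0) (X : ι → T) :
    tm X Y * tm X' Y = tm (X + X') Y := by
  rw [tm_mul_tm, h, zero_smul, vecMulVec_zero, add_zero]
  unfold tm
  rw [add_vecMulVec, add_assoc]

theorem tm_zero_right (X : ι → T) : tm X 0 = 1 := by simp [tm]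

theorem tm_zero_left (Y : ι → T) : tm 0 Y = 1 := by simp [tm]

theorem tm_smul (X : ι → T) (c : T) (Y : ι → T) :
    tm X (c • Y) = tm (fun i => X i * c) Y := by
  unfold tm
  congr 1
  ext i j
  simp [vecMulVec_apply, mul_assoc]

theorem tm_single (i j : ι) (a : T) : tm (Pi.single i 1) (Pi.single j a) = 1 + single i j a := by
  unfold tm
  congr 1
  ext k l
  rw [vecMulVec_apply, single_apply]
  by_cases h1 : k = i
  · subst h1
    by_cases h2 : l = j
    · subst h2; simp
    · have : ¬ (k = k ∧ j = l) := fun h => h2 h.2.symm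
      rw [if_neg this, Pi.single_eq_of_ne h2, mul_zero]
  · have : ¬ (i = k ∧ j = l) := fun h => h1 h.1.symm
    simp [Pi.single_eq_of_ne h1, this]

theorem tm_single' (i j : ι) (a : T) : tm (Pi.single i a) (Pi.single j 1) = 1 + single i j a := by
  rw [← tm_single]
  have : (Pi.single j a : ι → T) = a • Pi.single j 1 := by
    rw [← Pi.single_smul, smul_eq_mul, mul_one]
  rw [this, tm_smul]
  congr 1
  ext k
  by_cases h : k = i
  · subst h; simp
  · simp [Pi.single_eq_of_ne h]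

/-- conjugation by an invertible matrix -/
theorem tm_conj (g : (Matrix ι ι T)ˣ) (X Y : ι → T) :
    (g : Matrix ι ι T) * tm X Y * ((g⁻¹ : (Matrix ι ι T)ˣ) : Matrix ι ι T) =
      tm ((g : Matrix ι ι T) *ᵥ X) (Y ᵥ* ((g⁻¹ : (Matrix ι ι T)ˣ) : Matrix ι ι T)) := by
  unfold tm
  rw [mul_add, add_mul, mul_one, Units.mul_inv, mul_vecMulVec, vecMulVec_mul]

theorem dot_conj (g : (Matrix ι ι T)ˣ) (X Y : ι → T) :
    (Y ᵥ* ((g⁻¹ : (Matrix ι ι T)ˣ) : Matrix ι ι T)) ⬝ᵥ ((g : Matrix ι ι T) *ᵥ X) = Y ⬝ᵥ X := by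
  rw [dotProduct_mulVec, vecMul_vecMul, Units.inv_mul, vecMul_one]

/-- the unit `1 + X Y` if `Y X = 0` -/
def tv (X Y : ι → T) (h : Y ⬝ᵥ X = 0) : (Matrix ι ι T)ˣ where
  val := tm X Y
  inv := tm X (-Y)
  val_inv := by rw [tm_add_right h, add_neg_cancel, tm_zero_right]
  inv_val := by rw [tm_add_right (by rw [neg_dotProduct, h, neg_zero]), neg_add_cancel, tm_zero_right]

@[simp] theorem tv_val (X Y : ι → T) (h : Y ⬝ᵥ X = 0) : (tv X Y h : Matrix ι ι T) = tm X Y := rfl

theorem tv_inv (X Y : ι → T) (h : Y ⬝ᵥ X = 0) :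
    (tv X Y h)⁻¹ = tv X (-Y) (by rw [neg_dotProduct, h, neg_zero]) := by
  refine inv_eq_of_mul_eq_one_right (Units.ext ?_)
  rw [Units.val_mul, tv_val, tv_val, tm_add_right h, add_neg_cancel, tm_zero_right, Units.val_one]

/-- a matrix which is the value of a member of the subgroup `H` -/
def HM (H : Subgroup (Matrix ι ι T)ˣ) (M : Matrix ι ι T) : Prop := ∃ g ∈ H, (g : Matrix ι ι T) = M

theorem HM.mul {H : Subgroup (Matrix ι ι T)ˣ} {M M' : Matrix ι ι T} (h : HM H M) (h' : HM H M') :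
    HM H (M * M') := by
  obtain ⟨g, hg, rfl⟩ := h
  obtain ⟨g', hg', rfl⟩ := h'
  exact ⟨g * g', H.mul_mem hg hg', by simp⟩

theorem HM.one (H : Subgroup (Matrix ι ι T)ˣ) : HM H 1 := ⟨1, H.one_mem, rfl⟩

theorem HM.mono {H H' : Subgroup (Matrix ι ι T)ˣ} (hle : H ≤ H') {M : Matrix ι ι T}
    (h : HM H M) : HM H' M := by
  obtain ⟨g, hg, rfl⟩ := h
  exact ⟨g, hle hg, rfl⟩

theorem HM_unit {H : Subgroup (Matrix ι ι T)ˣ} {g : (Matrix ι ι T)ˣ} :
    HM H (g : Matrix ι ι T) ↔ g ∈ H :=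
  ⟨fun ⟨g', hg', h⟩ => by rwa [← Units.ext h], fun h => ⟨g, h, rfl⟩⟩

/-- elementary matrices with entries in `S` -/
def elSet (ι : Type*) [Fintype ι] [DecidableEq ι] (S : Set T) : Set (Matrix ι ι T)ˣ :=
  {g | ∃ i j : ι, i ≠ j ∧ ∃ r ∈ S, (g : Matrix ι ι T) = 1 + single i j r}

/-- the group generated by the elementary matrices with entries in `S` -/
def El (ι : Type*) [Fintype ι] [DecidableEq ι] (S : Set T) : Subgroup (Matrix ι ι T)ˣ :=
  Subgroup.closure (elSet ι S)

theorem single_dot_single {i j : ι} (hij : i ≠ j) (a : T) :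
    (Pi.single j a : ι → T) ⬝ᵥ (Pi.single i 1 : ι → T) = 0 := by
  rw [single_dotProduct, Pi.single_eq_of_ne (Ne.symm hij), mul_zero]

/-- the elementary matrix as a unit -/
def el (i j : ι) (hij : i ≠ j) (a : T) : (Matrix ι ι T)ˣ :=
  tv (Pi.single i 1) (Pi.single j a) (single_dot_single hij a)

theorem el_val (i j : ι) (hij : i ≠ j) (a : T) :
    (el i j hij a : Matrix ι ι T) = 1 + single i j a := tm_single i j a

theorem el_inv (i j : ι) (hij : i ≠ j) (a : T) : (el i j hij a)⁻¹ = el i j hij (-a) := by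
  apply Units.ext
  unfold el
  rw [tv_inv, tv_val, tv_val, Pi.single_neg]

theorem el_mem {S : Set T} {i j : ι} (hij : i ≠ j) {a : T} (ha : a ∈ S) : el i j hij a ∈ El ι S :=
  Subgroup.subset_closure ⟨i, j, hij, a, ha, el_val i j hij a⟩

theorem El_HM {S : Set T} {i j : ι} (hij : i ≠ j) {a : T} (ha : a ∈ S) :
    HM (El ι S) (1 + single i j a) :=
  ⟨_, el_mem hij ha, el_val i j hij a⟩

theorem El_le {S : Set T} {H : Subgroup (Matrix ι ι T)ˣ}
    (h : ∀ i j : ι, i ≠ j → ∀ a ∈ S, HM H (1 + single i j a)) : El ι S ≤ H := by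
  unfold El
  rw [Subgroup.closure_le]
  rintro g ⟨i, j, hij, a, ha, hg⟩
  have := h i j hij a ha
  rw [← hg] at this
  exact HM_unit.1 this

theorem El_mono {S S' : Set T} (h : S ⊆ S') : El ι S ≤ El ι S' :=
  El_le fun _ _ hij _ ha => El_HM hij (h ha)

/-- closure of a condition under the sum of rows -/
theorem row_sum {H : Subgroup (Matrix ι ι T)ˣ} (X : ι → T) {κ : Type*} (s : Finset κ)
    (Y : κ → ι → T) (hX : ∀ k ∈ s, Y k ⬝ᵥ X = 0) (h : ∀ k ∈ s, HM H (tm X (Y k))) :
    HM H (tm X (∑ k ∈ s, Y k)) := by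
  classical
  induction s using Finset.induction_on with
  | empty => rw [Finset.sum_empty, tm_zero_right]; exact HM.one H
  | insert a s ha ih =>
    rw [Finset.sum_insert ha, ← tm_add_right (hX a (Finset.mem_insert_self a s))]
    exact (h a (Finset.mem_insert_self a s)).mul
      (ih (fun k hk => hX k (Finset.mem_insert_of_mem hk))
        (fun k hk => h k (Finset.mem_insert_of_mem hk)))

theorem col_sum {H : Subgroup (Matrix ι ι T)ˣ} (Y : ι → T) {κ : Type*} (s : Finset κ)
    (X : κ → ι → T) (hX : ∀ k ∈ s, Y ⬝ᵥ X k = 0) (h : ∀ k ∈ s, HM H (tm (X k) Y)) :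
    HM H (tm (∑ k ∈ s, X k) Y) := by
  classical
  induction s using Finset.induction_on with
  | empty => rw [Finset.sum_empty, tm_zero_left]; exact HM.one H
  | insert a s ha ih =>
    rw [Finset.sum_insert ha]
    have h1 : Y ⬝ᵥ (∑ k ∈ s, X k) = 0 := by
      rw [dotProduct_sum]
      exact Finset.sum_eq_zero fun k hk => hX k (Finset.mem_insert_of_mem hk)
    rw [← tm_add_left h1]
    exact (h a (Finset.mem_insert_self a s)).mul
      (ih (fun k hk => hX k (Finset.mem_insert_of_mem hk))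
        (fun k hk => h k (Finset.mem_insert_of_mem hk)))

theorem eq_sum_single (Y : ι → T) : Y = ∑ j, (Pi.single j (Y j) : ι → T) := by
  ext k
  rw [Finset.sum_apply]
  simp [Pi.single_apply]

/-- row transvections are elementary -/
theorem row_El {S : Set T} (h : ι) (Y : ι → T) (hh : Y h = 0)
    (hS : ∀ j, Y j ∈ S) : HM (El ι S) (tm (Pi.single h 1) Y) := by
  rw [eq_sum_single Y]
  refine row_sum _ _ _ ?_ ?_
  · intro k _
    by_cases hk : h = k
    · subst hk; rw [hh]; simp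
    · exact single_dot_single hk _
  · intro k _
    rw [tm_single]
    by_cases hk : h = k
    · subst hk; rw [hh]
      simpa using HM.one _
    · exact El_HM hk (hS k)

theorem col_El {S : Set T} (h : ι) (X : ι → T) (hh : X h = 0)
    (hS : ∀ j, X j ∈ S) : HM (El ι S) (tm X (Pi.single h 1)) := by
  rw [eq_sum_single X]
  refine col_sum _ _ _ ?_ ?_
  · intro k _
    by_cases hk : k = h
    · subst hk; rw [hh]; simp
    · rw [single_dotProduct, Pi.single_eq_of_ne (Ne.symm hk), mul_zero]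
  · intro k _
    rw [tm_single']
    by_cases hk : k = h
    · subst hk; rw [hh]
      simpa using HM.one _
    · exact El_HM hk (hS k)

/-- the commutator formula -/
theorem comm_formula {X Y : ι → T} {h : ι} (hX : X h = 0) (hY : Y h = 0) (hYX : Y ⬝ᵥ X = 0) :
    tm X (Pi.single h 1) * tm (Pi.single h 1) Y * tm X (-Pi.single h 1) *
      tm (Pi.single h 1) (-Y) = tm X Y := by
  have e1 : (Pi.single h 1 : ι → T) ⬝ᵥ X = 0 := by rw [single_dotProduct, hX, mul_zero]
  have e2 : Y ⬝ᵥ (Pi.single h 1 : ι → T) = 0 := by rw [dotProduct_single, hY, zero_mul]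
  have e3 : (Pi.single h 1 : ι → T) ⬝ᵥ (Pi.single h 1 : ι → T) = 1 := by simp
  have v1 : vecMulVec X (Pi.single h 1) * vecMulVec (Pi.single h 1) Y = vecMulVec X Y := by
    rw [vecMulVec_mul_vecMulVec, e3, one_smul]
  have v2 : vecMulVec X (Pi.single h 1) * vecMulVec X (Pi.single h 1) = 0 := by
    rw [vecMulVec_mul_vecMulVec, e1, zero_smul, vecMulVec_zero]
  have v3 : vecMulVec (Pi.single h 1) Y * vecMulVec X (Pi.single h 1) = 0 := by
    rw [vecMulVec_mul_vecMulVec, hYX, zero_smul, vecMulVec_zero]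
  have v4 : vecMulVec X Y * vecMulVec X (Pi.single h 1) = 0 := by
    rw [vecMulVec_mul_vecMulVec, hYX, zero_smul, vecMulVec_zero]
  have v5 : vecMulVec (Pi.single h 1) Y * vecMulVec (Pi.single h 1) Y = 0 := by
    rw [vecMulVec_mul_vecMulVec, e2, zero_smul, vecMulVec_zero]
  have v6 : vecMulVec X Y * vecMulVec (Pi.single h 1) Y = 0 := by
    rw [vecMulVec_mul_vecMulVec, e2, zero_smul, vecMulVec_zero]
  unfold tm
  rw [vecMulVec_neg, vecMulVec_neg]
  generalize vecMulVec X (Pi.single h 1) = a at *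
  generalize vecMulVec (Pi.single h 1) Y = b at *
  generalize vecMulVec X Y = c at *
  calc (1 + a) * (1 + b) * (1 + -a) * (1 + -b)
      = 1 + a * b - a * a - a * b * a - b * a - b * b - a * b * b + a * a * b + a * b * a * b
        + b * a * b := by noncomm_ring
    _ = 1 + c := by
      rw [v1, v2, v4, v3, v5, v6]
      simp

end Pool.Agent.H822.PI
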