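import Mathlib
import Pool.Agent.H822.PI.Trans

/-! The relative elementary group over a ring with the local property. -/

set_option autoImplicit false
set_option linter.unusedSectionVars false

namespace Pool.Agent.H822.PI

open Matrix

variable {ι : Type*} [Fintype ι] [DecidableEq ι] {T : Type*} [Ring T]

theorem HM.inv {H : Subgroup (Matrix ι ι T)ˣ} {g : (Matrix ι ι T)ˣ} (h : HM H (g : Matrix ι ι T)) :
    HM H ((g⁻¹ : (Matrix ι ι T)ˣ) : Matrix ι ι T) :=
  HM_unit.2 (H.inv_mem (HM_unit.1 h))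

theorem HM_tv {H : Subgroup (Matrix ι ι T)ˣ} {X Y : ι → T} (h : Y ⬝ᵥ X = 0) :
    HM H (tm X Y) ↔ tv X Y h ∈ H := by
  rw [← HM_unit, tv_val]

/-- the generators of the auxiliary group -/
def q0Set (ι : Type*) [Fintype ι] [DecidableEq ι] (𝔟 : Ideal T) : Set (Matrix ι ι T)ˣ :=
  {g | ∃ X w : ι → T, ∃ b ∈ 𝔟, w ⬝ᵥ X = 0 ∧ (∃ h, X h = 0 ∧ w h = 0) ∧
    (g : Matrix ι ι T) = tm X (b • w)}

/-- the auxiliary group -/
def Q0 (ι : Type*) [Fintype ι] [DecidableEq ι] (𝔟 : Ideal T) : Subgroup (Matrix ι ι T)ˣ :=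
  Subgroup.closure (q0Set ι 𝔟)

theorem smul_dot (b : T) {w X : ι → T} (h : w ⬝ᵥ X = 0) : (b • w) ⬝ᵥ X = 0 := by
  rw [smul_dotProduct, h, smul_zero]

theorem Q0_gen {𝔟 : Ideal T} {X w : ι → T} {b : T} (hb : b ∈ 𝔟) (hwX : w ⬝ᵥ X = 0) (h : ι)
    (h1 : X h = 0) (h2 : w h = 0) : HM (Q0 ι 𝔟) (tm X (b • w)) := by
  rw [HM_tv (smul_dot b hwX)]
  exact Subgroup.subset_closure ⟨X, w, b, hb, hwX, ⟨h, h1, h2⟩, rfl⟩

theorem exists_third (hc : 3 ≤ Fintype.card ι) (i j : ι) : ∃ h, h ≠ i ∧ h ≠ j := by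
  by_contra hcon
  push Not at hcon
  have : (Finset.univ : Finset ι) ⊆ {i, j} := by
    intro h _
    rw [Finset.mem_insert, Finset.mem_singleton]
    by_cases h1 : h = i
    · exact Or.inl h1
    · exact Or.inr (hcon h h1)
  have h2 := Finset.card_le_card this
  have h3 := Finset.card_le_two (a := i) (b := j)
  rw [Finset.card_univ] at h2
  omega

theorem single_dot {j : ι} (a : T) (X : ι → T) : (Pi.single j a : ι → T) ⬝ᵥ X = a * X j :=
  single_dotProduct _ _ _

variable (hc : 3 ≤ Fintype.card ι)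
include hc

theorem El_le_Q0 (𝔟 : Ideal T) : El ι (𝔟 : Set T) ≤ Q0 ι 𝔟 := by
  refine El_le fun i j hij a ha => ?_
  obtain ⟨h, hi, hj⟩ := exists_third hc i j
  rw [← tm_single]
  have h1 : (Pi.single j a : ι → T) = a • Pi.single j 1 := by
    rw [← Pi.single_smul, smul_eq_mul, mul_one]
  rw [h1]
  refine Q0_gen ha ?_ h ?_ ?_
  · exact single_dot_single hij 1
  · exact Pi.single_eq_of_ne hi _
  · exact Pi.single_eq_of_ne hj _

theorem L0 {𝔟 : Ideal T} [𝔟.IsTwoSided] {v r : ι → T} {b : T} (hb : b ∈ 𝔟) {h : ι} (hr : r h = 0)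
    (hrv : r ⬝ᵥ v = 0) : HM (Q0 ι 𝔟) (tm v (b • r)) := by
  have hv : v = Function.update v h 0 + Pi.single h (v h) := by
    ext k
    by_cases hk : k = h
    · subst hk; simp
    · simp [hk]
  have h1 : r ⬝ᵥ (Pi.single h (v h) : ι → T) = 0 := by rw [dotProduct_single, hr, zero_mul]
  have h2 : r ⬝ᵥ Function.update v h 0 = 0 := by
    rw [hv, dotProduct_add, h1, add_zero] at hrv
    exact hrv
  rw [hv, ← tm_add_left (smul_dot b h1)]
  refine HM.mul ?_ ?_
  · exact Q0_gen hb h2 h (by simp) hr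
  · have h3 : (Pi.single h (v h) : ι → T) = fun i => (Pi.single h 1 : ι → T) i * v h := by
      ext k
      by_cases hk : k = h
      · subst hk; simp
      · simp [hk]
    rw [h3, ← tm_smul, smul_smul]
    refine HM.mono (El_le_Q0 hc 𝔟) (row_El h _ ?_ ?_)
    · rw [Pi.smul_apply, hr, smul_zero]
    · intro j
      rw [Pi.smul_apply, smul_eq_mul]
      exact 𝔟.mul_mem_right _ (𝔟.mul_mem_left _ hb)

theorem L0' {𝔟 : Ideal T} [𝔟.IsTwoSided] {v r : ι → T} {b : T} (hb : b ∈ 𝔟) {h : ι} (hv : v h = 0)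
    (hrv : r ⬝ᵥ v = 0) : HM (Q0 ι 𝔟) (tm v (b • r)) := by
  have hr : r = Function.update r h 0 + Pi.single h (r h) := by
    ext k
    by_cases hk : k = h
    · subst hk; simp
    · simp [hk]
  have h1 : (Pi.single h (r h) : ι → T) ⬝ᵥ v = 0 := by rw [single_dot, hv, mul_zero]
  have h2 : Function.update r h 0 ⬝ᵥ v = 0 := by
    rw [hr, add_dotProduct, h1, add_zero] at hrv
    exact hrv
  rw [hr, smul_add, ← tm_add_right (smul_dot b h2)]
  refine HM.mul ?_ ?_
  · exact Q0_gen hb h2 h hv (by simp)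
  · have h3 : (b • Pi.single h (r h) : ι → T) = (b * r h) • Pi.single h 1 := by
      rw [← Pi.single_smul, ← Pi.single_smul, smul_eq_mul, smul_eq_mul, mul_one]
    rw [h3, tm_smul]
    refine HM.mono (El_le_Q0 hc 𝔟) (col_El h _ ?_ ?_)
    · simp [hv]
    · intro j
      exact 𝔟.mul_mem_left _ (𝔟.mul_mem_right _ hb)

/-- conjugation by elementary matrices preserves `Q0` -/
theorem Q0_conj {𝔟 : Ideal T} [𝔟.IsTwoSided] {g : (Matrix ι ι T)ˣ} (hg : g ∈ El ι (Set.univ : Set T))
    {q : (Matrix ι ι T)ˣ} (hq : q ∈ Q0 ι 𝔟) : g * q * g⁻¹ ∈ Q0 ι 𝔟 := by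
  have key : ∀ (k l : ι) (hkl : k ≠ l) (a : T), ∀ q ∈ Q0 ι 𝔟,
      el k l hkl a * q * (el k l hkl a)⁻¹ ∈ Q0 ι 𝔟 := by
    intro k l hkl a q hq
    induction hq using Subgroup.closure_induction with
    | mem x hx =>
      obtain ⟨X, w, b, hb, hwX, ⟨h, h1, h2⟩, hx⟩ := hx
      rw [← HM_unit, Units.val_mul, Units.val_mul, hx, tm_conj, smul_vecMul]
      have hdot := dot_conj (el k l hkl a) X w
      rw [hwX] at hdot
      have e1 : ((el k l hkl a : (Matrix ι ι T)ˣ) : Matrix ι ι T) *ᵥ X =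
          X + Pi.single k (a * X l) := by
        rw [el_val, add_mulVec, one_mulVec]
        congr 1
        ext m
        rw [mulVec, dotProduct]
        by_cases hm : m = k
        · subst hm
          rw [Finset.sum_eq_single l]
          · simp
          · intro c _ hcl
            rw [single_apply_of_col_ne _ _ (Ne.symm hcl), zero_mul]
          · simp
        · rw [Pi.single_eq_of_ne hm]
          refine Finset.sum_eq_zero fun c _ => ?_
          rw [single_apply_of_row_ne (Ne.symm hm), zero_mul]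
      have e2 : w ᵥ* (((el k l hkl a)⁻¹ : (Matrix ι ι T)ˣ) : Matrix ι ι T) =
          w + Pi.single l (w k * (-a)) := by
        rw [el_inv, el_val, vecMul_add, vecMul_one]
        congr 1
        ext m
        rw [vecMul, dotProduct]
        by_cases hm : m = l
        · subst hm
          rw [Finset.sum_eq_single k]
          · simp
          · intro c _ hcl
            rw [single_apply_of_row_ne (Ne.symm hcl), mul_zero]
          · simp
        · rw [Pi.single_eq_of_ne hm]
          refine Finset.sum_eq_zero fun c _ => ?_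
          rw [single_apply_of_col_ne _ _ (Ne.symm hm), mul_zero]
      rw [e1, e2] at hdot ⊢
      by_cases hk : h = k
      · refine L0 hc hb (h := h) ?_ hdot
        rw [Pi.add_apply, h2, hk, Pi.single_eq_of_ne hkl, add_zero]
      · refine L0' hc hb (h := h) ?_ hdot
        rw [Pi.add_apply, h1, Pi.single_eq_of_ne hk, add_zero]
    | one => simp
    | mul x y _ _ hx hy =>
      have := (Q0 ι 𝔟).mul_mem hx hy
      rwa [conj_mul] at this
    | inv x _ hx =>
      have := (Q0 ι 𝔟).inv_mem hx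
      rwa [conj_inv] at this
  induction hg using Subgroup.closure_induction'' generalizing q with
  | mem x hx =>
    obtain ⟨k, l, hkl, a, -, hx⟩ := hx
    have : x = el k l hkl a := Units.ext (by rw [hx, el_val])
    rw [this]
    exact key k l hkl a q hq
  | inv_mem x hx =>
    obtain ⟨k, l, hkl, a, -, hx⟩ := hx
    have : x = el k l hkl a := Units.ext (by rw [hx, el_val])
    rw [this, el_inv]
    exact key k l hkl (-a) q hq
  | one => simpa using hq
  | mul x y _ _ hx hy =>
    have := hx (hy hq)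
    simpa [mul_assoc] using this

end Pool.Agent.H822.PI
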