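import Mathlib
import Pool.Agent.H822.PI.QGroup

/-! Normality of the auxiliary group under the local property. -/

set_option autoImplicit false
set_option linter.unusedSectionVars false

namespace Pool.Agent.H822.PI

open Matrix

variable {ι : Type*} [Fintype ι] [DecidableEq ι] {T : Type*} [Ring T]

/-- the rows orthogonal to a column -/
def rr (v : ι → T) (s u : T) (i k : ι) : ι → T := s • Pi.single k 1 + (-(v k * u)) • Pi.single i 1

theorem rr_dot {v : ι → T} {s u : T} {i k : ι} (hs : ∀ x : T, s * x = x * s) (h1 : u * v i = s) :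
    rr v s u i k ⬝ᵥ v = 0 := by
  unfold rr
  rw [add_dotProduct, smul_dotProduct, smul_dotProduct, single_dot, single_dot, one_mul, one_mul,
    smul_eq_mul, smul_eq_mul, neg_mul, mul_assoc, h1, hs, add_neg_cancel]

theorem rr_zero {v : ι → T} {s u : T} {i k h : ι} (hi : h ≠ i) (hk : h ≠ k) :
    rr v s u i k h = 0 := by
  unfold rr
  simp [Pi.single_eq_of_ne hi, Pi.single_eq_of_ne hk]

theorem rr_sum {v w : ι → T} {s u b : T} {i : ι} (hs : ∀ x : T, s * x = x * s) (h2 : v i * u = s)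
    (hwv : w ⬝ᵥ v = 0) : ∑ k ∈ Finset.univ.erase i, (b * w k) • rr v s u i k = (s * b) • w := by
  ext m
  rw [Finset.sum_apply, Pi.smul_apply, smul_eq_mul]
  have hsum : ∑ k ∈ Finset.univ.erase i, w k * v k = - (w i * v i) := by
    rw [eq_neg_iff_add_eq_zero, Finset.sum_erase_add _ _ (Finset.mem_univ i)]
    exact hwv
  by_cases hm : m = i
  · subst hm
    have : ∀ k ∈ Finset.univ.erase m, ((b * w k) • rr v s u m k) m = - (b * (w k * v k) * u) := by
      intro k hk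
      have hne := Finset.ne_of_mem_erase hk
      simp only [rr, Pi.smul_apply, Pi.add_apply, smul_eq_mul, Pi.single_eq_same,
        Pi.single_eq_of_ne (Ne.symm hne), mul_zero, zero_add, mul_one, mul_neg, mul_assoc]
    rw [Finset.sum_congr rfl this, Finset.sum_neg_distrib, ← Finset.sum_mul, ← Finset.mul_sum,
      hsum, mul_neg, neg_mul, neg_neg, mul_assoc, mul_assoc, h2, hs b, mul_assoc, hs (w m)]
  · rw [Finset.sum_eq_single m]
    · simp only [rr, Pi.smul_apply, Pi.add_apply, smul_eq_mul, Pi.single_eq_same,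
        Pi.single_eq_of_ne hm, mul_zero, add_zero, mul_one]
      rw [← hs, mul_assoc]
    · intro k _ hkm
      simp only [rr, Pi.smul_apply, Pi.add_apply, smul_eq_mul, Pi.single_eq_of_ne hm,
        Pi.single_eq_of_ne (Ne.symm hkm), mul_zero, add_zero]
    · intro hcon
      exact absurd (Finset.mem_erase.2 ⟨hm, Finset.mem_univ m⟩) hcon

theorem L1 (hc : 3 ≤ Fintype.card ι) {𝔟 : Ideal T} [𝔟.IsTwoSided] {v w : ι → T} {s u b : T} {i : ι}
    (hs : ∀ x : T, s * x = x * s) (h1 : u * v i = s) (h2 : v i * u = s) (hwv : w ⬝ᵥ v = 0)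
    (hb : b ∈ 𝔟) : HM (Q0 ι 𝔟) (tm v ((s * b) • w)) := by
  rw [← rr_sum hs h2 hwv]
  refine row_sum v _ _ ?_ ?_
  · intro k _
    exact smul_dot _ (rr_dot hs h1)
  · intro k _
    obtain ⟨h, hi, hk⟩ := exists_third hc i k
    exact L0 hc (𝔟.mul_mem_right _ hb) (rr_zero hi hk) (rr_dot hs h1)

variable {Λ : Type*} [CommRing Λ] [Algebra Λ T]

theorem row_El' (S : Set T) (i : ι) (Y : ι → T) (hh : Y i = 0) (hS : ∀ j, Y j ∈ S) :
    ∃ e ∈ El ι S, (e : Matrix ι ι T) = tm (Pi.single i 1) Y := row_El i Y hh hS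

theorem tm_mulVec (X Y v : ι → T) : tm X Y *ᵥ v = v + fun k => X k * (Y ⬝ᵥ v) := by
  unfold tm
  rw [add_mulVec, one_mulVec, vecMulVec_mulVec]
  rfl

/-- an ideal of the centre which lies in no maximal ideal contains one -/
theorem one_of_local {P : Λ → Prop} (h0 : P 0) (hadd : ∀ s s', P s → P s' → P (s + s'))
    (hmul : ∀ l s, P s → P (l * s)) (hloc : ∀ 𝔪 : Ideal Λ, 𝔪.IsMaximal → ∃ s, s ∉ 𝔪 ∧ P s) :
    P 1 := by
  let I : Ideal Λ :=
    { carrier := {s | P s}
      add_mem' := fun {a b} ha hb => hadd a b ha hb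
      zero_mem' := h0
      smul_mem' := fun l s hs => hmul l s hs }
  have hI : I = ⊤ := by
    by_contra hne
    obtain ⟨𝔪, h𝔪, hle⟩ := Ideal.exists_le_maximal I hne
    obtain ⟨s, hs, hP⟩ := hloc 𝔪 h𝔪
    exact hs (hle hP)
  have : (1 : Λ) ∈ I := by rw [hI]; exact Submodule.mem_top
  exact this

/-- statement (A) -/
theorem partA (hc : 3 ≤ Fintype.card ι) (hLP : LP Λ T) {𝔟 : Ideal T} [𝔟.IsTwoSided]
    {v w w' : ι → T} (h1 : w' ⬝ᵥ v = 1) (hwv : w ⬝ᵥ v = 0) {b : T} (hb : b ∈ 𝔟) :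
    HM (Q0 ι 𝔟) (tm v (b • w)) := by
  have hcard : 0 < Fintype.card ι := by omega
  obtain ⟨i⟩ : Nonempty ι := Fintype.card_pos_iff.1 hcard
  have main : ∀ b ∈ 𝔟, HM (Q0 ι 𝔟) (tm v ((algebraMap Λ T 1 * b) • w)) := by
    refine one_of_local (P := fun s => ∀ b ∈ 𝔟, HM (Q0 ι 𝔟) (tm v ((algebraMap Λ T s * b) • w)))
      ?_ ?_ ?_ ?_
    · intro b _
      rw [map_zero, zero_mul, zero_smul, tm_zero_right]
      exact HM.one _
    · intro s s' hs hs' b hb
      have := (hs b hb).mul (hs' b hb)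
      rw [tm_add_right (smul_dot _ hwv)] at this
      rw [map_add, add_mul, add_smul]
      exact this
    · intro l s hs b hb
      have := hs (algebraMap Λ T l * b) (𝔟.mul_mem_left _ hb)
      have h2 : algebraMap Λ T s * (algebraMap Λ T l * b) = algebraMap Λ T (l * s) * b := by
        rw [← mul_assoc, ← map_mul, mul_comm]
      rwa [h2] at this
    · intro 𝔪 h𝔪
      have hsum : w' i * v i + ∑ k ∈ Finset.univ.erase i, w' k * v k = 1 := by
        rw [add_comm, Finset.sum_erase_add _ _ (Finset.mem_univ i)]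
        exact h1
      obtain ⟨t, u, s, hs, hu1, hu2⟩ := hLP 𝔪 h𝔪 _ _ _ hsum
      refine ⟨s, hs, ?_⟩
      intro b hb
      -- the elementary matrix
      obtain ⟨e, he, hev⟩ := row_El' (Set.univ : Set T) i (Function.update (t • w') i 0)
        (by simp) (fun _ => Set.mem_univ _)
      have hev1 : (e : Matrix ι ι T) *ᵥ v = v + Pi.single i
          (t * ∑ k ∈ Finset.univ.erase i, w' k * v k) := by
        rw [hev, tm_mulVec]
        congr 1
        ext m
        have h3 : Function.update (t • w') i 0 ⬝ᵥ v = t * ∑ k ∈ Finset.univ.erase i, w' k * v k := by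
          rw [dotProduct, ← Finset.sum_erase_add _ _ (Finset.mem_univ i), Function.update_self,
            zero_mul, add_zero, Finset.mul_sum]
          refine Finset.sum_congr rfl fun k hk => ?_
          rw [Function.update_of_ne (Finset.ne_of_mem_erase hk), Pi.smul_apply, smul_eq_mul,
            mul_assoc]
        rw [h3]
        by_cases hm : m = i
        · subst hm; simp
        · simp [Pi.single_eq_of_ne hm]
      have hvi : ((e : Matrix ι ι T) *ᵥ v) i = v i + t * ∑ k ∈ Finset.univ.erase i, w' k * v k := by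
        rw [hev1, Pi.add_apply, Pi.single_eq_same]
      have hdot := dot_conj e v w
      rw [hwv] at hdot
      have hL := L1 hc (𝔟 := 𝔟) (v := (e : Matrix ι ι T) *ᵥ v)
        (w := w ᵥ* ((e⁻¹ : (Matrix ι ι T)ˣ) : Matrix ι ι T)) (s := algebraMap Λ T s) (u := u) (b := b)
        (i := i) (fun x => Algebra.commutes s x) (by rw [hvi]; exact hu1) (by rw [hvi]; exact hu2)
        hdot hb
      rw [← smul_vecMul, ← tm_conj, ← tv_val v _ (smul_dot _ hwv), ← Units.val_mul,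
        ← Units.val_mul, HM_unit] at hL
      have := Q0_conj hc (inv_mem he) hL
      rw [HM_tv (smul_dot _ hwv)]
      simpa [mul_assoc] using this
  have := main b hb
  rwa [map_one, one_mul] at this

theorem dot_self (g : (Matrix ι ι T)ˣ) (i j : ι) (a b : T) :
    (Pi.single j b ᵥ* ((g⁻¹ : (Matrix ι ι T)ˣ) : Matrix ι ι T)) ⬝ᵥ
      ((g : Matrix ι ι T) *ᵥ Pi.single i a) = (Pi.single j b : ι → T) ⬝ᵥ (Pi.single i a) :=
  dot_conj g _ _

/-- the normal closure of the elementary matrices with entries in the ideal -/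
def QG (ι : Type*) [Fintype ι] [DecidableEq ι] (𝔟 : Ideal T) : Subgroup (Matrix ι ι T)ˣ :=
  Subgroup.normalClosure (elSet ι (𝔟 : Set T))

instance QG_normal (𝔟 : Ideal T) : (QG ι 𝔟).Normal := Subgroup.normalClosure_normal

theorem El_le_QG (𝔟 : Ideal T) : El ι (𝔟 : Set T) ≤ QG ι 𝔟 :=
  Subgroup.closure_le_normalClosure

theorem el_conj (g : (Matrix ι ι T)ˣ) {i j : ι} (hij : i ≠ j) (a : T) :
    ((g * el i j hij a * g⁻¹ : (Matrix ι ι T)ˣ) : Matrix ι ι T) =
      tm ((g : Matrix ι ι T) *ᵥ Pi.single i 1)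
        (a • (Pi.single j 1 ᵥ* ((g⁻¹ : (Matrix ι ι T)ˣ) : Matrix ι ι T))) := by
  have h1 : (Pi.single j a : ι → T) = a • Pi.single j 1 := by
    rw [← Pi.single_smul, smul_eq_mul, mul_one]
  rw [Units.val_mul, Units.val_mul]
  unfold el
  rw [tv_val, tm_conj, h1, smul_vecMul]

theorem QG_le_Q0 (hc : 3 ≤ Fintype.card ι) (hLP : LP Λ T) (𝔟 : Ideal T) [𝔟.IsTwoSided] :
    QG ι 𝔟 ≤ Q0 ι 𝔟 := by
  unfold QG Subgroup.normalClosure
  rw [Subgroup.closure_le]
  intro x hx
  rw [Group.mem_conjugatesOfSet_iff] at hx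
  obtain ⟨y, ⟨i, j, hij, a, ha, hy⟩, hconj⟩ := hx
  obtain ⟨g, rfl⟩ := isConj_iff.1 hconj
  have : y = el i j hij a := Units.ext (by rw [hy, el_val])
  rw [this]
  change _ ∈ Q0 ι 𝔟
  rw [← HM_unit, el_conj]
  refine partA hc hLP (w' := Pi.single i 1 ᵥ* ((g⁻¹ : (Matrix ι ι T)ˣ) : Matrix ι ι T)) ?_ ?_ ha
  · rw [dot_conj]; simp
  · rw [dot_conj]; exact single_dot_single hij 1

theorem conj_mem_QG {𝔟 : Ideal T} {q : (Matrix ι ι T)ˣ} (hq : q ∈ QG ι 𝔟) (g : (Matrix ι ι T)ˣ) :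
    g * q * g⁻¹ ∈ QG ι 𝔟 := (QG_normal 𝔟).conj_mem q hq g

theorem Q0_le_QG (𝔟 : Ideal T) [𝔟.IsTwoSided] : Q0 ι 𝔟 ≤ QG ι 𝔟 := by
  unfold Q0
  rw [Subgroup.closure_le]
  rintro g ⟨X, w, b, hb, hwX, ⟨h, h1, h2⟩, hg⟩
  obtain ⟨p, hp, hpv⟩ := col_El (S := (𝔟 : Set T)) h (fun i => X i * b)
    (by simp [h1]) (fun j => 𝔟.mul_mem_left _ hb)
  have hp' := El_le_QG 𝔟 hp
  have e1 : (Pi.single h 1 : ι → T) ⬝ᵥ (fun i => X i * b) = 0 := by
    rw [single_dot]; simp [h1]
  have e2 : w ⬝ᵥ (Pi.single h 1 : ι → T) = 0 := by rw [dotProduct_single, h2, zero_mul]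
  have e3 : w ⬝ᵥ (fun i => X i * b) = 0 := by
    have : w ⬝ᵥ (fun i => X i * b) = (w ⬝ᵥ X) * b := by
      rw [dotProduct, dotProduct, Finset.sum_mul]
      exact Finset.sum_congr rfl fun k _ => by rw [mul_assoc]
    rw [this, hwX, zero_mul]
  have hpe : p = tv (fun i => X i * b) (Pi.single h 1) e1 := Units.ext (by rw [hpv, tv_val])
  have key : g = p * (tv (Pi.single h 1) w e2 * p⁻¹ * (tv (Pi.single h 1) w e2)⁻¹) := by
    apply Units.ext
    rw [hg, hpe, tm_smul, tv_inv, tv_inv]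
    simp only [Units.val_mul, tv_val]
    rw [← comm_formula (X := fun i => X i * b) (Y := w) (h := h) (by simp [h1]) h2 e3]
    simp only [mul_assoc]
  change g ∈ QG ι 𝔟
  rw [key]
  exact mul_mem hp' (conj_mem_QG (inv_mem hp') _)

/-- the auxiliary group of a product ideal is elementary -/
theorem Q0_le_El {𝔟 𝔞 : Ideal T} [𝔞.IsTwoSided]
    (hprod : ∀ b ∈ 𝔟, b ∈ AddSubgroup.closure {x : T | ∃ a₁ ∈ 𝔞, ∃ a₂ ∈ 𝔞, x = a₁ * a₂}) :
    Q0 ι 𝔟 ≤ El ι (𝔞 : Set T) := by
  unfold Q0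
  rw [Subgroup.closure_le]
  rintro g ⟨X, w, b, hb, hwX, ⟨h, h1, h2⟩, hg⟩
  change g ∈ El ι (𝔞 : Set T)
  rw [← HM_unit, hg]
  have hb' := hprod b hb
  clear hb hg
  induction hb' using AddSubgroup.closure_induction with
  | mem x hx =>
    obtain ⟨a₁, ha₁, a₂, ha₂, rfl⟩ := hx
    have e3 : (a₂ • w) ⬝ᵥ (fun i => X i * a₁) = 0 := by
      have : w ⬝ᵥ (fun i => X i * a₁) = (w ⬝ᵥ X) * a₁ := by
        rw [dotProduct, dotProduct, Finset.sum_mul]
        exact Finset.sum_congr rfl fun k _ => by rw [mul_assoc]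
      rw [smul_dotProduct, this, hwX, zero_mul, smul_zero]
    rw [← smul_smul, tm_smul, ← comm_formula (X := fun i => X i * a₁) (Y := a₂ • w) (h := h)
      (by simp [h1]) (by simp [h2]) e3]
    have c1 : HM (El ι (𝔞 : Set T)) (tm (fun i => X i * a₁) (Pi.single h 1)) :=
      col_El h _ (by simp [h1]) (fun j => 𝔞.mul_mem_left _ ha₁)
    have c2 : HM (El ι (𝔞 : Set T)) (tm (Pi.single h 1) (a₂ • w)) :=
      row_El h _ (by simp [h2]) (fun j => 𝔞.mul_mem_right _ ha₂)
    have e1 : (Pi.single h 1 : ι → T) ⬝ᵥ (fun i => X i * a₁) = 0 := by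
      rw [single_dot]; simp [h1]
    have e2 : (a₂ • w) ⬝ᵥ (Pi.single h 1 : ι → T) = 0 := by
      rw [dotProduct_single, Pi.smul_apply, h2, smul_zero, zero_mul]
    have c3 : HM (El ι (𝔞 : Set T)) (tm (fun i => X i * a₁) (-Pi.single h 1)) := by
      rw [HM_tv e1] at c1
      rw [HM_tv (by rw [neg_dotProduct, e1, neg_zero]), ← tv_inv _ _ e1]
      exact inv_mem c1
    have c4 : HM (El ι (𝔞 : Set T)) (tm (Pi.single h 1) (-(a₂ • w))) := by
      rw [HM_tv e2] at c2
      rw [HM_tv (by rw [neg_dotProduct, e2, neg_zero]), ← tv_inv _ _ e2]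
      exact inv_mem c2
    exact ((c1.mul c2).mul c3).mul c4
  | zero => rw [zero_smul, tm_zero_right]; exact HM.one _
  | add x y _ _ hx hy =>
    have := hx.mul hy
    rw [tm_add_right (smul_dot _ hwX)] at this
    rwa [add_smul]
  | neg x _ hx =>
    rw [HM_tv (smul_dot _ hwX)] at hx
    rw [neg_smul, HM_tv (by rw [neg_dotProduct, smul_dot _ hwX, neg_zero]),
      ← tv_inv _ _ (smul_dot _ hwX)]
    exact inv_mem hx

end Pool.Agent.H822.PI
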