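import Mathlib
import Pool.Agent.H822.PI.QNorm

/-! Commutators of elementary matrices with matrices congruent to one. -/

set_option autoImplicit false
set_option linter.unusedSectionVars false

namespace Pool.Agent.H822.PI

open Matrix

variable {ι : Type*} [Fintype ι] [DecidableEq ι] {T : Type*} [Ring T]

theorem tv_add_right {X Y Y' : ι → T} (h : Y ⬝ᵥ X = 0) (h' : Y' ⬝ᵥ X = 0)
    (h'' : (Y + Y') ⬝ᵥ X = 0) : tv X (Y + Y') h'' = tv X Y h * tv X Y' h' := by
  apply Units.ext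
  rw [Units.val_mul, tv_val, tv_val, tv_val, tm_add_right h]

theorem tv_add_left {X X' Y : ι → T} (h : Y ⬝ᵥ X = 0) (h' : Y ⬝ᵥ X' = 0)
    (h'' : Y ⬝ᵥ (X + X') = 0) : tv (X + X') Y h'' = tv X Y h * tv X' Y h' := by
  apply Units.ext
  rw [Units.val_mul, tv_val, tv_val, tv_val, tm_add_left h']

theorem tv_comm {X Y : ι → T} {h : ι} (hX : X h = 0) (hY : Y h = 0) (hYX : Y ⬝ᵥ X = 0)
    (e1 : (Pi.single h 1 : ι → T) ⬝ᵥ X = 0) (e2 : Y ⬝ᵥ (Pi.single h 1 : ι → T) = 0) :
    tv X Y hYX = tv X (Pi.single h 1) e1 * tv (Pi.single h 1) Y e2 *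
      (tv X (Pi.single h 1) e1)⁻¹ * (tv (Pi.single h 1) Y e2)⁻¹ := by
  apply Units.ext
  rw [tv_inv, tv_inv]
  simp only [Units.val_mul, tv_val]
  rw [comm_formula hX hY hYX]

theorem tv_smul_left {X Y : ι → T} {c : T} (h : (c • Y) ⬝ᵥ X = 0)
    (h' : Y ⬝ᵥ (fun i => X i * c) = 0) : tv X (c • Y) h = tv (fun i => X i * c) Y h' := by
  apply Units.ext
  rw [tv_val, tv_val, tm_smul]

theorem smul_single_one (j : ι) (a : T) : (Pi.single j a : ι → T) = a • Pi.single j 1 := by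
  rw [← Pi.single_smul, smul_eq_mul, mul_one]

theorem single_split (v : ι → T) (h : ι) : v = Function.update v h 0 + Pi.single h (v h) := by
  ext k
  by_cases hk : k = h
  · subst hk; simp
  · simp [hk]

theorem dot_rmul {w X : ι → T} (b : T) (h : w ⬝ᵥ X = 0) : w ⬝ᵥ (fun i => X i * b) = 0 := by
  have : w ⬝ᵥ (fun i => X i * b) = (w ⬝ᵥ X) * b := by
    rw [dotProduct, dotProduct, Finset.sum_mul]
    exact Finset.sum_congr rfl fun k _ => by rw [mul_assoc]
  rw [this, h, zero_mul]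

section

variable (𝔟 : Ideal T) [𝔟.IsTwoSided]

/-- reduction modulo the normal closure -/
abbrev pq : (Matrix ι ι T)ˣ →* (Matrix ι ι T)ˣ ⧸ QG ι 𝔟 := QuotientGroup.mk' (QG ι 𝔟)

theorem pq_one {g : (Matrix ι ι T)ˣ} : pq 𝔟 g = 1 ↔ g ∈ QG ι 𝔟 :=
  QuotientGroup.eq_one_iff g

end

theorem pq_tv {𝔟 : Ideal T} [𝔟.IsTwoSided] {X Y : ι → T} (h : Y ⬝ᵥ X = 0)
    (hH : HM (Q0 ι 𝔟) (tm X Y)) : pq 𝔟 (tv X Y h) = 1 := by
  rw [pq_one]
  exact Q0_le_QG 𝔟 ((HM_tv h).1 hH)

theorem pq_tv' {𝔟 : Ideal T} [𝔟.IsTwoSided] {X Y : ι → T} (h : Y ⬝ᵥ X = 0)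
    (hH : HM (El ι (𝔟 : Set T)) (tm X Y)) : pq 𝔟 (tv X Y h) = 1 := by
  rw [pq_one]
  exact El_le_QG 𝔟 ((HM_tv h).1 hH)


theorem L2core {𝔟 : Ideal T} [𝔟.IsTwoSided] {v r : ι → T} {c : T} {i j h : ι} (hij : i ≠ j)
    (hhi : h ≠ i) (hhj : h ≠ j) (hrh : r h = 0)
    (hv : ∀ k, v k - (Pi.single i 1 : ι → T) k ∈ 𝔟) (hr : ∀ k, r k - (Pi.single j c : ι → T) k ∈ 𝔟)
    (hdot : r ⬝ᵥ v = 0) :
    pq 𝔟 (tv v r hdot) = pq 𝔟 (el i j hij c) := by
  have hvh : v h ∈ 𝔟 := by
    have := hv h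
    rwa [Pi.single_eq_of_ne hhi, sub_zero] at this
  have hc1 : r ⬝ᵥ (Pi.single h (v h) : ι → T) = 0 := by
    rw [dotProduct_single, hrh, zero_mul]
  have hc2 : r ⬝ᵥ Function.update v h 0 = 0 := by
    have := hdot
    rwa [single_split v h, dotProduct_add, hc1, add_zero] at this
  have s1 : tv v r hdot = tv (Function.update v h 0) r hc2 * tv (Pi.single h (v h)) r hc1 := by
    rw [← tv_add_left hc2 hc1 (by rw [← single_split]; exact hdot)]
    congr 1
    exact single_split v h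
  have s2 : pq 𝔟 (tv (Pi.single h (v h)) r hc1) = 1 := by
    refine pq_tv' _ ?_
    have h3 : (Pi.single h (v h) : ι → T) = fun i => (Pi.single h 1 : ι → T) i * v h := by
      ext k
      by_cases hk : k = h
      · subst hk; simp
      · simp [hk]
    rw [h3, ← tm_smul]
    refine row_El h _ ?_ ?_
    · rw [Pi.smul_apply, hrh, smul_zero]
    · intro j
      rw [Pi.smul_apply, smul_eq_mul]
      exact 𝔟.mul_mem_right _ hvh
  have e1 : (Pi.single h 1 : ι → T) ⬝ᵥ Function.update v h 0 = 0 := by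
    rw [single_dot]; simp
  have e2 : r ⬝ᵥ (Pi.single h 1 : ι → T) = 0 := by rw [dotProduct_single, hrh, zero_mul]
  have s3 := tv_comm (X := Function.update v h 0) (Y := r) (h := h) (by simp) hrh hc2 e1 e2
  -- the first factor
  have f1 : (Pi.single h 1 : ι → T) ⬝ᵥ (Pi.single i 1 : ι → T) = 0 := single_dot_single (Ne.symm hhi) 1
  have f2 : (Pi.single h 1 : ι → T) ⬝ᵥ (Function.update v h 0 - Pi.single i 1) = 0 := by
    rw [dotProduct_sub, e1, f1, sub_zero]
  have s4 : tv (Function.update v h 0) (Pi.single h 1) e1 =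
      tv (Pi.single i 1) (Pi.single h 1) f1 *
        tv (Function.update v h 0 - Pi.single i 1) (Pi.single h 1) f2 := by
    rw [← tv_add_left f1 f2 (by rw [add_sub_cancel]; exact e1)]
    congr 1
    rw [add_sub_cancel]
  have s5 : pq 𝔟 (tv (Function.update v h 0 - Pi.single i 1) (Pi.single h 1) f2) = 1 := by
    refine pq_tv' _ (col_El h _ ?_ ?_)
    · rw [Pi.sub_apply, Function.update_self, Pi.single_eq_of_ne hhi, sub_zero]
    · intro k
      rw [Pi.sub_apply]
      by_cases hk : k = h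
      · rw [hk, Function.update_self, Pi.single_eq_of_ne hhi, sub_zero]
        exact zero_mem 𝔟
      · rw [Function.update_of_ne hk]
        exact hv k
  -- the second factor
  have g1 : (Pi.single j c : ι → T) ⬝ᵥ (Pi.single h 1 : ι → T) = 0 := single_dot_single hhj c
  have g2 : (r - Pi.single j c) ⬝ᵥ (Pi.single h 1 : ι → T) = 0 := by
    rw [sub_dotProduct, e2, g1, sub_zero]
  have s6 : tv (Pi.single h 1) r e2 = tv (Pi.single h 1) (Pi.single j c) g1 *
      tv (Pi.single h 1) (r - Pi.single j c) g2 := by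
    rw [← tv_add_right g1 g2 (by rw [add_sub_cancel]; exact e2)]
    congr 1
    rw [add_sub_cancel]
  have s7 : pq 𝔟 (tv (Pi.single h 1) (r - Pi.single j c) g2) = 1 := by
    refine pq_tv' _ (row_El h _ ?_ (fun k => hr k))
    rw [Pi.sub_apply, hrh, Pi.single_eq_of_ne hhj, sub_zero]
  have g3 : (Pi.single j c : ι → T) ⬝ᵥ (Pi.single i 1 : ι → T) = 0 := single_dot_single hij c
  have s8 := tv_comm (X := (Pi.single i 1 : ι → T)) (Y := (Pi.single j c : ι → T)) (h := h)
    (Pi.single_eq_of_ne hhi _) (Pi.single_eq_of_ne hhj _) g3 f1 g1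
  rw [s1, map_mul, s2, mul_one, s3, s4, s6]
  simp only [map_mul, map_inv, s5, s7, mul_one]
  unfold el
  rw [s8]
  simp only [map_mul, map_inv]

/-- the core of statement (B) -/
theorem L2 (hc : 3 ≤ Fintype.card ι) {𝔟 : Ideal T} [𝔟.IsTwoSided] {v w : ι → T} {s u a : T}
    {i j : ι} (hij : i ≠ j)
    (hs : ∀ x : T, s * x = x * s) (h1 : u * v i = s) (h2 : v i * u = s) (hwv : w ⬝ᵥ v = 0)
    (hv : ∀ k, v k - (Pi.single i 1 : ι → T) k ∈ 𝔟) (hw : ∀ k, w k - (Pi.single j 1 : ι → T) k ∈ 𝔟)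
    (hdot : ((s * a) • w) ⬝ᵥ v = 0) :
    pq 𝔟 (tv v ((s * a) • w) hdot) = pq 𝔟 (el i j hij (s * a)) := by
  obtain ⟨h, hhi, hhj⟩ := exists_third hc i j
  have hr : ∀ k, rr v s u i k ⬝ᵥ v = 0 := fun k => rr_dot hs h1
  have hsplit : (s * a) • w = (∑ k ∈ (Finset.univ.erase i).erase j, (a * w k) • rr v s u i k) +
      ((a * (w j - 1)) • rr v s u i j + a • rr v s u i j) := by
    rw [← rr_sum hs h2 hwv, ← Finset.sum_erase_add _ _
      (Finset.mem_erase.2 ⟨Ne.symm hij, Finset.mem_univ j⟩)]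
    congr 1
    rw [← add_smul]
    congr 1
    rw [mul_sub, mul_one, sub_add_cancel]
  have hd1 : (∑ k ∈ (Finset.univ.erase i).erase j, (a * w k) • rr v s u i k) ⬝ᵥ v = 0 := by
    rw [sum_dotProduct]
    exact Finset.sum_eq_zero fun k _ => smul_dot _ (hr k)
  have hd2 : ((a * (w j - 1)) • rr v s u i j) ⬝ᵥ v = 0 := smul_dot _ (hr j)
  have hd3 : (a • rr v s u i j) ⬝ᵥ v = 0 := smul_dot _ (hr j)
  have hd4 : ((a * (w j - 1)) • rr v s u i j + a • rr v s u i j) ⬝ᵥ v = 0 := by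
    rw [add_dotProduct, hd2, hd3, add_zero]
  have E1 : pq 𝔟 (tv v _ hd1) = 1 := by
    refine pq_tv _ (row_sum v _ _ (fun k _ => smul_dot _ (hr k)) ?_)
    intro k hk
    have hkj : k ≠ j := Finset.ne_of_mem_erase hk
    have hwk := hw k
    rw [Pi.single_eq_of_ne hkj, sub_zero] at hwk
    obtain ⟨h', hi', hk'⟩ := exists_third hc i k
    exact L0 hc (𝔟.mul_mem_left _ hwk) (rr_zero hi' hk') (hr k)
  have E2 : pq 𝔟 (tv v _ hd2) = 1 := by
    refine pq_tv _ (L0 hc (𝔟.mul_mem_left _ ?_) (rr_zero hhi hhj) (hr j))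
    have := hw j
    rwa [Pi.single_eq_same] at this
  have hred : pq 𝔟 (tv v ((s * a) • w) hdot) = pq 𝔟 (tv v (a • rr v s u i j) hd3) := by
    have : tv v ((s * a) • w) hdot = tv v _ hd1 * (tv v _ hd2 * tv v _ hd3) := by
      rw [← tv_add_right hd2 hd3 hd4, ← tv_add_right hd1 hd4 (by rw [← hsplit]; exact hdot)]
      congr 1
    rw [this, map_mul, map_mul, E1, E2, one_mul, one_mul]
  rw [hred]
  have hvk : ∀ k, k ≠ i → v k ∈ 𝔟 := by
    intro k hk
    have := hv k
    rwa [Pi.single_eq_of_ne hk, sub_zero] at this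
  refine L2core (c := s * a) hij hhi hhj ?_ hv ?_ hd3
  · rw [Pi.smul_apply, rr_zero hhi hhj, smul_zero]
  · intro k
    by_cases hki : k = i
    · subst hki
      rw [Pi.single_eq_of_ne hij, sub_zero]
      simp only [rr, Pi.smul_apply, Pi.add_apply, smul_eq_mul, Pi.single_eq_same,
        Pi.single_eq_of_ne hij, mul_zero, zero_add, mul_one]
      exact 𝔟.mul_mem_left _ (neg_mem (𝔟.mul_mem_right _ (hvk j (Ne.symm hij))))
    · by_cases hkj : k = j
      · subst hkj
        simp only [rr, Pi.smul_apply, Pi.add_apply, smul_eq_mul, Pi.single_eq_same,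
          Pi.single_eq_of_ne hki, mul_zero, add_zero, mul_one]
        rw [hs, sub_self]
        exact zero_mem 𝔟
      · simp only [rr, Pi.smul_apply, Pi.add_apply, smul_eq_mul, 
          Pi.single_eq_of_ne hki, Pi.single_eq_of_ne hkj, mul_zero, add_zero, sub_zero]
        exact zero_mem 𝔟

variable {Λ : Type*} [CommRing Λ] [Algebra Λ T]

/-- statement (B) for one elementary matrix -/
theorem partB (hc : 3 ≤ Fintype.card ι) (hLP : LP Λ T) {𝔟 : Ideal T} [𝔟.IsTwoSided]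
    {v w w' : ι → T} {i j : ι} (hij : i ≠ j) (h1 : w' ⬝ᵥ v = 1) (hwv : w ⬝ᵥ v = 0)
    (hv : ∀ k, v k - (Pi.single i 1 : ι → T) k ∈ 𝔟) (hw : ∀ k, w k - (Pi.single j 1 : ι → T) k ∈ 𝔟)
    (a : T) (hdot : (a • w) ⬝ᵥ v = 0) :
    pq 𝔟 (tv v (a • w) hdot) = pq 𝔟 (el i j hij a) := by
  have hvk : ∀ k, k ≠ i → v k ∈ 𝔟 := by
    intro k hk
    have := hv k
    rwa [Pi.single_eq_of_ne hk, sub_zero] at this
  have main : ∀ a : T, pq 𝔟 (tv v ((algebraMap Λ T 1 * a) • w) (smul_dot _ hwv)) =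
      pq 𝔟 (el i j hij (algebraMap Λ T 1 * a)) := by
    refine one_of_local (P := fun s => ∀ a : T, pq 𝔟 (tv v ((algebraMap Λ T s * a) • w)
      (smul_dot _ hwv)) = pq 𝔟 (el i j hij (algebraMap Λ T s * a))) ?_ ?_ ?_ ?_
    · intro a
      have e1 : el i j hij (algebraMap Λ T 0 * a) = 1 := by
        apply Units.ext
        rw [el_val]
        simp
      have e2 : tv v ((algebraMap Λ T 0 * a) • w) (smul_dot _ hwv) = 1 := by
        apply Units.ext
        rw [tv_val, map_zero, zero_mul, zero_smul, tm_zero_right, Units.val_one]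
      rw [e1, e2]
    · intro s s' hs hs' a
      have e1 : el i j hij (algebraMap Λ T (s + s') * a) =
          el i j hij (algebraMap Λ T s * a) * el i j hij (algebraMap Λ T s' * a) := by
        unfold el
        rw [← tv_add_right _ _ (by rw [← Pi.single_add]; exact single_dot_single hij _)]
        congr 1
        rw [← Pi.single_add, map_add, add_mul]
      have e2 : tv v ((algebraMap Λ T (s + s') * a) • w) (smul_dot _ hwv) =
          tv v ((algebraMap Λ T s * a) • w) (smul_dot _ hwv) *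
            tv v ((algebraMap Λ T s' * a) • w) (smul_dot _ hwv) := by
        rw [← tv_add_right _ _ (by rw [← add_smul]; exact smul_dot _ hwv)]
        congr 1
        rw [← add_smul, map_add, add_mul]
      rw [e1, e2, map_mul, map_mul, hs, hs']
    · intro l s hs a
      have := hs (algebraMap Λ T l * a)
      have h2 : algebraMap Λ T s * (algebraMap Λ T l * a) = algebraMap Λ T (l * s) * a := by
        rw [← mul_assoc, ← map_mul, mul_comm]
      simp only [h2] at this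
      exact this
    · intro 𝔪 h𝔪
      obtain ⟨c, hcdef⟩ : ∃ c, c = ∑ k ∈ Finset.univ.erase i, w' k * v k := ⟨_, rfl⟩
      have hcb : c ∈ 𝔟 := by
        rw [hcdef]
        exact Ideal.sum_mem 𝔟 fun k hk => 𝔟.mul_mem_left _ (hvk k (Finset.ne_of_mem_erase hk))
      have hsum : w' i * v i + c = 1 := by
        rw [hcdef, add_comm, Finset.sum_erase_add _ _ (Finset.mem_univ i)]
        exact h1
      have hsum2 : (w' i + c * w' i) * v i + c * c = 1 := by
        calc (w' i + c * w' i) * v i + c * c = w' i * v i + c * (w' i * v i + c) := by noncomm_ring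
          _ = 1 := by rw [hsum, mul_one, hsum]
      obtain ⟨t, u, s, hs, hu1, hu2⟩ := hLP 𝔪 h𝔪 _ _ _ hsum2
      refine ⟨s, hs, ?_⟩
      intro a
      -- the elementary matrix
      obtain ⟨e, he, hev⟩ := row_El (S := (𝔟 : Set T)) i (Function.update ((t * c) • w') i 0)
        (by simp) (fun k => by
          by_cases hk : k = i
          · rw [hk, Function.update_self]; exact zero_mem 𝔟
          · rw [Function.update_of_ne hk, Pi.smul_apply, smul_eq_mul]
            exact 𝔟.mul_mem_right _ (𝔟.mul_mem_left _ hcb))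
      have heQ : pq 𝔟 e = 1 := (pq_one 𝔟).2 (El_le_QG 𝔟 he)
      have hev1 : (e : Matrix ι ι T) *ᵥ v = v + Pi.single i (t * (c * c)) := by
        rw [hev, tm_mulVec]
        congr 1
        ext m
        have h3 : Function.update ((t * c) • w') i 0 ⬝ᵥ v = t * (c * c) := by
          have h4 : ∑ k ∈ Finset.univ.erase i, Function.update ((t * c) • w') i 0 k * v k =
              (t * c) * ∑ k ∈ Finset.univ.erase i, w' k * v k := by
            rw [Finset.mul_sum]
            refine Finset.sum_congr rfl fun k hk => ?_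
            rw [Function.update_of_ne (Finset.ne_of_mem_erase hk), Pi.smul_apply, smul_eq_mul,
              mul_assoc]
          rw [dotProduct, ← Finset.sum_erase_add _ _ (Finset.mem_univ i), Function.update_self,
            zero_mul, add_zero, h4, ← hcdef, mul_assoc]
        rw [h3]
        by_cases hm : m = i
        · subst hm; simp
        · simp [Pi.single_eq_of_ne hm]
      have hvi : ((e : Matrix ι ι T) *ᵥ v) i = v i + t * (c * c) := by
        rw [hev1, Pi.add_apply, Pi.single_eq_same]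
      have hvc : ∀ k, ((e : Matrix ι ι T) *ᵥ v) k - (Pi.single i 1 : ι → T) k ∈ 𝔟 := by
        intro k
        rw [hev1, Pi.add_apply, add_sub_right_comm]
        refine add_mem (hv k) ?_
        by_cases hk : k = i
        · subst hk
          rw [Pi.single_eq_same]
          exact 𝔟.mul_mem_left _ (𝔟.mul_mem_left _ hcb)
        · rw [Pi.single_eq_of_ne hk]
          exact zero_mem 𝔟
      have hwc : ∀ k, (w ᵥ* ((e⁻¹ : (Matrix ι ι T)ˣ) : Matrix ι ι T)) k -
          (Pi.single j 1 : ι → T) k ∈ 𝔟 := by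
        have hinv : ((e⁻¹ : (Matrix ι ι T)ˣ) : Matrix ι ι T) =
            tm (Pi.single i 1) (-Function.update ((t * c) • w') i 0) := by
          have e2 : Function.update ((t * c) • w') i 0 ⬝ᵥ (Pi.single i 1 : ι → T) = 0 := by
            rw [dotProduct_single, Function.update_self, zero_mul]
          have : e = tv _ _ e2 := Units.ext (by rw [hev, tv_val])
          rw [this, tv_inv, tv_val]
        intro k
        rw [hinv]
        unfold tm
        rw [vecMul_add, vecMul_one, vecMul_vecMulVec, Pi.add_apply, add_sub_right_comm]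
        refine add_mem (hw k) ?_
        rw [Pi.smul_apply, Pi.neg_apply, smul_eq_mul]
        refine 𝔟.mul_mem_left _ (neg_mem ?_)
        by_cases hk : k = i
        · rw [hk, Function.update_self]; exact zero_mem 𝔟
        · rw [Function.update_of_ne hk, Pi.smul_apply, smul_eq_mul]
          exact 𝔟.mul_mem_right _ (𝔟.mul_mem_left _ hcb)
      have hdot1 := dot_conj e v w
      rw [hwv] at hdot1
      have hL := L2 hc (𝔟 := 𝔟) (v := (e : Matrix ι ι T) *ᵥ v)
        (w := w ᵥ* ((e⁻¹ : (Matrix ι ι T)ˣ) : Matrix ι ι T)) (s := algebraMap Λ T s) (u := u)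
        (a := a) hij (fun x => Algebra.commutes s x) (by rw [hvi]; exact hu1)
        (by rw [hvi]; exact hu2) hdot1 hvc hwc (smul_dot _ hdot1)
      rw [← hL]
      have : tv ((e : Matrix ι ι T) *ᵥ v) ((algebraMap Λ T s * a) •
          (w ᵥ* ((e⁻¹ : (Matrix ι ι T)ˣ) : Matrix ι ι T))) (smul_dot _ hdot1) =
          e * tv v ((algebraMap Λ T s * a) • w) (smul_dot _ hwv) * e⁻¹ := by
        apply Units.ext
        rw [Units.val_mul, Units.val_mul, tv_val, tv_val, tm_conj, smul_vecMul]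
      rw [this, map_mul, map_mul, map_inv, heQ]
      simp
  have := main a
  simp only [map_one, one_mul] at this
  exact this

/-- congruence of matrices modulo an ideal -/
def Cg (𝔟 : Ideal T) (g : (Matrix ι ι T)ˣ) : Prop :=
  ∀ k l, (g : Matrix ι ι T) k l - (1 : Matrix ι ι T) k l ∈ 𝔟

theorem Cg.inv {𝔟 : Ideal T} {g : (Matrix ι ι T)ˣ} (h : Cg 𝔟 g) : Cg 𝔟 g⁻¹ := by
  intro k l
  have : ((g⁻¹ : (Matrix ι ι T)ˣ) : Matrix ι ι T) - 1 =
      ((g⁻¹ : (Matrix ι ι T)ˣ) : Matrix ι ι T) * (-((g : Matrix ι ι T) - 1)) := by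
    rw [neg_sub, mul_sub, mul_one, Units.inv_mul]
  have h2 := congrFun (congrFun this k) l
  rw [Matrix.sub_apply] at h2
  rw [h2, mul_apply]
  refine sum_mem fun m _ => 𝔟.mul_mem_left _ ?_
  rw [Matrix.neg_apply, Matrix.sub_apply]
  exact neg_mem (h m l)

/-- statement (B) from the case of elementary matrices -/
theorem comm_of_key {𝔟 : Ideal T} [𝔟.IsTwoSided] {g : (Matrix ι ι T)ˣ}
    (key : ∀ (i j : ι) (hij : i ≠ j) (a : T),
      pq 𝔟 (g * el i j hij a * g⁻¹) = pq 𝔟 (el i j hij a))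
    {e : (Matrix ι ι T)ˣ} (he : e ∈ El ι (Set.univ : Set T)) :
    g * e * g⁻¹ * e⁻¹ ∈ QG ι 𝔟 := by
  have hcomm : ∀ e ∈ El ι (Set.univ : Set T), pq 𝔟 g * pq 𝔟 e = pq 𝔟 e * pq 𝔟 g := by
    intro e he
    induction he using Subgroup.closure_induction with
    | mem x hx =>
      obtain ⟨k, l, hkl, a, -, hx⟩ := hx
      have hxe : x = el k l hkl a := Units.ext (by rw [hx, el_val])
      have := key k l hkl a
      rw [← hxe, map_mul, map_mul, map_inv] at this
      exact mul_inv_eq_iff_eq_mul.1 this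
    | one => simp
    | mul x y _ _ hx hy => rw [map_mul, ← mul_assoc, hx, mul_assoc, hy, mul_assoc]
    | inv x _ hx =>
      rw [map_inv]
      exact (Commute.inv_right (a := pq 𝔟 g) (b := pq 𝔟 x) hx)
  rw [← pq_one, map_mul, map_mul, map_mul, map_inv, map_inv, hcomm e he]
  group

theorem Cg.col {𝔟 : Ideal T} {g : (Matrix ι ι T)ˣ} (hg : Cg 𝔟 g) (i k : ι) :
    ((g : Matrix ι ι T) *ᵥ Pi.single i 1) k - (Pi.single i 1 : ι → T) k ∈ 𝔟 := by
  have h3 := hg k i
  have h4 : ((g : Matrix ι ι T) *ᵥ Pi.single i 1) k = (g : Matrix ι ι T) k i := by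
    rw [mulVec_single_one]; rfl
  rw [h4]
  by_cases hk : k = i
  · subst hk; rw [Pi.single_eq_same]; rwa [one_apply_eq] at h3
  · rw [Pi.single_eq_of_ne hk]; rwa [one_apply_ne hk] at h3

theorem Cg.row {𝔟 : Ideal T} {g : (Matrix ι ι T)ˣ} (hg : Cg 𝔟 g) (j k : ι) :
    (Pi.single j 1 ᵥ* ((g⁻¹ : (Matrix ι ι T)ˣ) : Matrix ι ι T)) k - (Pi.single j 1 : ι → T) k ∈ 𝔟 := by
  have h3 := hg.inv j k
  have h4 : (Pi.single j 1 ᵥ* ((g⁻¹ : (Matrix ι ι T)ˣ) : Matrix ι ι T)) k =
      ((g⁻¹ : (Matrix ι ι T)ˣ) : Matrix ι ι T) j k := by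
    rw [single_one_vecMul]; rfl
  rw [h4]
  by_cases hk : k = j
  · subst hk; rw [Pi.single_eq_same]; rwa [one_apply_eq] at h3
  · rw [Pi.single_eq_of_ne hk]; rwa [one_apply_ne (Ne.symm hk)] at h3

theorem conj_dot (g : (Matrix ι ι T)ˣ) {i j : ι} (hij : i ≠ j) (a : T) :
    (a • (Pi.single j 1 ᵥ* ((g⁻¹ : (Matrix ι ι T)ˣ) : Matrix ι ι T))) ⬝ᵥ
      ((g : Matrix ι ι T) *ᵥ Pi.single i 1) = 0 := by
  rw [smul_dotProduct, dot_conj, single_dot_single hij 1, smul_zero]

theorem el_conj' (g : (Matrix ι ι T)ˣ) {i j : ι} (hij : i ≠ j) (a : T) :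
    g * el i j hij a * g⁻¹ = tv _ _ (conj_dot g hij a) := by
  apply Units.ext
  rw [el_conj, tv_val]

/-- statement (B) -/
theorem comm_mem_QG (hc : 3 ≤ Fintype.card ι) (hLP : LP Λ T) {𝔟 : Ideal T} [𝔟.IsTwoSided]
    {g : (Matrix ι ι T)ˣ} (hg : Cg 𝔟 g) {e : (Matrix ι ι T)ˣ} (he : e ∈ El ι (Set.univ : Set T)) :
    g * e * g⁻¹ * e⁻¹ ∈ QG ι 𝔟 := by
  refine comm_of_key ?_ he
  intro i j hij a
  rw [el_conj']
  refine partB hc hLP (w' := Pi.single i 1 ᵥ* ((g⁻¹ : (Matrix ι ι T)ˣ) : Matrix ι ι T)) hij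
    ?_ ?_ (hg.col i) (hg.row j) a _
  · rw [dot_conj]; simp
  · rw [dot_conj]; exact single_dot_single hij 1

/-- statement (B) for an ideal inside the Jacobson radical -/
theorem comm_mem_QG_jac (hc : 3 ≤ Fintype.card ι) {𝔟 : Ideal T} [𝔟.IsTwoSided]
    (hJ : ∀ x ∈ 𝔟, IsUnit (1 + x)) {g : (Matrix ι ι T)ˣ} (hg : Cg 𝔟 g) {e : (Matrix ι ι T)ˣ}
    (he : e ∈ El ι (Set.univ : Set T)) : g * e * g⁻¹ * e⁻¹ ∈ QG ι 𝔟 := by
  refine comm_of_key ?_ he
  intro i j hij a
  rw [el_conj']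
  obtain ⟨u, hu⟩ := hJ _ (hg.col i i)
  rw [Pi.single_eq_same, add_sub_cancel] at hu
  have hwv : (Pi.single j 1 ᵥ* ((g⁻¹ : (Matrix ι ι T)ˣ) : Matrix ι ι T)) ⬝ᵥ
      ((g : Matrix ι ι T) *ᵥ Pi.single i 1) = 0 := by
    rw [dot_conj]; exact single_dot_single hij 1
  have := L2 hc (𝔟 := 𝔟) (v := (g : Matrix ι ι T) *ᵥ Pi.single i 1)
    (w := Pi.single j 1 ᵥ* ((g⁻¹ : (Matrix ι ι T)ˣ) : Matrix ι ι T)) (s := 1)
    (u := ((u⁻¹ : Tˣ) : T)) (a := a) hij (fun x => by rw [one_mul, mul_one])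
    (by rw [← hu, Units.inv_mul]) (by rw [← hu, Units.mul_inv]) hwv (hg.col i) (hg.row j)
    (smul_dot _ hwv)
  simp only [one_mul] at this
  exact this

end Pool.Agent.H822.PI
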