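import Mathlib
import Pool.Agent.H822.PI.QComm

/-! The Jacobson radical case. -/

set_option autoImplicit false
set_option linter.unusedSectionVars false

namespace Pool.Agent.H822.PI

open Matrix

variable {ι : Type*} [Fintype ι] [DecidableEq ι] {T : Type*} [Ring T]

/-- the full elementary group -/
abbrev EE (ι : Type*) [Fintype ι] [DecidableEq ι] (T : Type*) [Ring T] :
    Subgroup (Matrix ι ι T)ˣ := El ι (Set.univ : Set T)

/-- a diagonal unit -/
def dl (k : ι) (u : Tˣ) : (Matrix ι ι T)ˣ where
  val := 1 + single k k ((u : T) - 1)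
  inv := 1 + single k k (((u⁻¹ : Tˣ) : T) - 1)
  val_inv := by
    rw [mul_add, add_mul, add_mul, single_mul_single_same, mul_one, one_mul, mul_one, add_assoc,
      ← single_add, ← single_add]
    have : (u : T) - 1 + (((u⁻¹ : Tˣ) : T) - 1 + ((u : T) - 1) * (((u⁻¹ : Tˣ) : T) - 1)) = 0 := by
      calc (u : T) - 1 + (((u⁻¹ : Tˣ) : T) - 1 + ((u : T) - 1) * (((u⁻¹ : Tˣ) : T) - 1))
          = (u : T) * ((u⁻¹ : Tˣ) : T) - 1 := by noncomm_ring
        _ = 0 := by rw [Units.mul_inv, sub_self]
    rw [this, single_zero, add_zero]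
  inv_val := by
    rw [mul_add, add_mul, add_mul, single_mul_single_same, mul_one, one_mul, mul_one, add_assoc,
      ← single_add, ← single_add]
    have : ((u⁻¹ : Tˣ) : T) - 1 + ((u : T) - 1 + (((u⁻¹ : Tˣ) : T) - 1) * ((u : T) - 1)) = 0 := by
      calc ((u⁻¹ : Tˣ) : T) - 1 + ((u : T) - 1 + (((u⁻¹ : Tˣ) : T) - 1) * ((u : T) - 1))
          = ((u⁻¹ : Tˣ) : T) * (u : T) - 1 := by noncomm_ring
        _ = 0 := by rw [Units.inv_mul, sub_self]
    rw [this, single_zero, add_zero]

theorem dl_val (k : ι) (u : Tˣ) : (dl k u : Matrix ι ι T) = 1 + single k k ((u : T) - 1) := rfl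

theorem dl_vi (k : ι) (u : Tˣ) : (1 + single k k ((u : T) - 1) : Matrix ι ι T) *
    (1 + single k k (((u⁻¹ : Tˣ) : T) - 1)) = 1 := (dl k u).val_inv

theorem dl_inv (k : ι) (u : Tˣ) : (dl k u)⁻¹ = dl k u⁻¹ := by
  refine inv_eq_of_mul_eq_one_right (Units.ext ?_)
  exact (dl k u).val_inv

theorem dl_mul (k : ι) (u v : Tˣ) : dl k (u * v) = dl k u * dl k v := by
  apply Units.ext
  rw [Units.val_mul, dl_val, dl_val, dl_val, mul_add, add_mul, add_mul, single_mul_single_same]
  simp only [mul_one, one_mul]
  rw [add_assoc, ← single_add, ← single_add, Units.val_mul]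
  congr 2
  noncomm_ring

theorem dl_one (k : ι) : dl k (1 : Tˣ) = 1 := by
  apply Units.ext
  rw [dl_val]; simp

theorem dl_mulVec (m : ι) (u : Tˣ) (k : ι) (a : T) : (dl m u : Matrix ι ι T) *ᵥ Pi.single k a =
    Pi.single k (if k = m then (u : T) * a else a) := by
  rw [dl_val, add_mulVec, one_mulVec]
  ext l
  rw [Pi.add_apply]
  have : (single m m ((u : T) - 1) *ᵥ Pi.single k a) l = if k = m ∧ l = m then ((u : T) - 1) * a else 0 := by
    rw [mulVec_single]
    by_cases hk : k = m
    · subst hk
      by_cases hl : l = k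
      · subst hl; simp
      · simp [hl, Ne.symm hl]
    · simp [hk, Ne.symm hk]
  rw [this]
  by_cases hk : k = m
  · subst hk
    by_cases hl : l = k
    · subst hl; simp [sub_mul]
    · simp [hl]
  · simp [hk]

theorem dl_conj (m : ι) (u : Tˣ) (i j : ι) (hij : i ≠ j) (a : T) :
    ∃ b, dl m u * el i j hij a * (dl m u)⁻¹ = el i j hij b := by
  refine ⟨(if i = m then (u : T) else 1) * a * (if j = m then ((u⁻¹ : Tˣ) : T) else 1), ?_⟩
  apply Units.ext
  rw [dl_inv, Units.val_mul, Units.val_mul, el_val, el_val, dl_val, dl_val]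
  by_cases him : i = m
  · subst him
    rw [if_pos rfl, if_neg (Ne.symm hij), mul_one]
    have e1 : (1 + single i i ((u : T) - 1)) * (1 + single i j a) * (1 + single i i (((u⁻¹ : Tˣ) : T) - 1))
        = (1 + single i i ((u : T) - 1)) * (1 + single i i (((u⁻¹ : Tˣ) : T) - 1)) +
          single i j a + single i i ((u : T) - 1) * single i j a +
          (single i j a * single i i (((u⁻¹ : Tˣ) : T) - 1)) +
          single i i ((u : T) - 1) * (single i j a * single i i (((u⁻¹ : Tˣ) : T) - 1)) := by
      noncomm_ring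
    rw [e1, dl_vi, single_mul_single_same, single_mul_single_of_ne _ _ _ _ (Ne.symm hij),
      mul_zero, add_zero, add_zero, add_assoc, ← single_add]
    congr 2
    noncomm_ring
  · rw [if_neg him, one_mul]
    by_cases hjm : j = m
    · subst hjm
      rw [if_pos rfl]
      have e1 : (1 + single j j ((u : T) - 1)) * (1 + single i j a) * (1 + single j j (((u⁻¹ : Tˣ) : T) - 1))
          = (1 + single j j ((u : T) - 1)) * (1 + single j j (((u⁻¹ : Tˣ) : T) - 1)) +
            single i j a + single i j a * single j j (((u⁻¹ : Tˣ) : T) - 1) +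
            (single j j ((u : T) - 1) * single i j a) +
            (single j j ((u : T) - 1) * single i j a) * single j j (((u⁻¹ : Tˣ) : T) - 1) := by
        noncomm_ring
      rw [e1, dl_vi, single_mul_single_same, single_mul_single_of_ne _ _ _ _ (Ne.symm hij),
        zero_mul, add_zero, add_zero, add_assoc, ← single_add]
      congr 2
      noncomm_ring
    · rw [if_neg hjm, mul_one]
      have e1 : (1 + single m m ((u : T) - 1)) * (1 + single i j a) * (1 + single m m (((u⁻¹ : Tˣ) : T) - 1))
          = (1 + single m m ((u : T) - 1)) * (1 + single m m (((u⁻¹ : Tˣ) : T) - 1)) +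
            single i j a + single i j a * single m m (((u⁻¹ : Tˣ) : T) - 1) +
            (single m m ((u : T) - 1) * single i j a) +
            (single m m ((u : T) - 1) * single i j a) * single m m (((u⁻¹ : Tˣ) : T) - 1) := by
        noncomm_ring
      rw [e1, dl_vi, single_mul_single_of_ne _ _ _ _ hjm,
        single_mul_single_of_ne _ _ _ _ (Ne.symm him), zero_mul, add_zero, add_zero, add_zero]

theorem dl_norm (m : ι) (u : Tˣ) {e : (Matrix ι ι T)ˣ} (he : e ∈ EE ι T) :
    dl m u * e * (dl m u)⁻¹ ∈ EE ι T := by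
  induction he using Subgroup.closure_induction with
  | mem x hx =>
    obtain ⟨k, l, hkl, a, -, hx⟩ := hx
    have hxe : x = el k l hkl a := Units.ext (by rw [hx, el_val])
    obtain ⟨b, hb⟩ := dl_conj m u k l hkl a
    rw [hxe, hb]
    exact el_mem hkl (Set.mem_univ _)
  | one => simp
  | mul x y _ _ hx hy =>
    have := mul_mem hx hy
    rwa [conj_mul] at this
  | inv x _ hx =>
    have := inv_mem hx
    rwa [conj_inv] at this

/-- the relation between two diagonal units -/
theorem dl_swap {k l : ι} (hkl : k ≠ l) (a b : T) (u w : Tˣ) (hu : (u : T) = 1 + a * b)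
    (hw : (w : T) = 1 + b * a) : dl k u * (dl l w)⁻¹ ∈ EE ι T := by
  have hcomm : ((u⁻¹ : Tˣ) : T) * a = a * ((w⁻¹ : Tˣ) : T) := by
    rw [Units.inv_mul_eq_iff_eq_mul, ← mul_assoc, Units.eq_mul_inv_iff_mul_eq, hu, hw]
    noncomm_ring
  have key : dl k u * (dl l w)⁻¹ =
      el l k (Ne.symm hkl) (-(b * ((u⁻¹ : Tˣ) : T))) * (el k l hkl a * el l k (Ne.symm hkl) b) *
        el k l hkl (-(((u⁻¹ : Tˣ) : T) * a)) := by
    apply Units.ext
    rw [dl_inv]
    simp only [Units.val_mul, dl_val, el_val]
    have hkl' := Ne.symm hkl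
    have x1 : single k l a * single l k b = single k k (a * b) := single_mul_single_same _ _ _ _ _
    have A1 : (1 + single k l a) * (1 + single l k b) =
        1 + single k l a + single l k b + single k k (a * b) := by
      rw [mul_add, add_mul, add_mul, x1]; simp only [mul_one, one_mul]; abel
    have A2 : (1 + single l k (-(b * ((u⁻¹ : Tˣ) : T)))) *
        (1 + single k l a + single l k b + single k k (a * b)) =
        1 + single k l a + single k k (a * b) + single l l (-(b * ((u⁻¹ : Tˣ) : T)) * a) := by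
      rw [add_mul, one_mul, mul_add, mul_add, mul_add, mul_one, single_mul_single_same,
        single_mul_single_of_ne _ _ _ _ hkl, single_mul_single_same]
      have : single l k b + (single l k (-(b * ((u⁻¹ : Tˣ) : T))) +
          single l k (-(b * ((u⁻¹ : Tˣ) : T)) * (a * b))) = (0 : Matrix ι ι T) := by
        rw [← single_add, ← single_add, ← single_zero l k]
        congr 1
        calc b + (-(b * ((u⁻¹ : Tˣ) : T)) + -(b * ((u⁻¹ : Tˣ) : T)) * (a * b))
            = b - b * (((u⁻¹ : Tˣ) : T) * (1 + a * b)) := by noncomm_ring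
          _ = 0 := by rw [← hu, Units.inv_mul, mul_one, sub_self]
      calc 1 + single k l a + single l k b + single k k (a * b) +
            (single l k (-(b * ((u⁻¹ : Tˣ) : T))) + single l l (-(b * ((u⁻¹ : Tˣ) : T)) * a) + 0 +
              single l k (-(b * ((u⁻¹ : Tˣ) : T)) * (a * b)))
          = 1 + single k l a + single k k (a * b) + single l l (-(b * ((u⁻¹ : Tˣ) : T)) * a) +
            (single l k b + (single l k (-(b * ((u⁻¹ : Tˣ) : T))) +
              single l k (-(b * ((u⁻¹ : Tˣ) : T)) * (a * b)))) := by abel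
        _ = _ := by rw [this, add_zero]
    have A3 : (1 + single k l a + single k k (a * b) + single l l (-(b * ((u⁻¹ : Tˣ) : T)) * a)) *
        (1 + single k l (-(((u⁻¹ : Tˣ) : T) * a))) =
        1 + single k k (a * b) + single l l (-(b * ((u⁻¹ : Tˣ) : T)) * a) := by
      rw [mul_add, mul_one, add_mul, add_mul, add_mul, one_mul,
        single_mul_single_of_ne _ _ _ _ hkl', single_mul_single_same,
        single_mul_single_of_ne _ _ _ _ hkl']
      have : single k l a + (single k l (-(((u⁻¹ : Tˣ) : T) * a)) +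
          single k l ((a * b) * -(((u⁻¹ : Tˣ) : T) * a))) = (0 : Matrix ι ι T) := by
        rw [← single_add, ← single_add, ← single_zero k l]
        congr 1
        calc a + (-(((u⁻¹ : Tˣ) : T) * a) + a * b * -(((u⁻¹ : Tˣ) : T) * a))
            = a - ((1 + a * b) * ((u⁻¹ : Tˣ) : T)) * a := by noncomm_ring
          _ = 0 := by rw [← hu, Units.mul_inv, one_mul, sub_self]
      calc 1 + single k l a + single k k (a * b) + single l l (-(b * ((u⁻¹ : Tˣ) : T)) * a) +
            (single k l (-(((u⁻¹ : Tˣ) : T) * a)) + 0 +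
              single k l ((a * b) * -(((u⁻¹ : Tˣ) : T) * a)) + 0)
          = 1 + single k k (a * b) + single l l (-(b * ((u⁻¹ : Tˣ) : T)) * a) +
            (single k l a + (single k l (-(((u⁻¹ : Tˣ) : T) * a)) +
              single k l ((a * b) * -(((u⁻¹ : Tˣ) : T) * a)))) := by abel
        _ = _ := by rw [this, add_zero]
    rw [A1, A2, A3, mul_add, mul_one, add_mul, one_mul, single_mul_single_of_ne _ _ _ _ hkl,
      add_zero]
    congr 2
    · congr 1
      rw [hu]; noncomm_ring
    · rw [neg_mul, mul_assoc, hcomm, ← mul_assoc]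
      have : b * a = w - 1 := by rw [hw]; noncomm_ring
      rw [this, sub_mul, Units.mul_inv]
      noncomm_ring
  rw [key]
  exact mul_mem (mul_mem (el_mem _ (Set.mem_univ _)) (mul_mem (el_mem _ (Set.mem_univ _))
    (el_mem _ (Set.mem_univ _)))) (el_mem _ (Set.mem_univ _))

theorem dl_swap' (hc : 3 ≤ Fintype.card ι) (k l : ι) (a b : T) (u w : Tˣ)
    (hu : (u : T) = 1 + a * b) (hw : (w : T) = 1 + b * a) : dl k u * (dl l w)⁻¹ ∈ EE ι T := by
  by_cases hkl : k = l
  · subst hkl
    obtain ⟨m, hm, -⟩ := exists_third hc k k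
    have h1 := dl_swap (Ne.symm hm) a b u w hu hw
    have h2 := dl_swap hm (b * a) 1 w w (by rw [mul_one]; exact hw) (by rw [one_mul]; exact hw)
    have := mul_mem h1 h2
    simpa [mul_assoc] using this
  · exact dl_swap hkl a b u w hu hw

/-- statement for the radical -/
theorem jacA (hc : 3 ≤ Fintype.card ι) {J : Ideal T} [J.IsTwoSided]
    (hJ : ∀ x ∈ J, IsUnit (1 + x)) (i : ι) (X : ι → T) (s : Finset ι) :
    ∀ Y : ι → T, (∀ k, k ∉ s → Y k = 0) → (∀ k, Y k ∈ J) →
      ∃ e ∈ EE ι T, ∃ u : Tˣ, (u : T) = 1 + Y ⬝ᵥ X ∧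
        tm X Y = (e : Matrix ι ι T) * (dl i u : (Matrix ι ι T)ˣ) := by
  induction s using Finset.induction_on with
  | empty =>
    intro Y h0 _
    have hY : Y = 0 := funext fun k => h0 k (Finset.notMem_empty k)
    refine ⟨1, one_mem _, 1, ?_, ?_⟩
    · rw [hY]; simp
    · rw [hY, tm_zero_right, dl_one]; simp
  | insert l s hl ih =>
    intro Y h0 hYJ
    obtain ⟨u, hu⟩ := hJ (X l * Y l) (J.mul_mem_left _ (hYJ l))
    obtain ⟨w, hw⟩ := hJ (Y l * X l) (J.mul_mem_right _ (hYJ l))
    -- the first factor
    have f1 : ∃ e ∈ EE ι T, tm X (Pi.single l (Y l)) =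
        (e : Matrix ι ι T) * (dl i w : (Matrix ι ι T)ˣ) := by
      obtain ⟨e, he, hev⟩ := col_El (S := (Set.univ : Set T)) l
        (Function.update (fun k => X k * Y l * ((u⁻¹ : Tˣ) : T)) l 0) (by simp)
        (fun _ => Set.mem_univ _)
      refine ⟨e * (dl l u * (dl i w)⁻¹), mul_mem he (dl_swap' hc l i _ _ u w hu hw), ?_⟩
      rw [← Units.val_mul, mul_assoc, mul_assoc, inv_mul_cancel, mul_one, Units.val_mul, hev,
        dl_val]
      unfold tm
      rw [add_mul, one_mul, mul_add, mul_one]
      ext a b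
      have hm : (vecMulVec (Function.update (fun k => X k * Y l * ((u⁻¹ : Tˣ) : T)) l 0)
          (Pi.single l 1) * single l l ((u : T) - 1)) a b =
          if b = l then Function.update (fun k => X k * Y l * ((u⁻¹ : Tˣ) : T)) l 0 a *
            ((u : T) - 1) else 0 := by
        by_cases hb : b = l
        · subst hb
          rw [mul_single_apply_same, if_pos rfl, vecMulVec_apply, Pi.single_eq_same, mul_one]
        · rw [mul_single_apply_of_ne _ _ _ _ _ hb, if_neg hb]
      simp only [Matrix.add_apply, hm]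
      rw [vecMulVec_apply, vecMulVec_apply]
      by_cases hb : b = l
      · subst hb
        simp only [Pi.single_eq_same, mul_one, if_true]
        by_cases ha : a = b
        · subst ha
          simp only [Function.update_self, single_apply_same, zero_mul, zero_add, hu]
          rw [add_zero, add_sub_cancel_left]
        · rw [Function.update_of_ne ha, single_apply_of_row_ne (Ne.symm ha)]
          have : X a * Y b = X a * Y b * ((u⁻¹ : Tˣ) : T) +
              X a * Y b * ((u⁻¹ : Tˣ) : T) * ((u : T) - 1) := by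
            rw [mul_sub, mul_one, Units.inv_mul_cancel_right]; abel
          rw [← this]
          simp
      · simp [hb, Ne.symm hb]
    obtain ⟨e1, he1, hev1⟩ := f1
    -- the second factor
    obtain ⟨e2, he2, w2, hw2, hev2⟩ := ih (((w⁻¹ : Tˣ) : T) • Function.update Y l 0)
      (fun k hk => by
        rw [Pi.smul_apply]
        by_cases hkl : k = l
        · rw [hkl, Function.update_self, smul_zero]
        · rw [Function.update_of_ne hkl, h0 k (by
            rw [Finset.mem_insert]; exact fun h => h.elim hkl hk), smul_zero])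
      (fun k => by
        rw [Pi.smul_apply]
        by_cases hkl : k = l
        · rw [hkl, Function.update_self, smul_zero]; exact J.zero_mem
        · rw [Function.update_of_ne hkl]; exact J.mul_mem_left _ (hYJ k))
    refine ⟨e1 * (dl i w * e2 * (dl i w)⁻¹), mul_mem he1 (dl_norm i w he2), w * w2, ?_, ?_⟩
    · rw [Units.val_mul, hw2, mul_add, mul_one, smul_dotProduct, smul_eq_mul,
        Units.mul_inv_cancel_left, hw, single_split Y l, add_dotProduct, single_dot]
      simp only [Pi.add_apply, Function.update_self, Pi.single_eq_same, zero_add]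
      rw [add_assoc, add_comm (Y l * X l)]
      congr 3
      ext k
      by_cases hk : k = l
      · subst hk; simp
      · simp [hk]
    · have e3 : e1 * (dl i w * e2 * (dl i w)⁻¹) * dl i (w * w2) =
          (e1 * dl i w) * (e2 * dl i w2) := by
        rw [dl_mul]; group
      rw [← Units.val_mul, e3, Units.val_mul, Units.val_mul, Units.val_mul, ← hev1, ← hev2,
        tm_mul_tm, single_dot]
      unfold tm
      rw [add_assoc, add_assoc, ← vecMulVec_add, ← vecMulVec_add]
      congr 2
      have : ((w⁻¹ : Tˣ) : T) • Function.update Y l 0 +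
          (Y l * X l) • ((w⁻¹ : Tˣ) : T) • Function.update Y l 0 = Function.update Y l 0 := by
        rw [smul_smul, ← add_smul]
        have : ((w⁻¹ : Tˣ) : T) + Y l * X l * ((w⁻¹ : Tˣ) : T) = (1 + Y l * X l) * ((w⁻¹ : Tˣ) : T) := by
          noncomm_ring
        rw [this, ← hw, Units.mul_inv, one_smul]
      rw [this, add_comm]
      exact single_split Y l

theorem jac_le (hc : 3 ≤ Fintype.card ι) {J : Ideal T} [J.IsTwoSided]
    (hJ : ∀ x ∈ J, IsUnit (1 + x)) : QG ι J ≤ EE ι T := by
  have hcard : 0 < Fintype.card ι := by omega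
  obtain ⟨i₀⟩ : Nonempty ι := Fintype.card_pos_iff.1 hcard
  unfold QG Subgroup.normalClosure
  rw [Subgroup.closure_le]
  intro x hx
  rw [Group.mem_conjugatesOfSet_iff] at hx
  obtain ⟨y, ⟨i, j, hij, a, ha, hy⟩, hconj⟩ := hx
  obtain ⟨g, rfl⟩ := isConj_iff.1 hconj
  have : y = el i j hij a := Units.ext (by rw [hy, el_val])
  rw [this]
  obtain ⟨e, he, u, hu, hev⟩ := jacA hc hJ i₀ ((g : Matrix ι ι T) *ᵥ Pi.single i 1) Finset.univ
    (a • (Pi.single j 1 ᵥ* ((g⁻¹ : (Matrix ι ι T)ˣ) : Matrix ι ι T)))
    (fun k hk => absurd (Finset.mem_univ k) hk) (fun k => by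
      rw [Pi.smul_apply, smul_eq_mul]; exact J.mul_mem_right _ ha)
  rw [conj_dot g hij a, add_zero] at hu
  have hu1 : u = 1 := Units.ext hu
  rw [hu1, dl_one, Units.val_one, mul_one] at hev
  have : g * el i j hij a * g⁻¹ = e := Units.ext (by rw [el_conj, hev])
  change _ ∈ EE ι T
  rw [this]
  exact he

end Pool.Agent.H822.PI
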