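import Mathlib
import Pool.Agent.H822.PI.Jac

/-! Passing normality from a quotient ring to the ring. -/

set_option autoImplicit false
set_option linter.unusedSectionVars false

namespace Pool.Agent.H822.PI

open Matrix

/-- the group theoretic lemma -/
theorem normal_of_excision {G : Type*} [Group G] (E N E₂ : Subgroup G) [hN : N.Normal]
    [hE₂ : E₂.Normal] (hle : E₂ ≤ E) (hcomm : ∀ h ∈ N, ∀ e ∈ E, h * e * h⁻¹ * e⁻¹ ∈ E₂)
    (S : Set G) (hS : E = Subgroup.closure S)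
    (hgen : ∀ x ∈ S, ∃ a ∈ E, ∃ b ∈ E, x = a * b * a⁻¹ * b⁻¹)
    (hdec : ∀ g : G, ∀ x ∈ E, ∃ e ∈ E, ∃ h ∈ N, g * x * g⁻¹ = e * h) : E.Normal := by
  let π : G →* G ⧸ E₂ := QuotientGroup.mk' E₂
  have hπ : ∀ g : G, π g = 1 ↔ g ∈ E₂ := fun g => QuotientGroup.eq_one_iff g
  have c1 : ∀ h ∈ N, ∀ e ∈ E, π h * π e = π e * π h := by
    intro h hh e he
    have := (hπ _).2 (hcomm h hh e he)
    rw [map_mul, map_mul, map_mul, map_inv, map_inv, mul_inv_eq_one, mul_inv_eq_iff_eq_mul] at this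
    exact this
  have c2 : ∀ h ∈ N, ∀ g : G, ∀ e ∈ E, π h * π (g * e * g⁻¹) = π (g * e * g⁻¹) * π h := by
    intro h hh g e he
    have h1 := c1 (g⁻¹ * h * g) (by simpa using hN.conj_mem h hh g⁻¹) e he
    have h2 := congrArg (fun y => π g * y * π g⁻¹) h1
    simp only [← map_mul] at h2 ⊢
    have e1 : g * (g⁻¹ * h * g * e) * g⁻¹ = h * (g * e * g⁻¹) := by group
    have e2 : g * (e * (g⁻¹ * h * g)) * g⁻¹ = g * e * g⁻¹ * h := by group
    rw [e1, e2] at h2
    exact h2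
  have key : ∀ g : G, ∀ x ∈ S, g * x * g⁻¹ ∈ E := by
    intro g x hx
    obtain ⟨a, ha, b, hb, rfl⟩ := hgen x hx
    obtain ⟨a', ha', h, hh, e1⟩ := hdec g a ha
    obtain ⟨b', hb', k, hk, e2⟩ := hdec g b hb
    have hka : π k * π a' = π a' * π k := c1 k hk a' ha'
    have hkb : π k * π b' = π b' * π k := c1 k hk b' hb'
    have hha : π h * π a' = π a' * π h := c1 h hh a' ha'
    have hhb : π h * π b' = π b' * π h := c1 h hh b' hb'
    have hkh : π k * π h = π h * π k := by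
      have h1 := c2 k hk g a ha
      rw [e1, map_mul, ← mul_assoc, hka, mul_assoc, mul_assoc] at h1
      exact mul_left_cancel h1
    have e3 : g * (a * b * a⁻¹ * b⁻¹) * g⁻¹ =
        (g * a * g⁻¹) * (g * b * g⁻¹) * (g * a * g⁻¹)⁻¹ * (g * b * g⁻¹)⁻¹ := by group
    have e4 : π (g * (a * b * a⁻¹ * b⁻¹) * g⁻¹) = π (a' * b' * a'⁻¹ * b'⁻¹) := by
      rw [e3, e1, e2]
      simp only [map_mul, map_inv, _root_.mul_inv_rev]
      have t1 : π h * (π b' * π k) = π b' * π k * π h := by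
        rw [← mul_assoc, hhb, mul_assoc, ← hkh, mul_assoc]
      have t2 : (π k)⁻¹ * (π b')⁻¹ = (π b')⁻¹ * (π k)⁻¹ := by
        rw [← _root_.mul_inv_rev, ← _root_.mul_inv_rev, hkb]
      have t3 : (π h)⁻¹ * (π a')⁻¹ = (π a')⁻¹ * (π h)⁻¹ := by
        rw [← _root_.mul_inv_rev, ← _root_.mul_inv_rev, hha]
      have t4 : π k * (π a')⁻¹ = (π a')⁻¹ * π k := by
        rw [mul_inv_eq_iff_eq_mul, mul_assoc, hka, inv_mul_cancel_left]
      calc π a' * π h * (π b' * π k) * ((π h)⁻¹ * (π a')⁻¹) * ((π k)⁻¹ * (π b')⁻¹)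
          = π a' * (π h * (π b' * π k)) * ((π h)⁻¹ * (π a')⁻¹) * ((π b')⁻¹ * (π k)⁻¹) := by
            rw [t2]; group
        _ = π a' * π b' * (π k * (π a')⁻¹) * ((π b')⁻¹ * (π k)⁻¹) := by rw [t1]; group
        _ = π a' * π b' * (π a')⁻¹ * (π k * ((π k)⁻¹ * (π b')⁻¹)) := by rw [t4, t2]; group
        _ = π a' * π b' * (π a')⁻¹ * (π b')⁻¹ := by rw [mul_inv_cancel_left]
    have hmem : a' * b' * a'⁻¹ * b'⁻¹ ∈ E :=
      mul_mem (mul_mem (mul_mem ha' hb') (inv_mem ha')) (inv_mem hb')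
    have h5 : (a' * b' * a'⁻¹ * b'⁻¹)⁻¹ * (g * (a * b * a⁻¹ * b⁻¹) * g⁻¹) ∈ E₂ := by
      rw [← hπ, map_mul, map_inv, e4, inv_mul_cancel]
    have h6 := mul_mem hmem (hle h5)
    rwa [mul_inv_cancel_left] at h6
  refine ⟨fun x hx g => ?_⟩
  rw [hS] at hx
  induction hx using Subgroup.closure_induction with
  | mem x hx => exact key g x hx
  | one => simp
  | mul x y _ _ hx hy =>
    have := mul_mem hx hy
    rwa [conj_mul] at this
  | inv x _ hx =>
    have := inv_mem hx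
    rwa [conj_inv] at this

variable {ι : Type*} [Fintype ι] [DecidableEq ι] {R : Type*} [Ring R]

/-- the map on general linear groups -/
def mapG (ι : Type*) [Fintype ι] [DecidableEq ι] {R S : Type*} [Ring R] [Ring S] (φ : R →+* S) :
    (Matrix ι ι R)ˣ →* (Matrix ι ι S)ˣ :=
  Units.map (φ.mapMatrix : Matrix ι ι R →+* Matrix ι ι S).toMonoidHom

theorem mapG_apply {S : Type*} [Ring S] (φ : R →+* S) (g : (Matrix ι ι R)ˣ) (i j : ι) :
    (mapG ι φ g : Matrix ι ι S) i j = φ ((g : Matrix ι ι R) i j) := rfl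

theorem mapG_el {S : Type*} [Ring S] (φ : R →+* S) {i j : ι} (hij : i ≠ j) (a : R) :
    mapG ι φ (el i j hij a) = el i j hij (φ a) := by
  apply Units.ext
  ext k l
  rw [mapG_apply, el_val, el_val, Matrix.add_apply, Matrix.add_apply, map_add, single_apply,
    single_apply, one_apply, one_apply]
  split_ifs <;> simp

theorem mapG_surj {S : Type*} [Ring S] (φ : R →+* S) {A : Set R} {B : Set S}
    (h : ∀ b ∈ B, ∃ a ∈ A, φ a = b) {x : (Matrix ι ι S)ˣ} (hx : x ∈ El ι B) :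
    ∃ e ∈ El ι A, mapG ι φ e = x := by
  induction hx using Subgroup.closure_induction with
  | mem x hx =>
    obtain ⟨k, l, hkl, b, hb, hx⟩ := hx
    have hxe : x = el k l hkl b := Units.ext (by rw [hx, el_val])
    obtain ⟨a, ha, rfl⟩ := h b hb
    exact ⟨el k l hkl a, el_mem hkl ha, by rw [mapG_el, hxe]⟩
  | one => exact ⟨1, one_mem _, map_one _⟩
  | mul x y _ _ hx hy =>
    obtain ⟨e, he, rfl⟩ := hx
    obtain ⟨e', he', rfl⟩ := hy
    exact ⟨e * e', mul_mem he he', map_mul _ _ _⟩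
  | inv x _ hx =>
    obtain ⟨e, he, rfl⟩ := hx
    exact ⟨e⁻¹, inv_mem he, map_inv _ _⟩

theorem mapG_El {S : Type*} [Ring S] (φ : R →+* S) {A : Set R} {B : Set S}
    (h : ∀ a ∈ A, φ a ∈ B) {x : (Matrix ι ι R)ˣ} (hx : x ∈ El ι A) : mapG ι φ x ∈ El ι B := by
  induction hx using Subgroup.closure_induction with
  | mem x hx =>
    obtain ⟨k, l, hkl, b, hb, hx⟩ := hx
    have hxe : x = el k l hkl b := Units.ext (by rw [hx, el_val])
    rw [hxe, mapG_el]
    exact el_mem hkl (h b hb)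
  | one => rw [map_one]; exact one_mem _
  | mul x y _ _ hx hy => rw [map_mul]; exact mul_mem hx hy
  | inv x _ hx => rw [map_inv]; exact inv_mem hx

/-- the congruence subgroup -/
def CG (ι : Type*) [Fintype ι] [DecidableEq ι] (I : Ideal R) [I.IsTwoSided] :
    Subgroup (Matrix ι ι R)ˣ := (mapG ι (Ideal.Quotient.mk I)).ker

theorem mem_CG {I : Ideal R} [I.IsTwoSided] {g : (Matrix ι ι R)ˣ} : g ∈ CG ι I ↔ Cg I g := by
  unfold CG Cg
  rw [MonoidHom.mem_ker]
  constructor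
  · intro h k l
    rw [← Ideal.Quotient.eq_zero_iff_mem, map_sub, sub_eq_zero, ← mapG_apply, h, Units.val_one,
      one_apply, one_apply]
    split_ifs <;> simp
  · intro h
    apply Units.ext
    ext k l
    have := h k l
    rw [← Ideal.Quotient.eq_zero_iff_mem, map_sub, sub_eq_zero] at this
    rw [mapG_apply, this, Units.val_one, one_apply, one_apply]
    split_ifs <;> simp

/-- excision -/
theorem excision (hc : 3 ≤ Fintype.card ι) (I : Ideal R) [I.IsTwoSided]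
    (E₂ : Subgroup (Matrix ι ι R)ˣ) [E₂.Normal] (hle : E₂ ≤ EE ι R)
    (hcomm : ∀ h : (Matrix ι ι R)ˣ, Cg I h → ∀ e ∈ EE ι R, h * e * h⁻¹ * e⁻¹ ∈ E₂)
    (hq : (EE ι (R ⧸ I)).Normal) : (EE ι R).Normal := by
  have hNN : (CG ι I).Normal := MonoidHom.normal_ker _
  refine normal_of_excision (EE ι R) (CG ι I) E₂ hle (fun h hh e he => hcomm h (mem_CG.1 hh) e he)
    (elSet ι (Set.univ : Set R)) rfl ?_ ?_
  · rintro x ⟨i, j, hij, a, -, hx⟩
    have hxe : x = el i j hij a := Units.ext (by rw [hx, el_val])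
    obtain ⟨h, hhi, hhj⟩ := exists_third hc i j
    refine ⟨el i h (Ne.symm hhi) 1, el_mem _ (Set.mem_univ _), el h j hhj a,
      el_mem _ (Set.mem_univ _), ?_⟩
    rw [hxe]
    unfold el
    exact tv_comm (Pi.single_eq_of_ne hhi _) (Pi.single_eq_of_ne hhj _) _ _ _
  · intro g x hx
    have h1 : mapG ι (Ideal.Quotient.mk I) (g * x * g⁻¹) ∈ EE ι (R ⧸ I) := by
      rw [map_mul, map_mul, map_inv]
      exact hq.conj_mem _ (mapG_El (A := Set.univ) _ (fun _ _ => Set.mem_univ _) hx) _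
    obtain ⟨e, he, hev⟩ := mapG_surj (Ideal.Quotient.mk I) (A := (Set.univ : Set R))
      (fun b _ => by
        obtain ⟨a, ha⟩ := Ideal.Quotient.mk_surjective b
        exact ⟨a, Set.mem_univ _, ha⟩) h1
    refine ⟨e, he, e⁻¹ * (g * x * g⁻¹), ?_, by rw [mul_inv_cancel_left]⟩
    unfold CG
    rw [MonoidHom.mem_ker, map_mul, map_inv, hev, inv_mul_cancel]

/-- normality can be tested modulo an ideal in the Jacobson radical -/
theorem normal_of_jac (hc : 3 ≤ Fintype.card ι) (J : Ideal R) [J.IsTwoSided]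
    (hJ : ∀ x ∈ J, IsUnit (1 + x)) (hq : (EE ι (R ⧸ J)).Normal) : (EE ι R).Normal :=
  excision hc J (QG ι J) (jac_le hc hJ) (fun _ hh _ he => comm_mem_QG_jac hc hJ hh he) hq

/-- normality can be tested modulo the square of an ideal embedded in a good ring -/
theorem normal_of_embed (hc : 3 ≤ Fintype.card ι) {Λ T : Type*} [CommRing Λ] [Ring T]
    [Algebra Λ T] (hLP : LP Λ T) (φ : R →+* T) (𝔞 𝔟 : Ideal R) [𝔟.IsTwoSided]
    (𝔞' 𝔟' : Ideal T) [𝔞'.IsTwoSided] [𝔟'.IsTwoSided] (h𝔞 : ∀ x ∈ 𝔞', ∃ a ∈ 𝔞, φ a = x)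
    (h𝔟 : ∀ b ∈ 𝔟, φ b ∈ 𝔟') (hle : 𝔟 ≤ 𝔞) (hinj : ∀ a ∈ 𝔞, φ a = 0 → a = 0)
    (hprod : ∀ b ∈ 𝔟', b ∈ AddSubgroup.closure {x : T | ∃ a₁ ∈ 𝔞', ∃ a₂ ∈ 𝔞', x = a₁ * a₂})
    (hq : (EE ι (R ⧸ 𝔟)).Normal) : (EE ι R).Normal := by
  have hNN : (CG ι 𝔟).Normal := MonoidHom.normal_ker _
  have hMN : ((QG ι 𝔟').comap (mapG ι φ)).Normal := Subgroup.normal_comap _
  have hE₂ : (CG ι 𝔟 ⊓ (QG ι 𝔟').comap (mapG ι φ)).Normal := inferInstance
  -- entries of elementary matrices with entries in the ideal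
  have hElCg : ∀ e ∈ El ι (𝔞 : Set R), ∀ k l, (e : Matrix ι ι R) k l - (1 : Matrix ι ι R) k l ∈ 𝔞 := by
    intro e he
    induction he using Subgroup.closure_induction'' with
    | mem x hx =>
      obtain ⟨i, j, hij, a, ha, hx⟩ := hx
      intro k l
      rw [hx, Matrix.add_apply, add_sub_cancel_left, single_apply]
      split_ifs
      · exact ha
      · exact 𝔞.zero_mem
    | inv_mem x hx =>
      obtain ⟨i, j, hij, a, ha, hx⟩ := hx
      have hxe : x = el i j hij a := Units.ext (by rw [hx, el_val])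
      intro k l
      rw [hxe, el_inv, el_val, Matrix.add_apply, add_sub_cancel_left, single_apply]
      split_ifs
      · exact neg_mem ha
      · exact 𝔞.zero_mem
    | one => intro k l; rw [Units.val_one, sub_self]; exact 𝔞.zero_mem
    | mul x y _ _ hx hy =>
      intro k l
      have e1 : ((x * y : (Matrix ι ι R)ˣ) : Matrix ι ι R) - 1 =
          (x : Matrix ι ι R) * ((y : Matrix ι ι R) - 1) + ((x : Matrix ι ι R) - 1) := by
        rw [Units.val_mul]; noncomm_ring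
      have e2 := congrFun (congrFun e1 k) l
      rw [Matrix.sub_apply, Matrix.add_apply, Matrix.sub_apply, mul_apply] at e2
      rw [e2]
      refine add_mem (Ideal.sum_mem _ fun m _ => 𝔞.mul_mem_left _ ?_) (hx k l)
      rw [Matrix.sub_apply]
      exact hy m l
  refine excision hc 𝔟 (CG ι 𝔟 ⊓ (QG ι 𝔟').comap (mapG ι φ)) ?_ ?_ hq
  · rintro h ⟨h1, h2⟩
    have h2' : mapG ι φ h ∈ QG ι 𝔟' := h2
    have h3 := Q0_le_El (𝔞 := 𝔞') hprod (QG_le_Q0 hc hLP 𝔟' h2')
    obtain ⟨e, he, hev⟩ := mapG_surj φ (A := (𝔞 : Set R)) h𝔞 h3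
    have : h = e := by
      apply Units.ext
      ext k l
      have m1 : (h : Matrix ι ι R) k l - (1 : Matrix ι ι R) k l ∈ 𝔞 := hle (mem_CG.1 h1 k l)
      have m2 := hElCg e he k l
      have m3 := sub_mem m1 m2
      rw [sub_sub_sub_cancel_right] at m3
      have m4 : φ ((h : Matrix ι ι R) k l - (e : Matrix ι ι R) k l) = 0 := by
        rw [map_sub, ← mapG_apply, ← mapG_apply, hev, sub_self]
      exact sub_eq_zero.1 (hinj _ m3 m4)
    rw [this]
    exact El_mono (Set.subset_univ _) he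
  · intro h hh e he
    refine ⟨?_, ?_⟩
    · have hh' : h ∈ CG ι 𝔟 := mem_CG.2 hh
      have : h * e * h⁻¹ * e⁻¹ = h * (e * h⁻¹ * e⁻¹) := by group
      rw [this]
      exact mul_mem hh' (hNN.conj_mem _ (inv_mem hh') e)
    · change mapG ι φ (h * e * h⁻¹ * e⁻¹) ∈ QG ι 𝔟'
      rw [map_mul, map_mul, map_mul, map_inv, map_inv]
      refine comm_mem_QG hc hLP ?_ (mapG_El (A := Set.univ) _ (fun _ _ => Set.mem_univ _) he)
      intro k l
      have := h𝔟 _ (hh k l)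
      rw [map_sub, ← mapG_apply] at this
      have e1 : φ ((1 : Matrix ι ι R) k l) = (1 : Matrix ι ι T) k l := by
        rw [one_apply, one_apply]; split_ifs <;> simp
      rwa [e1] at this

end Pool.Agent.H822.PI
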