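import Mathlib
import Pool.Agent.H822.PI.Cap
import Pool.Agent.H822.PI.DetL
import Pool.Agent.H822.PI.LocalH

/-! The norm on the enlarged ring. -/

set_option autoImplicit false
set_option linter.unusedSectionVars false

namespace Pool.Agent.H822.PI

open Matrix Polynomial

section

variable {K : Type*} [CommRing K] {A : Type*} [Ring A] [Algebra K A] {N : ℕ}
  (e : Module.Basis (Fin N) K A)

/-- the pencil determinant of two elements -/
noncomputable def pd (t t' : A) : K[X] :=
  pdet (Algebra.leftMulMatrix e t) (Algebra.leftMulMatrix e t')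

theorem pd_eval (t t' : A) (μ : K) :
    (pd e t t').eval μ = (Algebra.leftMulMatrix e (t + μ • t')).det := by
  unfold pd
  rw [pdet_eval, map_add, map_smul]

theorem pd_zero (t t' : A) : (pd e t t').coeff 0 = (Algebra.leftMulMatrix e t).det := by
  rw [coeff_zero_eq_eval_zero, pd_eval, zero_smul, add_zero]

theorem pd_charpoly (t : A) : pd e (-t) 1 = (Algebra.leftMulMatrix e t).charpoly := by
  unfold pd
  rw [map_neg, map_one, pdet_charpoly]

theorem coeff_smul_cap (t t' : A) (k : ℕ) (x y : Fin N → A) :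
    (pd e t t').coeff k • cap x y = ∑ S : Finset (Fin N), if S.card = k then
      cap (fun j => if j ∈ S then t' * x j else t * x j) y else 0 := by
  rw [cap_det e x y, smul_smul, e.det_apply]
  unfold pd
  rw [pdet_coeff, Finset.sum_smul]
  refine Finset.sum_congr rfl fun S _ => ?_
  by_cases h : S.card = k
  · rw [if_pos h, if_pos h, cap_det e (fun j => if j ∈ S then t' * x j else t * x j) y, e.det_apply]
    congr 1
    rw [← det_transpose]
    congr 1
    refine Matrix.ext fun i j => ?_
    have h1 : ∀ s : A, (Algebra.leftMulMatrix e s * e.toMatrix x) i j = e.repr (s * x j) i := by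
      intro s
      have := congrFun (Algebra.leftMulMatrix_mulVec_repr e s (x j)) i
      rw [← this]
      rfl
    rw [transpose_apply]
    unfold mixr
    rw [of_apply, transpose_apply, transpose_apply, h1, h1, Module.Basis.toMatrix_apply]
    by_cases hj : j ∈ S
    · rw [if_pos hj, if_pos hj]
    · rw [if_neg hj, if_neg hj]
  · rw [if_neg h, if_neg h, zero_smul]

variable (Λ : Subring K) (T : Subalgebra Λ A) (𝔄 : AddSubgroup A) (G : Set A)

theorem coeff_mem (h1 : ∀ z : K, (∀ a ∈ 𝔄, z • a ∈ 𝔄) → z ∈ Λ)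
    (h2 : ∀ a ∈ 𝔄, a ∈ AddSubgroup.closure {z : A | ∃ p ∈ G, ∃ q ∈ G, ∃ x y : Fin N → A,
      (∀ i, x i ∈ G) ∧ (∀ i, y i ∈ G) ∧ z = p * cap x y * q})
    (h3 : ∀ p ∈ G, ∀ q ∈ G, ∀ x y : Fin N → A, (∀ i, x i ∈ T) → (∀ i, y i ∈ G) →
      p * cap x y * q ∈ 𝔄) (hG : ∀ g ∈ G, g ∈ T) {t t' : A} (ht : t ∈ T) (ht' : t' ∈ T) (k : ℕ) :
    (pd e t t').coeff k ∈ Λ := by
  refine h1 _ fun a ha => ?_
  have ha' := h2 a ha
  clear ha
  induction ha' using AddSubgroup.closure_induction with
  | mem z hz =>
    obtain ⟨p, hp, q, hq, x, y, hx, hy, rfl⟩ := hz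
    have e1 : (pd e t t').coeff k • (p * cap x y * q) = p * ((pd e t t').coeff k • cap x y) * q := by
      rw [mul_smul_comm, smul_mul_assoc]
    rw [e1, coeff_smul_cap, Finset.mul_sum, Finset.sum_mul]
    refine AddSubgroup.sum_mem _ fun S _ => ?_
    by_cases h : S.card = k
    · rw [if_pos h]
      refine h3 p hp q hq _ y (fun i => ?_) hy
      by_cases hi : i ∈ S
      · simp only [if_pos hi]
        exact T.mul_mem ht' (hG _ (hx i))
      · simp only [if_neg hi]
        exact T.mul_mem ht (hG _ (hx i))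
    · rw [if_neg h, mul_zero, zero_mul]
      exact 𝔄.zero_mem
  | zero => rw [smul_zero]; exact 𝔄.zero_mem
  | add x y _ _ hx hy => rw [smul_add]; exact 𝔄.add_mem hx hy
  | neg x _ hx => rw [smul_neg]; exact 𝔄.neg_mem hx

theorem adj_aux {B : Type*} [Ring B] (t s c n : B) (N : ℕ) (hn : n = (-1) ^ N * c)
    (hc : c = -(s * t)) (hst : s * t = t * s) :
    t * (-((-1) ^ N * s)) = n ∧ (-((-1) ^ N * s)) * t = n := by
  constructor
  · rw [hn, hc, hst, mul_neg, mul_neg, ← mul_assoc, ← mul_assoc,
      ((Commute.neg_one_right t).pow_right N).eq]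
  · rw [hn, hc, neg_mul, mul_neg, mul_assoc]

/-- the norm data on `T` -/
theorem lp_of_coeff (hco : ∀ t ∈ T, ∀ t' ∈ T, ∀ k, (pd e t t').coeff k ∈ Λ) : LP Λ T := by
  have hdet : ∀ t : T, (Algebra.leftMulMatrix e (t : A)).det ∈ Λ := by
    intro t
    rw [← pd_zero e (t : A) 0]
    exact hco _ t.2 _ T.zero_mem 0
  let Nt : T → Λ := fun t => ⟨_, hdet t⟩
  have hcoeffs : ∀ (p : K[X]), (∀ k, p.coeff k ∈ Λ) → (↑p.coeffs : Set K) ⊆ Λ := by
    intro p hp z hz
    rw [Finset.mem_coe, mem_coeffs_iff] at hz
    obtain ⟨n, -, rfl⟩ := hz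
    exact hp n
  -- the characteristic polynomial with coefficients in the base
  have hchar : ∀ t : T, ∃ p : Λ[X], p.Monic ∧ aeval t p = 0 ∧
      algebraMap Λ T (Nt t) = (-1) ^ N * algebraMap Λ T (p.coeff 0) := by
    intro t
    have hc : ∀ k, ((Algebra.leftMulMatrix e (t : A)).charpoly).coeff k ∈ Λ := by
      intro k
      rw [← pd_charpoly]
      exact hco _ (T.neg_mem t.2) _ T.one_mem k
    let p : Λ[X] := ((Algebra.leftMulMatrix e (t : A)).charpoly).toSubring Λ (hcoeffs _ hc)
    have hpm : p.map Λ.subtype = (Algebra.leftMulMatrix e (t : A)).charpoly :=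
      map_toSubring _ _ _
    refine ⟨p, ?_, ?_, ?_⟩
    · exact (monic_toSubring _ _ _).2 (charpoly_monic _)
    · apply Subtype.ext
      have e1 : ((aeval t p : T) : A) = aeval (t : A) p := by
        rw [← Subalgebra.coe_val, ← aeval_algHom_apply]
      rw [e1]
      have e2 : aeval (t : A) p = aeval (t : A) (p.map Λ.subtype) := by
        rw [aeval_def, aeval_def, eval₂_map]
        rfl
      rw [e2, hpm]
      apply Algebra.leftMulMatrix_injective e
      rw [← aeval_algHom_apply, aeval_self_charpoly, ZeroMemClass.coe_zero, map_zero]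
    · apply Subtype.ext
      have e3 : (Algebra.leftMulMatrix e (t : A)).det =
          (-1) ^ N * ((Algebra.leftMulMatrix e (t : A)).charpoly).coeff 0 := by
        have := det_eq_sign_charpoly_coeff (Algebra.leftMulMatrix e (t : A))
        rwa [Fintype.card_fin] at this
      have e4 : ((algebraMap Λ T (Nt t) : T) : A) =
          algebraMap K A ((Algebra.leftMulMatrix e (t : A)).det) := rfl
      have e5 : (algebraMap Λ A (p.coeff 0) : A) =
          algebraMap K A (((Algebra.leftMulMatrix e (t : A)).charpoly).coeff 0) := by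
        have e6 : ((p.coeff 0 : Λ) : K) = ((Algebra.leftMulMatrix e (t : A)).charpoly).coeff 0 :=
          coeff_toSubring _ _ _
        rw [← e6]
        rfl
      rw [e4, e3, map_mul, map_pow, map_neg, map_one]
      push_cast
      rw [e5]
  refine NormData.lp (D := N) (N := Nt) ⟨?_, ?_, ?_, ?_, ?_, ?_⟩
  · intro a b
    apply Subtype.ext
    change (Algebra.leftMulMatrix e ((a * b : T) : A)).det = _
    rw [MulMemClass.coe_mul, map_mul, det_mul]
    rfl
  · apply Subtype.ext
    change (Algebra.leftMulMatrix e ((1 : T) : A)).det = _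
    rw [OneMemClass.coe_one, map_one, det_one]
    rfl
  · intro t
    obtain ⟨p, -, hp, hN⟩ := hchar t
    have h4 := divX_mul_X_add p
    have h5 := congrArg (aeval t) h4
    rw [hp, map_add, map_mul, aeval_X, aeval_C] at h5
    have hcomm : aeval t (divX p) * t = t * aeval t (divX p) := by
      have : aeval t (divX p * X) = aeval t (X * divX p) := by rw [mul_comm]
      simpa only [map_mul, aeval_X] using this
    have h6 : algebraMap Λ T (p.coeff 0) = -(aeval t (divX p) * t) := eq_neg_of_add_eq_zero_right h5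
    exact ⟨-((-1) ^ N * aeval t (divX p)), adj_aux t _ _ _ N hN h6 hcomm⟩
  · intro t
    obtain ⟨p, h1, h2, -⟩ := hchar t
    exact ⟨p, h1, h2⟩
  · intro 𝔪 t t' μ hμ
    let p : Λ[X] := (pd e (t : A) t').toSubring Λ (hcoeffs _ (hco _ t.2 _ t'.2))
    have hpm : p.map Λ.subtype = pd e (t : A) t' := map_toSubring _ _ _
    have e1 : Nt (t + μ • t') = p.eval μ := by
      apply Subtype.ext
      have : ((p.eval μ : Λ) : K) = (p.map Λ.subtype).eval (μ : K) := by
        rw [eval_map, ← Subring.subtype_apply, ← Subring.subtype_apply, eval₂_at_apply]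
      rw [this, hpm, pd_eval]
      rfl
    have e2 : Nt t = p.coeff 0 := by
      apply Subtype.ext
      have : ((p.coeff 0 : Λ) : K) = (p.map Λ.subtype).coeff 0 := by
        rw [coeff_map]; rfl
      rw [this, hpm, pd_zero]
    rw [e1, e2]
    have h4 := congrArg (eval μ) (divX_mul_X_add p)
    rw [eval_add, eval_mul, eval_X, eval_C] at h4
    rw [← h4, add_sub_cancel_right]
    exact 𝔪.mul_mem_left _ hμ
  · intro k hk t₀ t
    apply Subtype.ext
    have := det_diff (n := Fin N) (K := K) (by rw [Fintype.card_fin]; exact hk)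
      (Algebra.leftMulMatrix e (t₀ : A)) (fun i => Algebra.leftMulMatrix e (t i : A))
    rw [ZeroMemClass.coe_zero, ← this]
    push_cast
    refine Finset.sum_congr rfl fun S _ => ?_
    congr 1
    change (Algebra.leftMulMatrix e ((t₀ + ∑ i ∈ S, t i : T) : A)).det = _
    rw [AddMemClass.coe_add, AddSubmonoidClass.coe_finsetSum, map_add, map_sum]

end

end Pool.Agent.H822.PI
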