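import Mathlib
import Pool.Agent.H822.PI.NormT
import Pool.Agent.H822.PI.Excision

/-! Normality from a map into an algebra which is free of finite rank. -/

set_option autoImplicit false
set_option linter.unusedSectionVars false

namespace Pool.Agent.H822.PI

open Matrix

/-- the square of an ideal -/
def sq {S : Type*} [Ring S] (I : Ideal S) : Ideal S where
  carrier := AddSubgroup.closure {x : S | ∃ a₁ ∈ I, ∃ a₂ ∈ I, x = a₁ * a₂}
  add_mem' := fun ha hb => AddSubgroup.add_mem _ ha hb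
  zero_mem' := AddSubgroup.zero_mem _
  smul_mem' := by
    intro c x hx
    change x ∈ AddSubgroup.closure _ at hx
    change c • x ∈ AddSubgroup.closure _
    induction hx using AddSubgroup.closure_induction with
    | mem z hz =>
      obtain ⟨a₁, h1, a₂, h2, rfl⟩ := hz
      exact AddSubgroup.subset_closure ⟨c * a₁, I.mul_mem_left _ h1, a₂, h2, by
        rw [smul_eq_mul, mul_assoc]⟩
    | zero => rw [smul_zero]; exact AddSubgroup.zero_mem _
    | add x y _ _ hx hy => rw [smul_add]; exact AddSubgroup.add_mem _ hx hy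
    | neg x _ hx => rw [smul_neg]; exact AddSubgroup.neg_mem _ hx

theorem mem_sq {S : Type*} [Ring S] {I : Ideal S} {x : S} :
    x ∈ sq I ↔ x ∈ AddSubgroup.closure {x : S | ∃ a₁ ∈ I, ∃ a₂ ∈ I, x = a₁ * a₂} := Iff.rfl

instance sq_two {S : Type*} [Ring S] (I : Ideal S) [I.IsTwoSided] : (sq I).IsTwoSided where
  mul_mem_of_left := by
    intro x c hx
    rw [mem_sq] at hx ⊢
    induction hx using AddSubgroup.closure_induction with
    | mem z hz =>
      obtain ⟨a₁, h1, a₂, h2, rfl⟩ := hz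
      exact AddSubgroup.subset_closure ⟨a₁, h1, a₂ * c, I.mul_mem_right _ h2, by rw [mul_assoc]⟩
    | zero => rw [zero_mul]; exact AddSubgroup.zero_mem _
    | add x y _ _ hx hy => rw [add_mul]; exact AddSubgroup.add_mem _ hx hy
    | neg x _ hx => rw [neg_mul]; exact AddSubgroup.neg_mem _ hx

theorem sq_le {S : Type*} [Ring S] (I : Ideal S) : sq I ≤ I := by
  intro x hx
  rw [mem_sq] at hx
  induction hx using AddSubgroup.closure_induction with
  | mem z hz =>
    obtain ⟨a₁, h1, a₂, h2, rfl⟩ := hz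
    exact I.mul_mem_left _ h2
  | zero => exact I.zero_mem
  | add x y _ _ hx hy => exact I.add_mem hx hy
  | neg x _ hx => exact I.neg_mem hx

/-- the ideal generated by the values of the form -/
def capI (R : Type*) [Ring R] (N : ℕ) : Ideal R :=
  Ideal.span {z | ∃ x y : Fin N → R, ∃ q, z = cap x y * q}

instance capI_two (R : Type*) [Ring R] (N : ℕ) : (capI R N).IsTwoSided where
  mul_mem_of_left := by
    intro a c ha
    unfold capI at ha ⊢
    induction ha using Submodule.span_induction with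
    | mem z hz =>
      obtain ⟨x, y, q, rfl⟩ := hz
      exact Ideal.subset_span ⟨x, y, q * c, by rw [mul_assoc]⟩
    | zero => rw [zero_mul]; exact Submodule.zero_mem _
    | add x y _ _ hx hy => rw [add_mul]; exact Submodule.add_mem _ hx hy
    | smul r x _ hx => rw [smul_mul_assoc]; exact Submodule.smul_mem _ _ hx

theorem cap_mem_capI {R : Type*} [Ring R] {N : ℕ} (x y : Fin N → R) : cap x y ∈ capI R N :=
  Ideal.subset_span ⟨x, y, 1, by rw [mul_one]⟩

theorem capI_gen {R : Type*} [Ring R] {N : ℕ} {a : R} (ha : a ∈ capI R N) :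
    a ∈ AddSubgroup.closure {z : R | ∃ p q : R, ∃ x y : Fin N → R, z = p * cap x y * q} := by
  unfold capI at ha
  induction ha using Submodule.span_induction with
  | mem z hz =>
    obtain ⟨x, y, q, rfl⟩ := hz
    exact AddSubgroup.subset_closure ⟨1, q, x, y, by rw [one_mul]⟩
  | zero => exact AddSubgroup.zero_mem _
  | add x y _ _ hx hy => exact AddSubgroup.add_mem _ hx hy
  | smul r x hx0 hx =>
    clear hx0
    induction hx using AddSubgroup.closure_induction with
    | mem z hz =>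
      obtain ⟨p, q, x, y, rfl⟩ := hz
      exact AddSubgroup.subset_closure ⟨r * p, q, x, y, by rw [smul_eq_mul]; noncomm_ring⟩
    | zero => rw [smul_zero]; exact AddSubgroup.zero_mem _
    | add x y _ _ hx hy => rw [smul_add]; exact AddSubgroup.add_mem _ hx hy
    | neg x _ hx => rw [smul_neg]; exact AddSubgroup.neg_mem _ hx

section

variable {R : Type*} [Ring R] {K : Type*} [CommRing K] {A : Type*} [Ring A] [Algebra K A]
  (φ : R →+* A) (𝔞 : Ideal R)

/-- scalars preserving the image of the ideal -/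
def lam : Subring K where
  carrier := {z | ∀ a ∈ 𝔞, ∃ a' ∈ 𝔞, z • φ a = φ a'}
  mul_mem' := by
    intro z z' hz hz' a ha
    obtain ⟨a', ha', h1⟩ := hz' a ha
    obtain ⟨a'', ha'', h2⟩ := hz a' ha'
    exact ⟨a'', ha'', by rw [mul_smul, h1, h2]⟩
  one_mem' := fun a ha => ⟨a, ha, one_smul _ _⟩
  add_mem' := by
    intro z z' hz hz' a ha
    obtain ⟨a', ha', h1⟩ := hz' a ha
    obtain ⟨a'', ha'', h2⟩ := hz a ha
    exact ⟨a'' + a', add_mem ha'' ha', by rw [add_smul, h1, h2, map_add]⟩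
  zero_mem' := fun a _ => ⟨0, zero_mem _, by rw [zero_smul, map_zero]⟩
  neg_mem' := by
    intro z hz a ha
    obtain ⟨a', ha', h1⟩ := hz a ha
    exact ⟨-a', neg_mem ha', by rw [neg_smul, h1, map_neg]⟩

theorem mem_lam {z : K} : z ∈ (lam φ 𝔞 : Subring K) ↔ ∀ a ∈ 𝔞, ∃ a' ∈ 𝔞, z • φ a = φ a' := Iff.rfl

/-- the image of the ideal as a module over these scalars -/
def imM : Submodule (lam φ 𝔞 : Subring K) A where
  carrier := {z | ∃ a ∈ 𝔞, φ a = z}
  add_mem' := by
    rintro _ _ ⟨a, ha, rfl⟩ ⟨b, hb, rfl⟩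
    exact ⟨a + b, add_mem ha hb, map_add _ _ _⟩
  zero_mem' := ⟨0, zero_mem _, map_zero _⟩
  smul_mem' := by
    rintro c _ ⟨a, ha, rfl⟩
    obtain ⟨a', ha', h1⟩ := c.2 a ha
    exact ⟨a', ha', h1.symm⟩

/-- the enlarged ring -/
def bigT : Subalgebra (lam φ 𝔞 : Subring K) A := Algebra.adjoin _ (Set.range φ)

theorem bigT_span {t : A} (ht : t ∈ (bigT φ 𝔞 : Subalgebra (lam φ 𝔞 : Subring K) A)) :
    t ∈ Submodule.span (lam φ 𝔞 : Subring K) (Set.range φ) := by
  have h1 : t ∈ Subalgebra.toSubmodule (Algebra.adjoin (lam φ 𝔞 : Subring K) (Set.range φ)) := ht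
  rw [Algebra.adjoin_eq_span] at h1
  have h2 : (Submonoid.closure (Set.range φ) : Set A) ⊆ Set.range φ := by
    have : Submonoid.closure (Set.range φ) ≤ MonoidHom.mrange (φ : R →* A) := by
      rw [Submonoid.closure_le]
      rintro _ ⟨r, rfl⟩
      exact ⟨r, rfl⟩
    intro x hx
    exact this hx
  exact Submodule.span_mono h2 h1

theorem imM_mul_left [𝔞.IsTwoSided] {t z : A}
    (ht : t ∈ (bigT φ 𝔞 : Subalgebra (lam φ 𝔞 : Subring K) A))
    (hz : z ∈ (imM φ 𝔞 : Submodule (lam φ 𝔞 : Subring K) A)) :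
    t * z ∈ (imM φ 𝔞 : Submodule (lam φ 𝔞 : Subring K) A) := by
  have := bigT_span φ 𝔞 ht
  clear ht
  induction this using Submodule.span_induction with
  | mem w hw =>
    obtain ⟨r, rfl⟩ := hw
    obtain ⟨a, ha, rfl⟩ := hz
    exact ⟨r * a, 𝔞.mul_mem_left _ ha, map_mul _ _ _⟩
  | zero => rw [zero_mul]; exact Submodule.zero_mem _
  | add x y _ _ hx hy => rw [add_mul]; exact Submodule.add_mem _ hx hy
  | smul r x _ hx => rw [smul_mul_assoc]; exact Submodule.smul_mem _ _ hx

theorem imM_mul_right [𝔞.IsTwoSided] {t z : A}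
    (ht : t ∈ (bigT φ 𝔞 : Subalgebra (lam φ 𝔞 : Subring K) A))
    (hz : z ∈ (imM φ 𝔞 : Submodule (lam φ 𝔞 : Subring K) A)) :
    z * t ∈ (imM φ 𝔞 : Submodule (lam φ 𝔞 : Subring K) A) := by
  have := bigT_span φ 𝔞 ht
  clear ht
  induction this using Submodule.span_induction with
  | mem w hw =>
    obtain ⟨r, rfl⟩ := hw
    obtain ⟨a, ha, rfl⟩ := hz
    exact ⟨a * r, 𝔞.mul_mem_right _ ha, map_mul _ _ _⟩
  | zero => rw [mul_zero]; exact Submodule.zero_mem _
  | add x y _ _ hx hy => rw [mul_add]; exact Submodule.add_mem _ hx hy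
  | smul r x _ hx => rw [mul_smul_comm]; exact Submodule.smul_mem _ _ hx

theorem phi_mem_bigT (r : R) : φ r ∈ (bigT φ 𝔞 : Subalgebra (lam φ 𝔞 : Subring K) A) :=
  Algebra.subset_adjoin ⟨r, rfl⟩

theorem bigT_lp {N : ℕ} (e : Module.Basis (Fin N) K A) :
    LP (lam φ (capI R N) : Subring K)
      (bigT φ (capI R N) : Subalgebra (lam φ (capI R N) : Subring K) A) := by
  refine lp_of_coeff e _ _ ?_
  intro t ht t' ht' k
  refine coeff_mem e _ _ (imM φ (capI R N) : Submodule (lam φ (capI R N) : Subring K) A).toAddSubgroup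
    (Set.range φ) ?_ ?_ ?_ ?_ ht ht' k
  · intro z hz a ha
    obtain ⟨a', ha', h1⟩ := hz (φ a) ⟨a, ha, rfl⟩
    exact ⟨a', ha', h1.symm⟩
  · rintro _ ⟨a, ha, rfl⟩
    have := capI_gen ha
    clear ha
    induction this using AddSubgroup.closure_induction with
    | mem z hz =>
      obtain ⟨p, q, x, y, rfl⟩ := hz
      refine AddSubgroup.subset_closure ⟨φ p, ⟨p, rfl⟩, φ q, ⟨q, rfl⟩, fun i => φ (x i),
        fun i => φ (y i), fun i => ⟨x i, rfl⟩, fun i => ⟨y i, rfl⟩, ?_⟩
      rw [map_mul, map_mul, map_cap]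
    | zero => rw [map_zero]; exact AddSubgroup.zero_mem _
    | add x y _ _ hx hy => rw [map_add]; exact AddSubgroup.add_mem _ hx hy
    | neg x _ hx => rw [map_neg]; exact AddSubgroup.neg_mem _ hx
  · intro p hp q hq x y hx hy
    obtain ⟨p, rfl⟩ := hp
    obtain ⟨q, rfl⟩ := hq
    have h1 : cap x y ∈ (imM φ (capI R N) : Submodule (lam φ (capI R N) : Subring K) A) := by
      rw [← capX_apply (lam φ (capI R N) : Subring K)]
      refine ext_span (capX (lam φ (capI R N) : Subring K) y).toMultilinearMap (Set.range φ)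
        (imM φ (capI R N)) ?_ x (fun i => bigT_span φ _ (hx i))
      intro x' hx'
      rw [AlternatingMap.coe_multilinearMap, capX_apply]
      choose x'' hx'' using hx'
      choose y'' hy'' using hy
      have e1 : x' = fun i => φ (x'' i) := funext fun i => (hx'' i).symm
      have e2 : y = fun i => φ (y'' i) := funext fun i => (hy'' i).symm
      rw [e1, e2, ← map_cap]
      exact ⟨_, cap_mem_capI _ _, rfl⟩
    exact imM_mul_right φ _ (phi_mem_bigT φ _ q) (imM_mul_left φ _ (phi_mem_bigT φ _ p) h1)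
  · rintro _ ⟨r, rfl⟩
    exact phi_mem_bigT φ _ r

end

/-- the reduction step -/
theorem normal_of_family {ι : Type*} [Fintype ι] [DecidableEq ι] (hc : 3 ≤ Fintype.card ι)
    {R : Type*} [Ring R] {K : Type*} [CommRing K] {A : Type*} [Ring A] [Algebra K A] {N : ℕ}
    (e : Module.Basis (Fin N) K A) (φ : R →+* A) (hinj : ∀ a ∈ capI R N, φ a = 0 → a = 0)
    (hq : (EE ι (R ⧸ sq (capI R N))).Normal) : (EE ι R).Normal := by
  let Λ : Subring K := lam φ (capI R N)
  let T : Subalgebra Λ A := bigT φ (capI R N)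
  let ψ : R →+* T := φ.codRestrict T (phi_mem_bigT φ _)
  have hψ : ∀ r, ((ψ r : T) : A) = φ r := fun r => rfl
  let 𝔞' : Ideal T :=
    { carrier := {t | ∃ a ∈ capI R N, ψ a = t}
      add_mem' := by
        rintro _ _ ⟨a, ha, rfl⟩ ⟨b, hb, rfl⟩
        exact ⟨a + b, add_mem ha hb, map_add _ _ _⟩
      zero_mem' := ⟨0, zero_mem _, map_zero _⟩
      smul_mem' := by
        rintro c _ ⟨a, ha, rfl⟩
        obtain ⟨b, hb, hbe⟩ := imM_mul_left φ (capI R N) c.2
          (z := φ a) ⟨a, ha, rfl⟩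
        exact ⟨b, hb, Subtype.ext (by rw [hψ, hbe]; rfl)⟩ }
  have h𝔞' : ∀ t : T, t ∈ 𝔞' ↔ ∃ a ∈ capI R N, ψ a = t := fun t => Iff.rfl
  have htwo : 𝔞'.IsTwoSided := by
    refine ⟨?_⟩
    intro x c hx
    obtain ⟨a, ha, rfl⟩ := hx
    obtain ⟨b, hb, hbe⟩ := imM_mul_right φ (capI R N) c.2 (z := φ a) ⟨a, ha, rfl⟩
    exact ⟨b, hb, Subtype.ext (by rw [hψ, hbe]; rfl)⟩
  refine normal_of_embed hc (bigT_lp φ e) ψ (capI R N) (sq (capI R N)) 𝔞' (sq 𝔞') ?_ ?_
    (sq_le _) ?_ (fun b hb => hb) hq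
  · intro x hx
    exact hx
  · intro b hb
    rw [mem_sq] at hb ⊢
    induction hb using AddSubgroup.closure_induction with
    | mem z hz =>
      obtain ⟨a₁, h1, a₂, h2, rfl⟩ := hz
      exact AddSubgroup.subset_closure ⟨ψ a₁, ⟨a₁, h1, rfl⟩, ψ a₂, ⟨a₂, h2, rfl⟩, map_mul _ _ _⟩
    | zero => rw [map_zero]; exact AddSubgroup.zero_mem _
    | add x y _ _ hx hy => rw [map_add]; exact AddSubgroup.add_mem _ hx hy
    | neg x _ hx => rw [map_neg]; exact AddSubgroup.neg_mem _ hx
  · intro a ha h0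
    refine hinj a ha ?_
    rw [← hψ, h0]
    rfl

end Pool.Agent.H822.PI
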