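import Mathlib
import Pool.Agent.H822.PI.Cap

/-! The staircase argument. -/

set_option autoImplicit false
set_option linter.unusedSectionVars false

namespace Pool.Agent.H822.PI

/-- a multilinear identity -/
def PIk (k : ℕ) (R : Type*) [Ring R] : Prop :=
  ∃ c : Equiv.Perm (Fin k) → ℤ, c 1 = 1 ∧
    ∀ x : Fin k → R, ∑ σ : Equiv.Perm (Fin k), ((c σ : ℤ) : R) *
      (List.ofFn (fun i => x (σ i))).prod = 0

theorem PIk.of_surj {k : ℕ} {R S : Type*} [Ring R] [Ring S] (h : PIk k R) (φ : R →+* S)
    (hφ : Function.Surjective φ) : PIk k S := by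
  obtain ⟨c, h1, h2⟩ := h
  refine ⟨c, h1, fun x => ?_⟩
  choose y hy using fun i => hφ (x i)
  have := congrArg φ (h2 y)
  rw [map_zero, map_sum] at this
  rw [← this]
  refine Finset.sum_congr rfl fun σ _ => ?_
  rw [map_mul, map_intCast, map_list_prod, List.map_ofFn]
  congr 3
  funext i
  exact (hy (σ i)).symm

/-- the identity extends to the span over a field of scalars -/
theorem PIk.span {k : ℕ} {R : Type*} [Ring R] {K A : Type*} [Field K] [Ring A] [Algebra K A]
    (c : Equiv.Perm (Fin k) → ℤ)
    (h2 : ∀ x : Fin k → R, ∑ σ : Equiv.Perm (Fin k), ((c σ : ℤ) : R) *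
      (List.ofFn (fun i => x (σ i))).prod = 0) (ρ : R →+* A) (x : Fin k → A)
    (hx : ∀ i, x i ∈ Submodule.span K (Set.range ρ)) :
    ∑ σ : Equiv.Perm (Fin k), (c σ : ℤ) • (List.ofFn (fun i => x (σ i))).prod = 0 := by
  let F : MultilinearMap K (fun _ : Fin k => A) A := ∑ σ : Equiv.Perm (Fin k),
    (c σ : ℤ) • (MultilinearMap.mkPiAlgebraFin K k A).domDomCongr σ
  have hF : ∀ y : Fin k → A, F y = ∑ σ : Equiv.Perm (Fin k),
      (c σ : ℤ) • (List.ofFn (fun i => y (σ i))).prod := by
    intro y
    simp only [F]
    rw [_root_.sum_apply]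
    refine Finset.sum_congr rfl fun σ _ => ?_
    rw [_root_.smul_apply, MultilinearMap.domDomCongr_apply, MultilinearMap.mkPiAlgebraFin_apply]
  have key : F x ∈ (⊥ : Submodule K A) := by
    refine ext_span F (Set.range ρ) ⊥ ?_ x hx
    intro y hy
    choose z hz using hy
    rw [Submodule.mem_bot, hF]
    have := congrArg ρ (h2 z)
    rw [map_zero, map_sum] at this
    rw [← this]
    refine Finset.sum_congr rfl fun σ _ => ?_
    rw [map_mul, map_intCast, map_list_prod, List.map_ofFn, zsmul_eq_mul]
    congr 3
    funext i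
    exact (hz (σ i)).symm
  rw [Submodule.mem_bot, hF] at key
  exact key

/-- the staircase -/
theorem stair {k : ℕ} {K V : Type*} [Field K] [AddCommGroup V] [Module K V]
    (t : Fin k → Module.End K V) (v : ℕ → V)
    (h : ∀ a : Fin k, ∀ b ≤ k / 2, t a (v b) = if b = ((a : ℕ) + 1) / 2 then v ((a : ℕ) / 2) else 0)
    (c : Equiv.Perm (Fin k) → ℤ) (h1 : c 1 = 1)
    (hsum : ∑ σ : Equiv.Perm (Fin k), (c σ : ℤ) • (List.ofFn (fun i => t (σ i))).prod = 0) :
    v 0 = 0 := by
  let s : Equiv.Perm (Fin k) → ℕ → ℕ := fun σ j => if hj : j < k then (σ ⟨j, hj⟩ : ℕ) else k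
  have hs : ∀ (σ : Equiv.Perm (Fin k)) (i : Fin k), s σ i = σ i := fun σ i => by
    simp [s, i.2]
  have hsk : ∀ σ : Equiv.Perm (Fin k), s σ k = k := fun σ => by simp [s]
  have hsle : ∀ (σ : Equiv.Perm (Fin k)) (j : ℕ), s σ j ≤ k := by
    intro σ j
    simp only [s]
    split_ifs with hj
    · exact (σ ⟨j, hj⟩).2.le
    · exact le_refl _
  have key : ∀ (σ : Equiv.Perm (Fin k)) (j : Fin (k + 1)),
      Fin.partialProd (fun i => t (σ i)) j (v (s σ j / 2)) =
        if (∀ i : ℕ, i < (j : ℕ) → s σ (i + 1) / 2 = (s σ i + 1) / 2) then v (s σ 0 / 2) else 0 := by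
    intro σ j
    induction j using Fin.induction with
    | zero => simp
    | succ j ih =>
      rw [Fin.partialProd_succ, Module.End.mul_apply,
        h (σ j) _ (Nat.div_le_div_right (hsle σ _)), Fin.val_succ, ← hs σ j]
      rw [Fin.val_castSucc] at ih
      by_cases h3 : s σ ((j : ℕ) + 1) / 2 = (s σ j + 1) / 2
      · rw [if_pos h3, ih]
        by_cases h4 : ∀ i : ℕ, i < (j : ℕ) → s σ (i + 1) / 2 = (s σ i + 1) / 2
        · rw [if_pos h4, if_pos]
          intro i hi
          by_cases hij : i = j
          · rw [hij]; exact h3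
          · exact h4 i (by omega)
        · rw [if_neg h4, if_neg]
          intro h5
          exact h4 fun i hi => h5 i (by omega)
      · rw [if_neg h3, map_zero, if_neg]
        intro h5
        exact h3 (h5 j (by omega))
  have hlast : ∀ f : Fin k → Module.End K V,
      Fin.partialProd f (Fin.last _) = (List.ofFn f).prod := by
    intro f
    unfold Fin.partialProd
    rw [Fin.val_last, List.take_of_length_le (by rw [List.length_ofFn])]
  have h6 := congrArg (fun f : Module.End K V => f (v (k / 2))) hsum
  simp only [LinearMap.zero_apply, LinearMap.sum_apply] at h6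
  rw [Finset.sum_eq_single 1] at h6
  · rw [h1, one_smul, ← hlast] at h6
    have h7 := key 1 (Fin.last k)
    rw [Fin.val_last, hsk] at h7
    rw [h7, if_pos] at h6
    · have h8 : s 1 0 / 2 = 0 := by
        simp only [s]
        split_ifs with hk
        · simp
        · omega
      rwa [h8] at h6
    · intro i hi
      have e1 : s 1 i = i := by simp [s, hi]
      have e2 : s 1 (i + 1) = i + 1 := by
        simp only [s]
        split_ifs with hk
        · simp
        · omega
      rw [e1, e2]
  · intro σ _ hσ
    rw [LinearMap.smul_apply, ← hlast]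
    have h7 := key σ (Fin.last k)
    rw [Fin.val_last, hsk] at h7
    rw [h7, if_neg, smul_zero]
    intro h8
    apply hσ
    -- strictly increasing
    have hne : ∀ i : ℕ, i < k → s σ i ≠ s σ (i + 1) := by
      intro i hi
      simp only [s]
      rw [dif_pos hi]
      split_ifs with hk
      · intro hcon
        have := σ.injective (Fin.ext hcon)
        have := congrArg Fin.val this
        simp at this
      · exact (σ ⟨i, hi⟩).2.ne
    have hstep : ∀ i : ℕ, i < k → s σ i < s σ (i + 1) := by
      intro i hi
      have := h8 i hi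
      have := hne i hi
      omega
    have hge : ∀ i : ℕ, i ≤ k → i ≤ s σ i := by
      intro i
      induction i with
      | zero => intro _; exact Nat.zero_le _
      | succ i ih =>
        intro hi
        have := ih (by omega)
        have := hstep i (by omega)
        omega
    have hle : ∀ j : ℕ, j ≤ k → s σ (k - j) ≤ k - j := by
      intro j
      induction j with
      | zero => intro _; rw [Nat.sub_zero, hsk]
      | succ j ih =>
        intro hj
        have h9 := ih (by omega)
        have h10 := hstep (k - (j + 1)) (by omega)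
        have h11 : k - (j + 1) + 1 = k - j := by omega
        rw [h11] at h10
        omega
    refine Equiv.ext fun i => Fin.ext ?_
    rw [← hs, Equiv.Perm.one_apply]
    have h12 := hge i (by omega)
    have h13 := hle (k - i) (by omega)
    have h14 : k - (k - (i : ℕ)) = i := by omega
    rw [h14] at h13
    omega
  · intro hcon
    exact absurd (Finset.mem_univ _) hcon

end Pool.Agent.H822.PI
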