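import Mathlib
import Pool.Agent.H822.PI.Stair

/-! Kaplansky's theorem in the form we need. -/

set_option autoImplicit false
set_option linter.unusedSectionVars false

namespace Pool.Agent.H822.PI

universe u

/-- density of a ring of endomorphisms -/
def Dn {R K V : Type*} [Ring R] [Field K] [AddCommGroup V] [Module K V]
    (ρ : R →+* Module.End K V) : Prop :=
  ∀ g : Module.End K V, ∀ s : Finset V, ∃ t ∈ Submodule.span K (Set.range ρ), ∀ v ∈ s, t v = g v

theorem dim_bound {k : ℕ} {R K V : Type*} [Ring R] [Field K] [AddCommGroup V] [Module K V]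
    (hPI : PIk k R) (ρ : R →+* Module.End K V) (hρ : Dn ρ) (w : Fin (k / 2 + 1) → V)
    (hw : LinearIndependent K w) : False := by
  classical
  obtain ⟨c, h1, h2⟩ := hPI
  let v : ℕ → V := fun j => if hj : j < k / 2 + 1 then w ⟨j, hj⟩ else 0
  have hv : ∀ j : Fin (k / 2 + 1), v j = w j := fun j => dif_pos j.2
  -- coordinates
  obtain ⟨L, hL⟩ : ∃ L : V →ₗ[K] (Fin (k / 2 + 1) →₀ K), ∀ j, L (w j) = Finsupp.single j 1 := by
    obtain ⟨L, hL⟩ := LinearMap.exists_extend (hw.repr : Submodule.span K (Set.range w) →ₗ[K] _)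
    refine ⟨L, fun j => ?_⟩
    have h3 := LinearMap.congr_fun hL ⟨w j, Submodule.subset_span ⟨j, rfl⟩⟩
    rw [LinearMap.comp_apply] at h3
    have h4 : hw.repr ⟨w j, Submodule.subset_span ⟨j, rfl⟩⟩ = Finsupp.single j 1 :=
      hw.repr_eq_single j _ rfl
    exact h3.trans h4
  have hidx : ∀ a : Fin k, ((a : ℕ) + 1) / 2 < k / 2 + 1 := fun a => by
    have := a.2
    omega
  let g : Fin k → Module.End K V := fun a =>
    ((Finsupp.lapply (⟨((a : ℕ) + 1) / 2, hidx a⟩ : Fin (k / 2 + 1))).comp L).smulRight (v ((a : ℕ) / 2))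
  have hg : ∀ a : Fin k, ∀ b ≤ k / 2, g a (v b) = if b = ((a : ℕ) + 1) / 2 then v ((a : ℕ) / 2) else 0 := by
    intro a b hb
    have hb' : v b = w ⟨b, by omega⟩ := hv ⟨b, by omega⟩
    simp only [g, LinearMap.smulRight_apply, LinearMap.comp_apply, Finsupp.lapply_apply]
    rw [hb', hL, Finsupp.single_apply]
    by_cases h3 : b = ((a : ℕ) + 1) / 2
    · rw [if_pos h3, if_pos (Fin.ext h3), one_smul]
    · rw [if_neg h3, if_neg (fun h4 => h3 (congrArg Fin.val h4)), zero_smul]
  choose t ht1 ht2 using fun a : Fin k => hρ (g a) ((Finset.range (k / 2 + 1)).image v)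
  have h5 := PIk.span (K := K) c h2 ρ t ht1
  have h6 := stair t v (fun a b hb => by
    rw [ht2 a (v b) (Finset.mem_image_of_mem v (Finset.mem_range.2 (by omega))), hg a b hb]) c h1 h5
  have h7 : v 0 = w 0 := hv 0
  rw [h7] at h6
  exact hw.ne_zero 0 h6

/-- the dimension bound for representations -/
def Bd (d : ℕ) (R : Type u) [Ring R] : Prop :=
  ∀ (K : Type u) [Field K] (m : ℕ) (ψ : R →+* Matrix (Fin m) (Fin m) K),
    Submodule.span K (Set.range ψ) = ⊤ → m ≤ d

theorem Bd.of_surj {d : ℕ} {R S : Type u} [Ring R] [Ring S] (h : Bd d R) (φ : R →+* S)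
    (hφ : Function.Surjective φ) : Bd d S := by
  intro K _ m ψ hψ
  refine h K m (ψ.comp φ) ?_
  rw [RingHom.coe_comp, hφ.range_comp]
  exact hψ

theorem bd_start {k : ℕ} {R : Type u} [Ring R] (hPI : PIk k R) : Bd (k / 2) R := by
  intro K _ m ψ hψ
  by_contra hm
  push Not at hm
  let E : Matrix (Fin m) (Fin m) K ≃ₐ[K] Module.End K (Fin m → K) := Matrix.toLinAlgEquiv'
  let ρ : R →+* Module.End K (Fin m → K) := (E : Matrix (Fin m) (Fin m) K →+* _).comp ψ
  refine dim_bound hPI ρ ?_ (fun j => Pi.basisFun K (Fin m) (Fin.castLE hm j)) ?_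
  · intro g s
    refine ⟨g, ?_, fun _ _ => rfl⟩
    have h1 : E.symm g ∈ Submodule.span K (Set.range ψ) := by rw [hψ]; exact Submodule.mem_top
    have h2 := Submodule.mem_map_of_mem (f := E.toLinearMap) h1
    rw [Submodule.map_span, ← Set.range_comp] at h2
    have h3 : E.toLinearMap (E.symm g) = g := E.apply_symm_apply g
    rw [h3] at h2
    exact h2
  · exact (Pi.basisFun K (Fin m)).linearIndependent.comp _ (Fin.castLE_injective hm)

/-- the representation from a dense action -/
theorem rep_of_dense {k : ℕ} {R K V : Type u} [Ring R] [Field K] [AddCommGroup V] [Module K V]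
    (hPI : PIk k R) (ρ : R →+* Module.End K V) (hρ : Dn ρ) :
    ∃ (m : ℕ) (ψ : R →+* Matrix (Fin m) (Fin m) K), Submodule.span K (Set.range ψ) = ⊤ ∧
      ∀ r, ψ r = 0 → ρ r = 0 := by
  classical
  have hfin : Module.Finite K V := by
    rw [← Module.rank_lt_aleph0_iff]
    have h1 : Module.rank K V < ((k / 2 + 1 : ℕ) : Cardinal) := by
      by_contra hcon
      push Not at hcon
      rw [_root_.le_rank_iff_exists_linearIndependent_finset] at hcon
      obtain ⟨s, hs, hli⟩ := hcon
      let e : Fin (k / 2 + 1) ≃ (s : Set V) := (Fintype.equivFinOfCardEq (by simpa using hs)).symm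
      exact dim_bound hPI ρ hρ (fun j => (e j : V)) (hli.comp e e.injective)
    exact h1.trans (Cardinal.natCast_lt_aleph0)
  let n := Module.finrank K V
  let b : Module.Basis (Fin n) K V := Module.finBasis K V
  let E : Module.End K V ≃ₐ[K] Matrix (Fin n) (Fin n) K := algEquivMatrix b
  refine ⟨n, (E : Module.End K V →+* _).comp ρ, ?_, ?_⟩
  · rw [eq_top_iff]
    intro x _
    obtain ⟨t, ht, hte⟩ := hρ (E.symm x) (Finset.univ.image b)
    have h1 : t = E.symm x := b.ext fun i => hte _ (Finset.mem_image_of_mem _ (Finset.mem_univ i))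
    rw [h1] at ht
    have h2 := Submodule.mem_map_of_mem (f := E.toLinearMap) ht
    rw [Submodule.map_span, ← Set.range_comp] at h2
    have h3 : E.toLinearMap (E.symm x) = x := E.apply_symm_apply x
    rw [h3] at h2
    exact h2
  · intro r hr
    exact E.injective (by rw [map_zero]; exact hr)

/-- density from a maximality property of the scalars -/
theorem dense_of_max {R K V : Type u} [Ring R] [Field K] [AddCommGroup V] [Module K V] [Module R V]
    [SMulCommClass R K V] [IsSimpleModule R V]
    (hmax : ∀ f : V →+ V, (∀ (r : R) v, f (r • v) = r • f v) → (∀ (c : K) v, f (c • v) = c • f v) →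
      ∃ c : K, ∀ v, f v = c • v) :
    Dn (Module.toModuleEnd K V : R →+* Module.End K V) := by
  intro g s
  let ρ : R →+* Module.End K V := Module.toModuleEnd K V
  let S : Subalgebra K (Module.End K V) := Algebra.adjoin K (Set.range ρ)
  have hS : ∀ t ∈ S, t ∈ Submodule.span K (Set.range ρ) := by
    intro t ht
    have h1 : t ∈ Subalgebra.toSubmodule (Algebra.adjoin K (Set.range ρ)) := ht
    rw [Algebra.adjoin_eq_span] at h1
    have h2 : (Submonoid.closure (Set.range ρ) : Set (Module.End K V)) ⊆ Set.range ρ := by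
      have : Submonoid.closure (Set.range ρ) ≤ MonoidHom.mrange (ρ : R →* Module.End K V) := by
        rw [Submonoid.closure_le]
        rintro _ ⟨r, rfl⟩
        exact ⟨r, rfl⟩
      intro x hx
      exact this hx
    exact Submodule.span_mono h2 h1
  have hρS : ∀ r, ρ r ∈ S := fun r => Algebra.subset_adjoin ⟨r, rfl⟩
  have hsimple : IsSimpleModule S V := by
    rw [isSimpleModule_iff_toSpanSingleton_surjective]
    refine ⟨IsSimpleModule.nontrivial R V, ?_⟩
    intro x hx y
    have h1 := (isSimpleModule_iff_toSpanSingleton_surjective (R := R) (M := V)).1 inferInstance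
    obtain ⟨r, hr⟩ := h1.2 x hx y
    exact ⟨⟨ρ r, hρS r⟩, hr⟩
  have hcomm : ∀ (h : Module.End S V) (v : V), g (h v) = h (g v) := by
    intro h v
    obtain ⟨c, hc⟩ := hmax h.toAddMonoidHom
      (fun r v => h.map_smul (⟨ρ r, hρS r⟩ : S) v)
      (fun c v => h.map_smul (algebraMap K S c) v)
    have h1 : ∀ v, h v = c • v := hc
    rw [h1, h1, map_smul]
  let f : Module.End (Module.End S V) V :=
    { toFun := g
      map_add' := g.map_add
      map_smul' := fun h v => hcomm h v }
  obtain ⟨t, ht⟩ := jacobson_density f s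
  exact ⟨t, hS _ t.2, fun v hv => (ht v hv).symm⟩

end Pool.Agent.H822.PI
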