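import Mathlib
import Pool.Agent.H822.PI.Kap

/-! Maximal subfields of the endomorphism ring of a simple module. -/

set_option autoImplicit false
set_option linter.unusedSectionVars false

namespace Pool.Agent.H822.PI

universe u

theorem max_field {R V : Type u} [Ring R] [AddCommGroup V] [Module R V] [IsSimpleModule R V] :
    ∃ (K : Type u) (_ : Field K) (j : K →+* Module.End R V),
      ∀ z : Module.End R V, (∀ c, z * j c = j c * z) → ∃ c, j c = z := by
  classical
  let D := Module.End R V
  obtain ⟨B, hB⟩ := zorn_subset {B : Set D | ∀ x ∈ B, ∀ y ∈ B, x * y = y * x} (by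
    intro c hc hchain
    refine ⟨⋃₀ c, ?_, fun s hs => Set.subset_sUnion_of_mem hs⟩
    rintro x ⟨s, hs, hx⟩ y ⟨t, ht, hy⟩
    rcases hchain.total hs ht with h | h
    · exact hc ht x (h hx) y hy
    · exact hc hs x hx y (h hy))
  have hcomm : ∀ x ∈ B, ∀ y ∈ B, x * y = y * x := hB.prop
  have hmax : ∀ z : D, (∀ x ∈ B, z * x = x * z) → z ∈ B := by
    intro z hz
    have h1 : insert z B ∈ {B : Set D | ∀ x ∈ B, ∀ y ∈ B, x * y = y * x} := by
      intro x hx y hy
      rcases hx with rfl | hx
      · rcases hy with rfl | hy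
        · rfl
        · exact hz y hy
      · rcases hy with rfl | hy
        · exact (hz x hx).symm
        · exact hcomm x hx y hy
    exact hB.le_of_ge h1 (Set.subset_insert z B) (Set.mem_insert z B)
  let C : Subring D := Subring.centralizer B
  have hC : ∀ z : D, z ∈ C ↔ z ∈ B := by
    intro z
    rw [Subring.mem_centralizer_iff]
    exact ⟨fun h => hmax z fun x hx => (h x hx).symm, fun h x hx => hcomm x hx z h⟩
  have hField : IsField C := by
    refine ⟨?_, ?_, ?_⟩
    · have hnt : Nontrivial V := IsSimpleModule.nontrivial R V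
      obtain ⟨v, hv⟩ := exists_ne (0 : V)
      refine ⟨0, 1, fun h => hv ?_⟩
      have h1 : (0 : D) = 1 := congrArg Subtype.val h
      have h2 := LinearMap.congr_fun h1 v
      exact h2.symm
    · intro x y
      exact Subtype.ext (hcomm _ ((hC _).1 x.2) _ ((hC _).1 y.2))
    · intro a ha
      have ha0 : (a : D) ≠ 0 := fun h => ha (Subtype.ext h)
      have hbij := LinearMap.bijective_of_ne_zero ha0
      let e := LinearEquiv.ofBijective (a : D) hbij
      let b : D := e.symm.toLinearMap
      have hab : (a : D) * b = 1 := LinearMap.ext fun v => e.apply_symm_apply v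
      have hba : b * (a : D) = 1 := LinearMap.ext fun v => e.symm_apply_apply v
      have hb : b ∈ C := by
        rw [hC]
        refine hmax b fun x hx => ?_
        have h1 := hcomm _ ((hC _).1 a.2) x hx
        calc b * x = b * x * ((a : D) * b) := by rw [hab, mul_one]
          _ = b * (x * (a : D)) * b := by noncomm_ring
          _ = b * ((a : D) * x) * b := by rw [h1]
          _ = (b * (a : D)) * x * b := by noncomm_ring
          _ = x * b := by rw [hba, one_mul]
      exact ⟨⟨b, hb⟩, Subtype.ext hab⟩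
  let F : Field C := hField.toField
  refine ⟨C, F, C.subtype, ?_⟩
  intro z hz
  have h1 : z ∈ C := by
    rw [hC]
    exact hmax z fun x hx => hz ⟨x, (hC x).2 hx⟩
  exact ⟨⟨z, h1⟩, rfl⟩

/-- Kaplansky's theorem with a splitting -/
theorem kaplansky {k : ℕ} {R : Type u} [Ring R] (hPI : PIk k R) {r : R}
    (hr : r ∉ Ring.jacobson R) :
    ∃ (K : Type u) (_ : Field K) (m : ℕ) (ψ : R →+* Matrix (Fin m) (Fin m) K),
      Submodule.span K (Set.range ψ) = ⊤ ∧ ψ r ≠ 0 := by
  rw [Ring.jacobson_eq_sInf_isMaximal, Submodule.mem_sInf] at hr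
  push Not at hr
  obtain ⟨M, hM, hrM⟩ := hr
  have hM' : Ideal.IsMaximal M := hM
  let V := R ⧸ M
  have hsimple : IsSimpleModule R V := by
    rw [isSimpleModule_iff_isCoatom]
    exact (Ideal.isMaximal_def).1 hM'
  obtain ⟨K, hK, j, hj⟩ := max_field (R := R) (V := V)
  let _ : Module K V := Module.compHom V j
  have hsm : ∀ (c : K) (v : V), c • v = j c v := fun c v => rfl
  have hcomm : SMulCommClass R K V := ⟨fun s c v => by
    rw [hsm, hsm, map_smul]⟩
  have hdense := dense_of_max (R := R) (K := K) (V := V) (by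
    intro f hf1 hf2
    let z : Module.End R V :=
      { toFun := f
        map_add' := f.map_add
        map_smul' := hf1 }
    obtain ⟨c, hc⟩ := hj z (fun c => LinearMap.ext fun v => hf2 c v)
    exact ⟨c, fun v => by rw [hsm, hc]; rfl⟩)
  obtain ⟨m, ψ, h1, h2⟩ := rep_of_dense hPI _ hdense
  refine ⟨K, hK, m, ψ, h1, fun h0 => ?_⟩
  have h3 := LinearMap.congr_fun (h2 r h0) (Submodule.Quotient.mk (1 : R))
  have h4 : r • (Submodule.Quotient.mk (1 : R) : V) = 0 := h3
  rw [← Submodule.Quotient.mk_smul, smul_eq_mul, mul_one, Submodule.Quotient.mk_eq_zero] at h4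
  exact hrM h4

end Pool.Agent.H822.PI
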