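import Mathlib
import Pool.Agent.H822.PI.Kap2
import Pool.Agent.H822.PI.Embed

/-! The induction. -/

set_option autoImplicit false
set_option linter.unusedSectionVars false

namespace Pool.Agent.H822.PI

open Matrix

universe u v

theorem isUnit_of_jacobson {R : Type*} [Ring R] {x : R} (hx : x ∈ Ring.jacobson R) :
    IsUnit (1 + x) := by
  have key : ∀ y ∈ Ring.jacobson R, ∃ z, z * (1 + y) = 1 := by
    intro y hy
    rw [← Ideal.jacobson_bot, Ideal.mem_jacobson_iff] at hy
    obtain ⟨z, hz⟩ := hy 1
    rw [Ideal.mem_bot, mul_one, sub_eq_zero] at hz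
    exact ⟨z, by rw [mul_add, mul_one, add_comm, hz]⟩
  obtain ⟨z, hz⟩ := key x hx
  have h1 : z = 1 + -(z * x) := by
    rw [mul_add, mul_one] at hz
    rw [← hz]; abel
  obtain ⟨w, hw⟩ := key (-(z * x)) (neg_mem (Ideal.mul_mem_left _ z hx))
  rw [← h1] at hw
  have h2 : w = 1 + x := by
    calc w = w * (z * (1 + x)) := by rw [hz, mul_one]
      _ = (w * z) * (1 + x) := by rw [mul_assoc]
      _ = 1 + x := by rw [hw, one_mul]
  rw [h2] at hw
  exact ⟨⟨1 + x, z, hw, hz⟩, rfl⟩

/-- a spanning representation of top degree does not kill the square of the ideal -/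
theorem not_kill {R K : Type*} [Ring R] [Field K] {d : ℕ} (hd : 0 < d)
    (ψ : R →+* Matrix (Fin d) (Fin d) K) (hψ : Submodule.span K (Set.range ψ) = ⊤)
    (hkill : ∀ b ∈ sq (capI R (d * d)), ψ b = 0) : False := by
  let P : Submodule K (Matrix (Fin d) (Fin d) K) :=
    Submodule.span K (ψ '' (capI R (d * d) : Set R))
  have hall : ∀ z : Matrix (Fin d) (Fin d) K, z ∈ Submodule.span K (Set.range ψ) := by
    intro z; rw [hψ]; exact Submodule.mem_top
  have hcap : ∀ x y : Fin (d * d) → Matrix (Fin d) (Fin d) K, cap x y ∈ P := by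
    intro x y
    rw [← capX_apply K]
    refine ext_span (capX K y).toMultilinearMap (Set.range ψ) P ?_ x (fun i => hall _)
    intro x' hx'
    rw [AlternatingMap.coe_multilinearMap, capX_apply, ← capY_apply K]
    refine ext_span (capY K x') (Set.range ψ) P ?_ y (fun i => hall _)
    intro y' hy'
    rw [capY_apply]
    choose x'' hx'' using hx'
    choose y'' hy'' using hy'
    have e1 : x' = fun i => ψ (x'' i) := funext fun i => (hx'' i).symm
    have e2 : y' = fun i => ψ (y'' i) := funext fun i => (hy'' i).symm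
    rw [e1, e2, ← map_cap]
    exact Submodule.subset_span ⟨_, cap_mem_capI _ _, rfl⟩
  have hPP : ∀ p ∈ P, ∀ q ∈ P, p * q = 0 := by
    intro p hp q hq
    induction hp using Submodule.span_induction with
    | mem z hz =>
      obtain ⟨a, ha, rfl⟩ := hz
      induction hq using Submodule.span_induction with
      | mem w hw =>
        obtain ⟨b, hb, rfl⟩ := hw
        rw [← map_mul]
        exact hkill _ (mem_sq.2 (AddSubgroup.subset_closure ⟨a, ha, b, hb, rfl⟩))
      | zero => rw [mul_zero]
      | add x y _ _ hx hy => rw [mul_add, hx, hy, add_zero]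
      | smul c x _ hx => rw [mul_smul_comm, hx, smul_zero]
    | zero => rw [zero_mul]
    | add x y _ _ hx hy => rw [add_mul, hx, hy, add_zero]
    | smul c x _ hx => rw [smul_mul_assoc, hx, smul_zero]
  obtain ⟨x, y, ρ, hρ, i, hi⟩ := cap_units (K := K) hd
  have h1 := hPP _ (hcap x y) _ (hcap x y)
  have h2 : ρ ᵥ* (cap x y * cap x y) = ρ := by rw [← vecMul_vecMul, hρ, hρ]
  rw [h1, vecMul_zero] at h2
  rw [← h2] at hi
  exact zero_ne_one hi

theorem kill_capI {R K : Type*} [Ring R] [Field K] {d m : ℕ} (hm : m < d)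
    (ψ : R →+* Matrix (Fin m) (Fin m) K) {a : R} (ha : a ∈ capI R (d * d)) : ψ a = 0 := by
  have := capI_gen ha
  clear ha
  induction this using AddSubgroup.closure_induction with
  | mem z hz =>
    obtain ⟨p, q, x, y, rfl⟩ := hz
    rw [map_mul, map_mul, map_cap, cap_vanish hm, mul_zero, zero_mul]
  | zero => rw [map_zero]
  | add x y _ _ hx hy => rw [map_add, hx, hy, add_zero]
  | neg x _ hx => rw [map_neg, hx, neg_zero]

theorem step {ι : Type v} [Fintype ι] [DecidableEq ι] (hc : 3 ≤ Fintype.card ι) {k d : ℕ}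
    (ih : ∀ (R : Type u) [Ring R], PIk k R → Bd d R → (EE ι R).Normal)
    (R : Type u) [Ring R] (hPI : PIk k R) (hBd : Bd (d + 1) R) (hJ : Ring.jacobson R = ⊥) :
    (EE ι R).Normal := by
  classical
  -- the representations of top degree
  let Ω := {a : R // ∃ (K : Type u) (_ : Field K)
    (ψ : R →+* Matrix (Fin (d + 1)) (Fin (d + 1)) K), ψ a ≠ 0}
  choose K F ψ hψ using fun a : Ω => a.2
  let φ : R →+* Matrix (Fin (d + 1)) (Fin (d + 1)) (∀ a : Ω, K a) :=
    { toFun := fun r => Matrix.of fun i j a => ψ a r i j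
      map_one' := by
        ext i j a
        simp only [Matrix.of_apply, map_one, one_apply]
        split_ifs <;> rfl
      map_zero' := by
        ext i j a
        simp
      map_add' := by
        intro r s
        ext i j a
        simp
      map_mul' := by
        intro r s
        ext i j a
        simp [mul_apply] }
  have hφ : ∀ r, φ r = 0 → ∀ a : Ω, ψ a r = 0 := by
    intro r hr a
    ext i j
    have := congrFun (congrFun (congrFun hr i) j) a
    exact this
  let e := (Matrix.stdBasis (∀ a : Ω, K a) (Fin (d + 1)) (Fin (d + 1))).reindex finProdFinEquiv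
  refine normal_of_family hc e φ ?_ ?_
  · intro a ha h0
    by_contra hne
    have hnj : a ∉ Ring.jacobson R := by rw [hJ]; exact hne
    obtain ⟨K', hK', m, ψ', h1, h2⟩ := kaplansky hPI hnj
    have hm : m ≤ d + 1 := hBd K' m ψ' h1
    rcases Nat.lt_or_ge m (d + 1) with hlt | hge
    · exact h2 (kill_capI hlt ψ' ha)
    · have hme : m = d + 1 := le_antisymm hm hge
      subst hme
      exact hψ ⟨a, K', hK', ψ', h2⟩ (hφ a h0 _)
  · refine ih _ (hPI.of_surj _ Ideal.Quotient.mk_surjective) ?_
    intro K' _ m ψ' h1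
    have hsurj : Function.Surjective (Ideal.Quotient.mk (sq (capI R ((d + 1) * (d + 1))))) :=
      Ideal.Quotient.mk_surjective
    have h2 : Submodule.span K' (Set.range (ψ'.comp
        (Ideal.Quotient.mk (sq (capI R ((d + 1) * (d + 1))))))) = ⊤ := by
      rw [RingHom.coe_comp, hsurj.range_comp]
      exact h1
    have hm : m ≤ d + 1 := hBd K' m _ h2
    by_contra hcon
    have hme : m = d + 1 := by omega
    subst hme
    refine not_kill (Nat.succ_pos d) _ h2 ?_
    intro b hb
    rw [RingHom.comp_apply, Ideal.Quotient.eq_zero_iff_mem.2 hb, map_zero]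

theorem main {ι : Type v} [Fintype ι] [DecidableEq ι] (hc : 3 ≤ Fintype.card ι) (k : ℕ) :
    ∀ (d : ℕ) (R : Type u) [Ring R], PIk k R → Bd d R → (EE ι R).Normal := by
  intro d
  induction d with
  | zero =>
    intro R _ hPI hBd
    have hsub : Subsingleton R := by
      by_contra hcon
      have hnt : Nontrivial R := not_subsingleton_iff_nontrivial.1 hcon
      have h1 : (1 : R) ∉ Ring.jacobson R := fun h =>
        (Ring.jacobson_lt_top R).ne ((Ideal.eq_top_iff_one _).2 h)
      obtain ⟨K, _, m, ψ, h2, h3⟩ := kaplansky hPI h1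
      have hm : m ≤ 0 := hBd K m ψ h2
      have hm0 : m = 0 := Nat.le_zero.1 hm
      subst hm0
      exact h3 (Subsingleton.elim _ _)
    have hsubM : Subsingleton (Matrix ι ι R) := inferInstance
    have hsubU : Subsingleton (Matrix ι ι R)ˣ := ⟨fun a b => Units.ext (Subsingleton.elim _ _)⟩
    exact ⟨fun x hx g => by
      have : g * x * g⁻¹ = x := Subsingleton.elim _ _
      rwa [this]⟩
  | succ d ih =>
    intro R _ hPI hBd
    refine normal_of_jac hc (Ring.jacobson R) (fun x hx => isUnit_of_jacobson hx) ?_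
    exact step hc ih _ (hPI.of_surj _ Ideal.Quotient.mk_surjective)
      (hBd.of_surj _ Ideal.Quotient.mk_surjective) (Ring.jacobson_quotient_jacobson R)

/-- the elementary subgroup over a ring with a polynomial identity is normal -/
theorem main' {ι : Type v} [Fintype ι] [DecidableEq ι] (hc : 3 ≤ Fintype.card ι) {k : ℕ}
    {R : Type u} [Ring R] (hPI : PIk k R) : (EE ι R).Normal :=
  main hc k (k / 2) R hPI (bd_start hPI)

end Pool.Agent.H822.PI
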